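import Pool.Agent.Lib.Pad47bbS.Shape

/-!
Tight lattice points have bounded degree, unless `N` is generated by linearly independent lattice
points.
-/

open Set Topology

namespace Pool.Agent.Lib.Pad47bbS

open Pool.Agent.Lib.Pad47bb Pool.Agent.Lib.Pad47bbV Pool.Agent.Lib.Pad47bbQ

variable {V : Type*} [NormedAddCommGroup V] [NormedSpace ℝ V] [FiniteDimensional ℝ V]
  {L : Submodule ℤ V}

omit [FiniteDimensional ℝ V] in
theorem sum_sub_mem {ι : Type*} [Fintype ι] {N : PointedCone ℝ V} {b : Module.Basis ι ℝ V}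
    (hbN : ∀ i, b i ∈ N) (i : ι) : ∑ k, b k - b i ∈ N := by
  classical
  rw [← Finset.add_sum_erase _ _ (Finset.mem_univ i), add_sub_cancel_left]
  exact Submodule.sum_mem _ fun j _ => hbN j

omit [FiniteDimensional ℝ V] in
/-- Lattice points with all coordinates between `ε / 4` and `2` have all coordinates larger than
`ε / 2`. -/
theorem coord_large {N M : PointedCone ℝ V} {Γ : Subgroup (V ≃ₗ[ℝ] V)} {Z : Finset V}
    {η κ κ' ε : ℝ}
    (hn : 0 < Module.finrank ℝ V) (hε : 0 < ε) (hε1 : ε ≤ 1) (hη : 0 < η)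
    (hηε : 8 * η ≤ ε / 4) (hκ' : 0 < κ')
    (hηω : 64 * (Module.finrank ℝ V : ℝ) ^ 2 * (η * (1 / (κ' * (ε / 4)))) ≤ ε / 4)
    {y : V} (hty : Tight L N M ε y)
    {b : Module.Basis (Fin (Module.finrank ℝ V)) ℝ V} (hb : Nice L N M Γ Z η κ y b)
    {q : V} (hq : ∀ i, ε / 4 ≤ b.repr q i ∧ b.repr q i ≤ 2)
    {b' : Module.Basis (Fin (Module.finrank ℝ V)) ℝ V} (hb' : Nice L N M Γ Z η κ' q b')
    (i : Fin (Module.finrank ℝ V)) : ε / 2 < b.repr q i := by
  classical
  set ω : ℝ := 1 / (κ' * (ε / 4)) with hω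
  have hω0 : 0 < ω := by positivity
  have hη4 : η ≤ 1 / 4 := by linarith
  have hqs : q - (ε / 4) • ∑ k, b k ∈ N := by
    refine mem_of_coord hb.memN fun j => ?_
    rw [map_sub, map_smul, Finsupp.sub_apply, Finsupp.smul_apply, repr_sum, smul_eq_mul, mul_one]
    linarith [(hq j).1]
  have hA : ∀ k j, -(8 * η) ≤ b.repr (b' k) j ∧ b.repr (b' k) j ≤ b.repr q j + 8 * η := by
    intro k j
    have h1 : q - b' k ∈ N := by
      have e : q - b' k = (q - ∑ l, b' l) + (∑ l, b' l - b' k) := by abel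
      rw [e]
      exact N.add_mem hb'.le (sum_sub_mem hb'.memN k)
    have h2 := coord_bounds hb.memN hη hη4 hb.sub (hb'.memN k) h1 (lam := 2) two_pos
      (fun j => by rw [add_sub_cancel]; exact (hq j).2) j
    rw [add_sub_cancel] at h2
    constructor <;> linarith [h2.1, h2.2]
  have hB : ∀ j k, -(4 * η * ω) ≤ b'.repr (b j) k ∧ b'.repr (b j) k ≤ 2 * ω := by
    intro j k
    have h1 : ω • ∑ l, b' l - b j ∈ N := by
      have e1 : (ω * κ') • ((ε / 4) • ∑ l, b l) = ∑ l, b l := by
        rw [smul_smul]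
        have : ω * κ' * (ε / 4) = 1 := by
          rw [hω]
          field_simp
        rw [this, one_smul]
      have e : ω • ∑ l, b' l - b j = ω • (∑ l, b' l - κ' • q) +
          ((ω * κ') • (q - (ε / 4) • ∑ l, b l) + (∑ l, b l - b j)) := by
        rw [smul_sub (ω * κ'), e1, smul_sub ω, smul_smul]
        abel
      rw [e]
      exact N.add_mem (PointedCone.smul_mem _ hω0.le hb'.ge)
        (N.add_mem (PointedCone.smul_mem _ (by positivity) hqs) (sum_sub_mem hb.memN j))
    have h3 : ∀ l, b'.repr (b j + (ω • ∑ l, b' l - b j)) l = ω := by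
      intro l
      rw [add_sub_cancel, map_smul, Finsupp.smul_apply, repr_sum, smul_eq_mul, mul_one]
    have h2 := coord_bounds hb'.memN hη hη4 hb'.sub (hb.memN j) h1 (lam := ω) hω0
      (fun l => (h3 l).le) k
    rw [h3] at h2
    have h4 : 4 * η * ω ≤ ω := by nlinarith
    constructor <;> linarith [h2.1, h2.2]
  have hprod : ∀ j, ∑ k, b'.repr (b i) k * b.repr (b' k) j = b.repr (b i) j := by
    intro j
    conv_rhs => rw [← b'.sum_repr (b i)]
    rw [map_sum, Finsupp.finsetSum_apply]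
    refine Finset.sum_congr rfl fun k _ => ?_
    rw [map_smul, Finsupp.smul_apply, smul_eq_mul]
  obtain ⟨k, hk⟩ := exists_small_row hn (A := fun k j => b.repr (b' k) j)
    (B := fun j k => b'.repr (b j) k) hη hη4 hω0 (by linarith)
    (fun k j => ⟨(hA k j).1, by linarith [(hA k j).2, (hq j).2]⟩) hB i
    (by rw [hprod, Module.Basis.repr_self, Finsupp.single_eq_same])
    (fun j hj => by rw [hprod, Module.Basis.repr_self, Finsupp.single_eq_of_ne hj])
  by_contra hcon
  push Not at hcon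
  have h1 : ε • ∑ l, b l - b' k ∈ N := by
    refine mem_of_coord hb.memN fun j => ?_
    rw [map_sub, map_smul, Finsupp.sub_apply, Finsupp.smul_apply, repr_sum, smul_eq_mul, mul_one]
    by_cases hj : j = i
    · rw [hj]
      linarith [(hA k i).2]
    · have := hk j hj
      linarith
  refine hty (b' k) (hb'.memL k) (hb'.memM k) (b'.ne_zero k) ?_
  have e : ε • y - b' k = ε • (y - ∑ l, b l) + (ε • ∑ l, b l - b' k) := by
    rw [smul_sub]
    abel
  rw [e]
  exact N.add_mem (PointedCone.smul_mem _ hε.le hb.le) h1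

omit [FiniteDimensional ℝ V] in
/-- No lattice point has a small positive coordinate. -/
theorem no_small {n : ℕ} {b : Module.Basis (Fin n) ℝ V} (hbL : ∀ i, b i ∈ L) {ε : ℝ} (hε : 0 < ε)
    (hε1 : ε ≤ 1)
    (H : ∀ q ∈ L, (∀ i, ε / 4 ≤ b.repr q i ∧ b.repr q i ≤ 2) → ∀ i, ε / 2 < b.repr q i)
    {v : V} (hv : v ∈ L) (i : Fin n) (hv0 : 0 < b.repr v i) : ε / 4 ≤ b.repr v i := by
  classical
  by_contra hcon
  push Not at hcon
  set x : ℝ := b.repr v i with hx
  set m : ℕ := ⌈(ε / 4) / x⌉₊ with hm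
  have h1 : ε / 4 ≤ m * x := by
    have := Nat.le_ceil ((ε / 4) / x)
    rwa [div_le_iff₀ hv0] at this
  have h2 : m * x < ε / 2 := by
    have := Nat.ceil_lt_add_one (a := (ε / 4) / x) (by positivity)
    have h3 : (m : ℝ) * x < ((ε / 4) / x + 1) * x := mul_lt_mul_of_pos_right this hv0
    rw [add_mul, div_mul_cancel₀ _ hv0.ne'] at h3
    linarith
  let c : Fin n → ℤ := fun j => if j = i then 0 else 1 - ⌊m * b.repr v j⌋
  set q : V := m • v + ∑ j, c j • b j with hq
  have hqL : q ∈ L := L.add_mem (L.toAddSubgroup.nsmul_mem hv m)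
    (Submodule.sum_mem _ fun j _ => L.smul_mem _ (hbL j))
  have hrepr : ∀ j, b.repr q j = m * b.repr v j + c j := by
    intro j
    have e : ∑ j, c j • b j = ∑ j, (c j : ℝ) • b j :=
      Finset.sum_congr rfl fun j _ => by rw [Int.cast_smul_eq_zsmul]
    rw [hq, e, map_add, Finsupp.add_apply, b.repr_sum_self (fun j => (c j : ℝ)),
      ← Nat.cast_smul_eq_nsmul ℝ, map_smul, Finsupp.smul_apply, smul_eq_mul]
  have hi : b.repr q i = m * x := by
    rw [hrepr]
    simp [c, hx]
  have h3 := H q hqL (fun j => by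
    by_cases hj : j = i
    · rw [hj, hi]
      constructor <;> linarith
    · rw [hrepr]
      simp only [c, if_neg hj]
      have h4 := Int.floor_le (m * b.repr v j)
      have h5 := Int.lt_floor_add_one (m * b.repr v j)
      push_cast
      constructor <;> linarith) i
  rw [hi] at h3
  linarith

omit [FiniteDimensional ℝ V] in
theorem eventually_sub_mem {N : PointedCone ℝ V} {z : V} (hz : z ∈ interior (N : Set V)) (e : V) :
    ∀ᶠ t : ℝ in Filter.atTop, t • z - e ∈ N := by
  have h1 : Filter.Tendsto (fun t : ℝ => z - t⁻¹ • e) Filter.atTop (𝓝 (z - (0 : ℝ) • e)) :=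
    tendsto_const_nhds.sub (tendsto_inv_atTop_zero.smul_const e)
  rw [zero_smul, sub_zero] at h1
  filter_upwards [h1.eventually (isOpen_interior.mem_nhds hz), Filter.eventually_gt_atTop 0]
    with t ht ht0
  have h2 := PointedCone.smul_mem N ht0.le (interior_subset ht)
  rwa [smul_sub, smul_smul, mul_inv_cancel₀ ht0.ne', one_smul] at h2

omit [FiniteDimensional ℝ V] in
/-- a uniform bound of finitely many vectors by the interior points of a finite set -/
theorem exists_uniform {N : PointedCone ℝ V} {ι : Type*} [Finite ι] (e : ι → V) (Z : Finset V) :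
    ∃ t : ℝ, 0 < t ∧ ∀ z ∈ Z, z ∈ interior (N : Set V) → ∀ k, t • z - e k ∈ N ∧ t • z + e k ∈ N := by
  classical
  have h : ∀ᶠ t : ℝ in Filter.atTop, ∀ z ∈ Z, z ∈ interior (N : Set V) →
      ∀ k, t • z - e k ∈ N ∧ t • z + e k ∈ N := by
    rw [Filter.eventually_all_finset]
    intro z _
    by_cases hz : z ∈ interior (N : Set V)
    · have h1 : ∀ᶠ t : ℝ in Filter.atTop, ∀ k, t • z - e k ∈ N ∧ t • z + e k ∈ N := by
        rw [Filter.eventually_all]
        intro k
        filter_upwards [eventually_sub_mem hz (e k), eventually_sub_mem hz (-e k)] with t h2 h3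
        refine ⟨h2, ?_⟩
        rwa [sub_neg_eq_add] at h3
      filter_upwards [h1] with t ht _
      exact ht
    · filter_upwards with t h1
      exact absurd h1 hz
  obtain ⟨t, h1, h2⟩ := (h.and (Filter.eventually_gt_atTop 0)).exists
  exact ⟨t, h2, h1⟩

omit [FiniteDimensional ℝ V] in
theorem Low.mono {N : PointedCone ℝ V} {Γ : Subgroup (V ≃ₗ[ℝ] V)}
    (hA : ∀ g ∈ Γ, ∀ x ∈ N, g x ∈ N) {Z : Finset V}
    {c : ℝ} {x y : V} (hx : Low N Γ Z c x) (hc : 0 ≤ c) {c' : ℝ} (h : x - c' • y ∈ N) :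
    Low N Γ Z (c * c') y := by
  obtain ⟨g, hg, z, hz, hzx⟩ := hx
  refine ⟨g, hg, z, hz, ?_⟩
  have e : z - (c * c') • g y = (z - c • g x) + c • g (x - c' • y) := by
    rw [map_sub, map_smul, smul_sub, smul_smul]
    abel
  rw [e]
  exact N.add_mem hzx (PointedCone.smul_mem _ hc (hA g hg _ h))

theorem tight_bounded [DiscreteTopology L] [IsZLattice ℝ L] [Nontrivial V] {N M : PointedCone ℝ V}
    {Γ : Subgroup (V ≃ₗ[ℝ] V)} (hCo : Cones L N M Γ)
    (hsp : AlmostSplits L M Γ (interior (N : Set V)) (Module.finrank ℝ V))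
    (hnp : ¬ ∃ b : Module.Basis (Fin (Module.finrank ℝ V)) ℝ V, (∀ i, b i ∈ L ∧ b i ∈ M) ∧
      ∀ z ∈ N, ∀ i, 0 ≤ b.repr z i)
    {ε : ℝ} (hε : 0 < ε) (hε1 : ε ≤ 1) :
    ∃ E : Finset V, ∀ y ∈ L, y ∈ interior (N : Set V) → Tight L N M ε y → ∃ g ∈ Γ, g y ∈ E := by
  classical
  have hN := hCo.good
  have hA := hCo.acts
  obtain ⟨Z, hZ⟩ := hsp
  let e₀ := Module.Free.chooseBasis ℤ L
  let e := e₀.ofZLatticeBasis ℝ L
  have heL : ∀ i, e i ∈ L := fun i => by
    have : e i = (e₀ i : V) := e₀.ofZLatticeBasis_apply ℝ L i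
    rw [this]
    exact (e₀ i).2
  obtain ⟨lam, hlam, hlamZ⟩ := exists_uniform (N := N) e Z
  set n : ℕ := Module.finrank ℝ V with hn
  have hn0 : 0 < n := Module.finrank_pos
  have hn0' : (0 : ℝ) < n := by exact_mod_cast hn0
  set D : ℕ := Module.finrank ℝ (V →L[ℝ] ℝ) with hD
  set κ : ℝ := ε / (D + 1) with hκ
  set κ' : ℝ := (ε / 2) / (D + 1) with hκ'
  have hκ0 : 0 < κ := by positivity
  have hκ'0 : 0 < κ' := by positivity
  have hκ1 : κ ≤ 1 := by
    rw [hκ, div_le_one (by positivity)]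
    have : (0 : ℝ) ≤ D := by positivity
    linarith
  have hκ'1 : κ' ≤ 1 := by
    rw [hκ', div_le_one (by positivity)]
    have : (0 : ℝ) ≤ D := by positivity
    linarith
  obtain ⟨η, hη, hη1, hη2, hη3⟩ : ∃ η : ℝ, 0 < η ∧ 8 * η ≤ ε / 4 ∧
      64 * (n : ℝ) ^ 2 * (η * (1 / (κ' * (ε / 4)))) ≤ ε / 4 ∧ 8 * η * lam < ε / 4 := by
    set a : ℝ := 64 * (n : ℝ) ^ 2 * (1 / (κ' * (ε / 4))) with ha
    have ha0 : 0 < a := by positivity
    refine ⟨(ε / 4) / (8 + a + 8 * lam), by positivity, ?_, ?_, ?_⟩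
    · rw [mul_div_assoc', div_le_iff₀ (by positivity)]
      nlinarith
    · have e1 : 64 * (n : ℝ) ^ 2 * ((ε / 4) / (8 + a + 8 * lam) * (1 / (κ' * (ε / 4)))) =
          a * (ε / 4) / (8 + a + 8 * lam) := by
        rw [ha]
        ring
      rw [e1, div_le_iff₀ (by positivity)]
      nlinarith
    · have e1 : 8 * ((ε / 4) / (8 + a + 8 * lam)) * lam =
          8 * lam * (ε / 4) / (8 + a + 8 * lam) := by ring
      rw [e1, div_lt_iff₀ (by positivity)]
      nlinarith
  have hη4 : η ≤ 1 / 4 := by linarith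
  have hη1' : η ≤ 1 := by linarith
  set θ : ℝ := η * κ' * (ε / 4 * κ) with hθ
  have hθ0 : 0 < θ := by positivity
  -- the exceptional set
  obtain ⟨φ, -, hφ⟩ := exists_form (L := L) hN
  have hφ0 : ∀ x ∈ N, 0 ≤ φ x := by
    intro x hx
    by_cases h : x = 0
    · rw [h, map_zero]
    · exact (hφ x hx h).le
  have hEfin : ∀ z ∈ (Z : Set V), {w : V | w ∈ L ∧ w ∈ N ∧ φ w ≤ φ z / θ}.Finite :=
    fun z _ => finite_form_le hN hφ _
  refine ⟨(Z.finite_toSet.biUnion hEfin).toFinset, fun y hyL hyN hty => ?_⟩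
  by_contra hcon
  have hlow : ¬ Low N Γ Z θ y := by
    rintro ⟨g, hg, z, hz, hzy⟩
    refine hcon ⟨g, hg, ?_⟩
    rw [Set.Finite.mem_toFinset]
    simp only [mem_iUnion]
    refine ⟨z, hz, hA.map_lattice g hg y hyL, hA.map_cone g hg y (interior_subset hyN), ?_⟩
    have h1 := hφ0 _ hzy
    rw [map_sub, map_smul, smul_eq_mul] at h1
    rw [le_div_iff₀ hθ0]
    linarith
  -- the key basis of `y`
  have hyy : ∀ c : ℝ, c ≤ 1 → y - c • y ∈ N := fun c hc => by
    have e1 : y - c • y = (1 - c) • y := by rw [sub_smul, one_smul]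
    rw [e1]
    exact PointedCone.smul_mem _ (sub_nonneg.2 hc) (interior_subset hyN)
  obtain ⟨b, hb⟩ := exists_nice hCo hZ hε hη hη1' hyL hyN hty (by
    intro h1
    apply hlow
    have h2 := h1.mono hA.map_cone (by positivity) (hyy (κ' * (ε / 4)) (by nlinarith))
    have e1 : η * κ * (κ' * (ε / 4)) = θ := by
      rw [hθ]
      ring
    rwa [← hD, ← hκ, e1] at h2)
  set s : V := ∑ k, b k with hs
  have hsN : s ∈ interior (N : Set V) := by
    have h1 := interior_add_mem (interior_smul_mem hyN hκ0) hb.ge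
    rwa [add_sub_cancel] at h1
  have hlarge : ∀ q ∈ L, (∀ i, ε / 4 ≤ b.repr q i ∧ b.repr q i ≤ 2) → ∀ i, ε / 2 < b.repr q i := by
    intro q hqL hq
    have hqs : q - (ε / 4) • s ∈ N := by
      refine mem_of_coord hb.memN fun j => ?_
      rw [map_sub, map_smul, Finsupp.sub_apply, Finsupp.smul_apply, hs, repr_sum, smul_eq_mul,
        mul_one]
      linarith [(hq j).1]
    have hsq : (2 : ℝ) • s - q ∈ N := by
      refine mem_of_coord hb.memN fun j => ?_
      rw [map_sub, map_smul, Finsupp.sub_apply, Finsupp.smul_apply, hs, repr_sum, smul_eq_mul,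
        mul_one]
      linarith [(hq j).2]
    have hqy : q - (ε / 4 * κ) • y ∈ N := by
      have e1 : q - (ε / 4 * κ) • y = (q - (ε / 4) • s) + (ε / 4) • (s - κ • y) := by
        rw [smul_sub, smul_smul]
        abel
      rw [e1]
      exact N.add_mem hqs (PointedCone.smul_mem _ (by positivity) hb.ge)
    have hy' : (ε / 4 * κ) • y ∈ interior (N : Set V) := interior_smul_mem hyN (by positivity)
    have hqN : q ∈ interior (N : Set V) := by
      have h1 := interior_add_mem hy' hqy
      rwa [add_sub_cancel] at h1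
    have htq : Tight L N M (ε / 2) q := by
      intro v hvL hvN hv0 hv
      refine hty v hvL hvN hv0 ?_
      have e1 : ε • y - v = ((ε / 2) • q - v) + ((ε / 2) • ((2 : ℝ) • s - q) + ε • (y - s)) := by
        rw [smul_sub (ε / 2), smul_smul, smul_sub ε, div_mul_cancel₀ _ (two_ne_zero)]
        abel
      rw [e1]
      exact N.add_mem hv (N.add_mem (PointedCone.smul_mem _ (by positivity) hsq)
        (PointedCone.smul_mem _ hε.le hb.le))
    obtain ⟨b', hb'⟩ := exists_nice hCo hZ (by positivity : 0 < ε / 2) hη hη1' hqL hqN htq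
      (fun h1 => hlow (h1.mono hA.map_cone (by positivity) hqy))
    exact coord_large hn0 hε hε1 hη hη1 hκ'0 hη2 hty hb hq hb'
  have hgap : ∀ v ∈ L, ∀ i, 0 < b.repr v i → ε / 4 ≤ b.repr v i := fun v hv i hvi =>
    no_small hb.memL hε hε1 hlarge hv i hvi
  -- all the points `s - b i` are on the boundary
  have hbdry : ∀ i, s - b i ∉ interior (N : Set V) := by
    intro i hi
    obtain ⟨g, hg, hgz⟩ := hb.orb i hi
    have hgN : g (s - b i) ∈ interior (N : Set V) := interior_map_mem (hA.map_cone g hg) hi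
    have hginv : ∀ u : V, g⁻¹ (g u) = u := fun u => g.symm_apply_apply u
    have hmapN : ∀ u ∈ N, g⁻¹ u ∈ N := hA.map_cone g⁻¹ (Γ.inv_mem hg)
    have hmapL : ∀ u ∈ L, g⁻¹ u ∈ L := hA.map_lattice g⁻¹ (Γ.inv_mem hg)
    have hzero : ∀ k, b.repr (g⁻¹ (e k)) i = 0 := by
      intro k
      obtain ⟨h1, h2⟩ := hlamZ _ hgz hgN k
      have h1' := hmapN _ h1
      have h2' := hmapN _ h2
      rw [map_sub, map_smul, hginv] at h1'
      rw [map_add, map_smul, hginv] at h2'
      have hwL : g⁻¹ (e k) ∈ L := hmapL _ (heL k)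
      set w : V := g⁻¹ (e k) with hw
      have hcoord : ∀ j, b.repr (lam • (s - b i)) j = if j = i then 0 else lam := by
        intro j
        rw [map_smul, map_sub, Finsupp.smul_apply, Finsupp.sub_apply, hs, repr_sum,
          Module.Basis.repr_self, smul_eq_mul]
        by_cases hj : j = i
        · rw [if_pos hj, hj, Finsupp.single_eq_same]
          ring
        · rw [if_neg hj, Finsupp.single_eq_of_ne hj]
          ring
      have hsum : ∀ j, b.repr ((lam • (s - b i) - w) + (lam • (s - b i) + w)) j =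
          if j = i then 0 else 2 * lam := by
        intro j
        rw [map_add, map_sub, map_add, Finsupp.add_apply, Finsupp.sub_apply, Finsupp.add_apply,
          hcoord]
        by_cases hj : j = i
        · rw [if_pos hj, if_pos hj]
          ring
        · rw [if_neg hj, if_neg hj]
          ring
      have h3 := coord_bounds hb.memN hη hη4 hb.sub h1' h2' (lam := 2 * lam) (by positivity)
        (fun j => by
          rw [hsum]
          split_ifs
          · positivity
          · exact le_rfl) i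
      rw [hsum, if_pos rfl, map_sub, Finsupp.sub_apply, hcoord, if_pos rfl] at h3
      have h4 := hgap w hwL i
      have h5 := hgap (-w) (L.neg_mem hwL) i
      rw [map_neg, Finsupp.neg_apply] at h5
      obtain ⟨h6, h7⟩ := h3
      by_contra hne
      rcases lt_or_gt_of_ne hne with h | h
      · have := h5 (by linarith)
        linarith
      · have := h4 h
        linarith
    have hmap : (b.coord i) ∘ₗ (g⁻¹ : V ≃ₗ[ℝ] V).toLinearMap = 0 := by
      refine e.ext fun k => ?_
      rw [LinearMap.comp_apply, LinearMap.zero_apply]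
      exact hzero k
    have h1 := LinearMap.congr_fun hmap (g (b i))
    rw [LinearMap.comp_apply, LinearMap.zero_apply] at h1
    have h2 : (g⁻¹ : V ≃ₗ[ℝ] V).toLinearMap (g (b i)) = b i := hginv (b i)
    rw [h2, Module.Basis.coord_apply, Module.Basis.repr_self, Finsupp.single_eq_same] at h1
    exact one_ne_zero h1
  exact hnp ⟨b, fun i => ⟨hb.memL i, hb.memM i⟩, fun z hz i => coord_nonneg hb.memN hsN hbdry hz i⟩

end Pool.Agent.Lib.Pad47bbS
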