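import Pool.Agent.Lib.Pad47bbS.Defs

/-!
Degree functions: positivity, compactness, and the consequences of a finite cover.
-/

open Set Topology

namespace Pool.Agent.Lib.Pad47bbS

open Pool.Agent.Lib.Pad47bb Pool.Agent.Lib.Pad47bbV Pool.Agent.Lib.Pad47bbQ

variable {V : Type*} [NormedAddCommGroup V] [NormedSpace ℝ V] [FiniteDimensional ℝ V]
  {L : Submodule ℤ V} [DiscreteTopology L] [IsZLattice ℝ L]

omit [FiniteDimensional ℝ V] in
theorem IsDegree.pos [Nontrivial V] {N : PointedCone ℝ V} (hN : Good N)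
    {Γ : Subgroup (V ≃ₗ[ℝ] V)} {d : ℕ} {f : V → ℝ} (hf : IsDegree N Γ d f) {x : V}
    (hx : x ∈ interior (N : Set V)) : 0 < f x := by
  by_contra h
  push Not at h
  obtain ⟨R, hR⟩ := hf.proper x hx 0
  have hx0 : 0 < ‖x‖ := norm_pos_iff.2 (ne_zero_of_interior hN hx)
  set t : ℝ := (|R| + 1) / ‖x‖ + 1 with ht
  have ht0 : 0 < t := by positivity
  have h1 : t • x - x ∈ N := by
    have e : t • x - x = ((|R| + 1) / ‖x‖) • x := by
      rw [ht, add_smul, one_smul, add_sub_cancel_right]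
    rw [e]
    exact PointedCone.smul_mem _ (by positivity) (interior_subset hx)
  have h2 := hR (t • x) h1 (by
    rw [hf.hom x hx t ht0]
    exact mul_nonpos_of_nonneg_of_nonpos (by positivity) h)
  rw [norm_smul, Real.norm_of_nonneg ht0.le, ht, add_mul, div_mul_cancel₀ _ hx0.ne'] at h2
  have := le_abs_self R
  linarith

omit [IsZLattice ℝ L] [DiscreteTopology L] in
theorem exists_compact {N : PointedCone ℝ V} (hN : Good N)
    {Γ : Subgroup (V ≃ₗ[ℝ] V)} (hA : Acts L N Γ) {d : ℕ} {f : V → ℝ} (hf : IsDegree N Γ d f)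
    (hfin : FinOrbits L N Γ f) (c : ℝ) :
    ∃ Q : Set V, IsCompact Q ∧ Q ⊆ interior (N : Set V) ∧
      ∀ x, ∀ y ∈ L, y ∈ interior (N : Set V) → x - y ∈ N → f x ≤ c → ∃ g ∈ Γ, g x ∈ Q := by
  classical
  obtain ⟨Z, hZ⟩ := hfin c
  have hR : ∀ z : V, ∃ R : ℝ, z ∈ interior (N : Set V) → ∀ x, x - z ∈ N → f x ≤ c → ‖x‖ ≤ R := by
    intro z
    by_cases hz : z ∈ interior (N : Set V)
    · obtain ⟨R, hR⟩ := hf.proper z hz c
      exact ⟨R, fun _ => hR⟩
    · exact ⟨0, fun h => absurd h hz⟩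
  choose R hR using hR
  refine ⟨⋃ z ∈ Z.filter (fun z => z ∈ interior (N : Set V)), {w : V | w - z ∈ N ∧ ‖w‖ ≤ R z},
    ?_, ?_, ?_⟩
  · refine Finset.isCompact_biUnion _ fun z _ => ?_
    apply Metric.isCompact_of_isClosed_isBounded
    · have h1 : IsClosed {w : V | w - z ∈ N} := hN.closed.preimage (continuous_id.sub continuous_const)
      have h2 : IsClosed {w : V | ‖w‖ ≤ R z} := isClosed_le continuous_norm continuous_const
      exact h1.inter h2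
    · rw [Metric.isBounded_iff_subset_closedBall 0]
      refine ⟨R z, ?_⟩
      rintro w ⟨-, hw⟩
      rwa [mem_closedBall_zero_iff]
  · intro w hw
    simp only [mem_iUnion] at hw
    obtain ⟨z, hz, hw1, -⟩ := hw
    have h1 := interior_add_mem (Finset.mem_filter.1 hz).2 hw1
    rwa [add_sub_cancel] at h1
  · intro x y hyL hyN hxy hxc
    have hxN : x ∈ interior (N : Set V) := by
      have h1 := interior_add_mem hyN hxy
      rwa [add_sub_cancel] at h1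
    have hyc : f y ≤ c := (hf.mono y hyN x hxN hxy).trans hxc
    obtain ⟨g, hg, hgy⟩ := hZ y hyL hyN hyc
    refine ⟨g, hg, ?_⟩
    have hgyN : g y ∈ interior (N : Set V) := interior_map_mem (hA.map_cone g hg) hyN
    have h1 : g x - g y ∈ N := by
      rw [← map_sub]
      exact hA.map_cone g hg _ hxy
    simp only [mem_iUnion]
    refine ⟨g y, Finset.mem_filter.2 ⟨hgy, hgyN⟩, h1, ?_⟩
    exact hR (g y) hgyN (g x) h1 (by rw [hf.inv g hg x hxN]; exact hxc)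

omit [IsZLattice ℝ L] [DiscreteTopology L] in
theorem cocompactM_of_dominates {N M : PointedCone ℝ V} (hN : Good N)
    {Γ : Subgroup (V ≃ₗ[ℝ] V)} (hA : Acts L N Γ) {d : ℕ} {f : V → ℝ} (hf : IsDegree N Γ d f)
    (hfin : FinOrbits L N Γ f) (hdom : Dominates L N M f) : CocompactM L N M Γ := by
  obtain ⟨C, hC⟩ := hdom
  intro ε hε
  obtain ⟨Q, hQ, hQN, hQx⟩ := exists_compact hN hA hf hfin ((ε ^ d)⁻¹ * C)
  refine ⟨Q, hQ, hQN, ?_⟩
  rintro x hx ⟨y, hyL, hyN, T, hT, hTy, hthick⟩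
  have hTx : T • x ∈ interior (N : Set V) := interior_smul_mem hx hT
  have h1 : f ((ε * T) • x) < C := by
    by_contra hcon
    push Not at hcon
    obtain ⟨v, hvL, hvN, hv0, hv⟩ := hC _ (interior_smul_mem hx (mul_pos hε hT)) hcon
    exact hthick v hvL hvN hv0 hv
  rw [mul_smul, hf.hom _ hTx ε hε] at h1
  have hεd : 0 < ε ^ d := by positivity
  have h2 : f (T • x) ≤ (ε ^ d)⁻¹ * C := by
    rw [inv_mul_eq_div, le_div_iff₀ hεd, mul_comm]
    exact h1.le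
  obtain ⟨g, hg, hgx⟩ := hQx (T • x) y hyL hyN hTy h2
  refine ⟨g, hg, T, hT, ?_⟩
  rwa [map_smul] at hgx

omit [IsZLattice ℝ L] [DiscreteTopology L] in
theorem large_of_cover {N : PointedCone ℝ V} (hN : Good N)
    {Γ : Subgroup (V ≃ₗ[ℝ] V)} (hA : Acts L N Γ) {d : ℕ} {f : V → ℝ} (hf : IsDegree N Γ d f)
    (F : Finset V) (hF : ∀ a ∈ F, a ∈ L ∧ a ∈ N)
    (hcov : ∀ x ∈ interior (N : Set V), ∃ g ∈ Γ, g x ∈ PointedCone.hull ℝ (F : Set V))
    {K : ℝ} (hK : 0 < K) :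
    ∃ C : ℝ, ∀ x ∈ interior (N : Set V), C ≤ f x →
      ∃ v ∈ L, v ∈ N ∧ v ≠ 0 ∧ x - K • v ∈ N := by
  classical
  obtain ⟨u₀, hu₀⟩ := hN.interior_nonempty
  have hsum : K • ∑ a ∈ F, a ∈ N :=
    PointedCone.smul_mem _ hK.le (Submodule.sum_mem _ fun a ha => (hF a ha).2)
  have hw : u₀ + K • ∑ a ∈ F, a ∈ interior (N : Set V) := interior_add_mem hu₀ hsum
  refine ⟨f (u₀ + K • ∑ a ∈ F, a) + 1, fun x hx hCx => ?_⟩
  obtain ⟨g, hg, hgx⟩ := hcov x hx
  have hgxN : g x ∈ interior (N : Set V) := interior_map_mem (hA.map_cone g hg) hx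
  obtain ⟨c, hc, hceq⟩ := mem_hull_finset.1 hgx
  obtain ⟨a, ha, ha0, hca⟩ : ∃ a ∈ F, a ≠ 0 ∧ K ≤ c a := by
    by_contra hcon
    push Not at hcon
    have h1 : u₀ + K • ∑ a ∈ F, a - g x ∈ N := by
      have e : u₀ + K • ∑ a ∈ F, a - g x = u₀ + ∑ a ∈ F, (K - c a) • a := by
        rw [hceq, Finset.smul_sum, add_sub_assoc, ← Finset.sum_sub_distrib]
        simp only [sub_smul]
      rw [e]
      refine N.add_mem (interior_subset hu₀) (Submodule.sum_mem _ fun a ha => ?_)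
      by_cases ha0 : a = 0
      · rw [ha0, smul_zero]
        exact N.zero_mem
      · exact PointedCone.smul_mem _ (by have := hcon a ha ha0; linarith) (hF a ha).2
    have h2 := hf.mono _ hgxN _ hw h1
    rw [hf.inv g hg x hx] at h2
    linarith
  have h3 : g x - K • a ∈ N := by
    have := sub_smul_mem (fun a ha => (hF a ha).2) hc ha hca
    rwa [← hceq] at this
  have hgN : ∀ u ∈ N, g⁻¹ u ∈ N := hA.map_cone g⁻¹ (Γ.inv_mem hg)
  have hgL : ∀ u ∈ L, g⁻¹ u ∈ L := hA.map_lattice g⁻¹ (Γ.inv_mem hg)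
  have hginv : ∀ u : V, g⁻¹ (g u) = u := fun u => g.symm_apply_apply u
  refine ⟨g⁻¹ a, hgL a (hF a ha).1, hgN a (hF a ha).2, ?_, ?_⟩
  · intro h4
    apply ha0
    have h5 := congrArg g h4
    rw [map_zero] at h5
    have h6 : g (g⁻¹ a) = a := g.apply_symm_apply a
    rwa [h6] at h5
  · have h4 := hgN _ h3
    rwa [map_sub, map_smul, hginv] at h4

omit [IsZLattice ℝ L] [DiscreteTopology L] in
theorem dominates_of_cover {N : PointedCone ℝ V} (hN : Good N)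
    {Γ : Subgroup (V ≃ₗ[ℝ] V)} (hA : Acts L N Γ) {d : ℕ} {f : V → ℝ} (hf : IsDegree N Γ d f)
    (F : Finset V) (hF : ∀ a ∈ F, a ∈ L ∧ a ∈ N)
    (hcov : ∀ x ∈ interior (N : Set V), ∃ g ∈ Γ, g x ∈ PointedCone.hull ℝ (F : Set V)) :
    Dominates L N N f := by
  obtain ⟨C, hC⟩ := large_of_cover hN hA hf F hF hcov one_pos
  refine ⟨C, fun x hx hCx => ?_⟩
  obtain ⟨v, h1, h2, h3, h4⟩ := hC x hx hCx
  rw [one_smul] at h4
  exact ⟨v, h1, h2, h3, h4⟩

omit [IsZLattice ℝ L] [DiscreteTopology L] [FiniteDimensional ℝ V] in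
theorem IsSum.mono {N M : PointedCone ℝ V} (h : ∀ v ∈ L, v ∈ N → v ∈ M) {m : ℕ} {y : V}
    (hy : IsSum L N m y) : IsSum L M m y := by
  obtain ⟨u, hu, huy⟩ := hy
  exact ⟨u, fun i => ⟨(hu i).1, h _ (hu i).1 (hu i).2.1, (hu i).2.2⟩, huy⟩

omit [IsZLattice ℝ L] [DiscreteTopology L] [FiniteDimensional ℝ V] in
theorem isSum_of_sub_mem {N : PointedCone ℝ V} (hN : Good N) {m : ℕ} (hm : 0 < m) {y v : V}
    (hyL : y ∈ L) (hvL : v ∈ L) (hvN : v ∈ N) (hv0 : v ≠ 0) (hv : y - (m : ℝ) • v ∈ N) :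
    IsSum L N m y := by
  obtain ⟨k, rfl⟩ : ∃ k, m = k + 1 := ⟨m - 1, by omega⟩
  rw [Nat.cast_add, Nat.cast_one] at hv
  refine ⟨Fin.cons (y - (k : ℝ) • v) (fun _ => v), ?_, ?_⟩
  · have e : y - (k : ℝ) • v = (y - ((k : ℝ) + 1) • v) + v := by
      rw [add_smul, one_smul]
      abel
    have h1 : y - (k : ℝ) • v ∈ N := by
      rw [e]
      exact N.add_mem hv hvN
    intro i
    refine Fin.cases ?_ (fun j => ?_) i
    · rw [Fin.cons_zero]
      refine ⟨?_, h1, ?_⟩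
      · rw [Nat.cast_smul_eq_nsmul]
        exact L.sub_mem hyL (L.toAddSubgroup.nsmul_mem hvL k)
      · intro h2
        rw [e] at h2
        have h3 : y - ((k : ℝ) + 1) • v = -v := eq_neg_of_add_eq_zero_left h2
        rw [h3] at hv
        exact hv0 (hN.salient v hvN hv)
    · rw [Fin.cons_succ]
      exact ⟨hvL, hvN, hv0⟩
  · rw [Fin.sum_univ_succ, Fin.cons_zero]
    simp only [Fin.cons_succ, Finset.sum_const, Finset.card_univ, Fintype.card_fin]
    rw [Nat.cast_smul_eq_nsmul]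
    abel

omit [IsZLattice ℝ L] [DiscreteTopology L] in
theorem splits_of_cover {N : PointedCone ℝ V} (hN : Good N)
    {Γ : Subgroup (V ≃ₗ[ℝ] V)} (hA : Acts L N Γ) {d : ℕ} {f : V → ℝ} (hf : IsDegree N Γ d f)
    (F : Finset V) (hF : ∀ a ∈ F, a ∈ L ∧ a ∈ N)
    (hcov : ∀ x ∈ interior (N : Set V), ∃ g ∈ Γ, g x ∈ PointedCone.hull ℝ (F : Set V))
    {m : ℕ} (hm : 0 < m) : Splits L N f (interior (N : Set V)) m := by
  obtain ⟨C, hC⟩ := large_of_cover hN hA hf F hF hcov (K := (m : ℝ)) (by positivity)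
  refine ⟨C, fun y hyL hyN hCy => ?_⟩
  obtain ⟨v, hvL, hvN, hv0, hv⟩ := hC y hyN hCy
  exact isSum_of_sub_mem hN hm hyL hvL hvN hv0 hv

omit [IsZLattice ℝ L] in
theorem almostSplits_of_cover {N : PointedCone ℝ V} (hN : Good N)
    {Γ : Subgroup (V ≃ₗ[ℝ] V)} (hA : Acts L N Γ) (F : Finset V) (hF : ∀ a ∈ F, a ∈ L ∧ a ∈ N)
    {A : Set V} (hAN : A ⊆ N) (hcov : ∀ x ∈ L, x ∈ A → ∃ g ∈ Γ, g x ∈ PointedCone.hull ℝ (F : Set V))
    {m : ℕ} (hm : 0 < m) : AlmostSplits L N Γ A m := by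
  classical
  obtain ⟨φ, -, hφ⟩ := exists_form (L := L) hN
  have hφ0 : ∀ x ∈ N, 0 ≤ φ x := by
    intro x hx
    by_cases h : x = 0
    · rw [h, map_zero]
    · exact (hφ x hx h).le
  have hfin : {w : V | w ∈ L ∧ w ∈ N ∧ φ w ≤ ∑ a ∈ F, m * φ a}.Finite := finite_form_le hN hφ _
  refine ⟨hfin.toFinset, fun y hyL hyA => ?_⟩
  obtain ⟨g, hg, hgy⟩ := hcov y hyL hyA
  obtain ⟨c, hc, hceq⟩ := mem_hull_finset.1 hgy
  by_cases hbig : ∃ a ∈ F, a ≠ 0 ∧ (m : ℝ) ≤ c a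
  · left
    obtain ⟨a, ha, ha0, hca⟩ := hbig
    have h3 : g y - (m : ℝ) • a ∈ N := by
      have := sub_smul_mem (fun a ha => (hF a ha).2) hc ha hca
      rwa [← hceq] at this
    have hgN : ∀ u ∈ N, g⁻¹ u ∈ N := hA.map_cone g⁻¹ (Γ.inv_mem hg)
    have hgL : ∀ u ∈ L, g⁻¹ u ∈ L := hA.map_lattice g⁻¹ (Γ.inv_mem hg)
    have hginv : ∀ u : V, g⁻¹ (g u) = u := fun u => g.symm_apply_apply u
    have h4 := hgN _ h3
    rw [map_sub, map_smul, hginv] at h4
    refine isSum_of_sub_mem hN hm hyL (hgL a (hF a ha).1) (hgN a (hF a ha).2) ?_ h4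
    intro h4
    apply ha0
    have h5 := congrArg g h4
    rw [map_zero] at h5
    have h6 : g (g⁻¹ a) = a := g.apply_symm_apply a
    rwa [h6] at h5
  · right
    push Not at hbig
    refine ⟨g, hg, ?_⟩
    rw [Set.Finite.mem_toFinset]
    refine ⟨hA.map_lattice g hg y hyL, hA.map_cone g hg y (hAN hyA), ?_⟩
    rw [hceq, map_sum]
    refine Finset.sum_le_sum fun a ha => ?_
    rw [map_smul, smul_eq_mul]
    by_cases ha0 : a = 0
    · rw [ha0, map_zero, mul_zero, mul_zero]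
    · exact mul_le_mul_of_nonneg_right (hbig a ha ha0).le (hφ0 a (hF a ha).2)

omit [IsZLattice ℝ L] in
theorem finOrbits_of_cover {N : PointedCone ℝ V} (hN : Good N)
    {Γ : Subgroup (V ≃ₗ[ℝ] V)} (hA : Acts L N Γ) {d : ℕ} {f : V → ℝ} (hf : IsDegree N Γ d f)
    (F : Finset V) (hF : ∀ a ∈ F, a ∈ L ∧ a ∈ N)
    (hcov : ∀ x ∈ interior (N : Set V), ∃ g ∈ Γ, g x ∈ PointedCone.hull ℝ (F : Set V)) :
    FinOrbits L N Γ f := by
  classical
  obtain ⟨φ, -, hφ⟩ := exists_form (L := L) hN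
  have hφ0 : ∀ x ∈ N, 0 ≤ φ x := by
    intro x hx
    by_cases h : x = 0
    · rw [h, map_zero]
    · exact (hφ x hx h).le
  intro c
  have hZ : {z : V | z ∈ L ∧ z ∈ N ∧ φ z ≤ 2 * ∑ a ∈ F, φ a}.Finite := finite_form_le hN hφ _
  have hZ' : {z : V | (z ∈ L ∧ z ∈ N ∧ φ z ≤ 2 * ∑ a ∈ F, φ a) ∧
      z ∈ interior (N : Set V)}.Finite := hZ.subset fun z hz => hz.1
  have hW : ∀ z ∈ {z : V | (z ∈ L ∧ z ∈ N ∧ φ z ≤ 2 * ∑ a ∈ F, φ a) ∧
      z ∈ interior (N : Set V)}, {w : V | w ∈ L ∧ w - z ∈ N ∧ f w ≤ c}.Finite := by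
    rintro z ⟨-, hz⟩
    obtain ⟨R, hR⟩ := hf.proper z hz c
    exact (finite_of_bounded L R).subset fun w hw => ⟨hw.1, hR w hw.2.1 hw.2.2⟩
  refine ⟨(hZ'.biUnion hW).toFinset, fun y hyL hyN hyc => ?_⟩
  obtain ⟨g, hg, hgy⟩ := hcov y hyN
  have hgyN : g y ∈ interior (N : Set V) := interior_map_mem (hA.map_cone g hg) hyN
  obtain ⟨k, hk, hkeq⟩ := mem_hull_finset.1 hgy
  refine ⟨g, hg, ?_⟩
  rw [Set.Finite.mem_toFinset]
  simp only [mem_iUnion]
  set r : V → ℝ := fun a => k a - ((⌊k a⌋₊ - 1 : ℕ) : ℝ) with hr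
  have hr0 : ∀ a ∈ F, 0 ≤ r a ∧ r a ≤ 2 ∧ k a ≤ (1 + (⌊k a⌋₊ : ℝ)) * r a := by
    intro a ha
    have h1 := Nat.floor_le (hk a ha)
    have h2 := Nat.lt_floor_add_one (k a)
    rcases Nat.eq_zero_or_pos ⌊k a⌋₊ with h | h
    · have e : r a = k a := by simp [hr, h]
      rw [h, Nat.cast_zero] at h2
      rw [e, h, Nat.cast_zero]
      have h3 := hk a ha
      exact ⟨h3, by linarith, by linarith⟩
    · have e : r a = k a - (⌊k a⌋₊ : ℝ) + 1 := by
        simp only [hr]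
        rw [Nat.cast_sub h]
        push_cast
        ring
      rw [e]
      refine ⟨by linarith, by linarith, ?_⟩
      nlinarith
  set z : V := ∑ a ∈ F, r a • a with hz
  have hzeq : g y = z + ∑ a ∈ F, (⌊k a⌋₊ - 1 : ℕ) • a := by
    rw [hkeq, hz, ← Finset.sum_add_distrib]
    refine Finset.sum_congr rfl fun a _ => ?_
    simp only [hr]
    rw [sub_smul, Nat.cast_smul_eq_nsmul, sub_add_cancel]
  have hzL : z ∈ L := by
    have h1 : z = g y - ∑ a ∈ F, (⌊k a⌋₊ - 1 : ℕ) • a := by rw [hzeq, add_sub_cancel_right]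
    rw [h1]
    exact L.sub_mem (hA.map_lattice g hg y hyL)
      (Submodule.sum_mem _ fun a ha => L.toAddSubgroup.nsmul_mem (hF a ha).1 _)
  have hzN : z ∈ N := Submodule.sum_mem _ fun a ha =>
    PointedCone.smul_mem _ (hr0 a ha).1 (hF a ha).2
  have hzφ : φ z ≤ 2 * ∑ a ∈ F, φ a := by
    rw [hz, map_sum, Finset.mul_sum]
    refine Finset.sum_le_sum fun a ha => ?_
    rw [map_smul, smul_eq_mul]
    exact mul_le_mul_of_nonneg_right (hr0 a ha).2.1 (hφ0 a (hF a ha).2)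
  have hzint : z ∈ interior (N : Set V) := by
    set K : ℝ := 1 + ∑ a ∈ F, (⌊k a⌋₊ : ℝ) with hK
    have hK0 : 0 < K := by positivity
    have h1 : K • z - g y ∈ N := by
      have e : K • z - g y = ∑ a ∈ F, (K * r a - k a) • a := by
        rw [hkeq, hz, Finset.smul_sum, ← Finset.sum_sub_distrib]
        refine Finset.sum_congr rfl fun a _ => ?_
        rw [sub_smul (K * r a), mul_smul]
      rw [e]
      refine Submodule.sum_mem _ fun a ha => PointedCone.smul_mem _ ?_ (hF a ha).2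
      have h2 : (⌊k a⌋₊ : ℝ) ≤ ∑ a ∈ F, (⌊k a⌋₊ : ℝ) :=
        Finset.single_le_sum (f := fun a => (⌊k a⌋₊ : ℝ)) (fun b _ => by positivity) ha
      obtain ⟨h3, -, h4⟩ := hr0 a ha
      have h5 : (1 + (⌊k a⌋₊ : ℝ)) * r a ≤ K * r a :=
        mul_le_mul_of_nonneg_right (by linarith) h3
      linarith
    have h2 := interior_add_mem hgyN h1
    rw [add_sub_cancel] at h2
    have h3 := interior_smul_mem h2 (inv_pos.2 hK0)
    rwa [smul_smul, inv_mul_cancel₀ hK0.ne', one_smul] at h3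
  refine ⟨z, ⟨⟨hzL, hzN, hzφ⟩, hzint⟩, hA.map_lattice g hg y hyL, ?_, ?_⟩
  · rw [hzeq, add_sub_cancel_left]
    exact Submodule.sum_mem _ fun a ha => N.toAddSubmonoid.nsmul_mem (hF a ha).2 _
  · rw [hf.inv g hg y hyN]
    exact hyc

omit [FiniteDimensional ℝ V] [IsZLattice ℝ L] [DiscreteTopology L] in
theorem isosystolic_iff [Nontrivial V] {N M : PointedCone ℝ V} (hN : Good N)
    {Γ : Subgroup (V ≃ₗ[ℝ] V)} {n : ℕ} {f : V → ℝ} (hf : IsDegree N Γ n f) :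
    Isosystolic L N M n f ↔ Dominates L N M f := by
  have hn : n ≠ 0 := by
    rintro rfl
    obtain ⟨y, hy⟩ := hN.interior_nonempty
    obtain ⟨R, hR⟩ := hf.proper y hy (f y)
    have hy0 : 0 < ‖y‖ := norm_pos_iff.2 (ne_zero_of_interior hN hy)
    set t : ℝ := (|R| + 1) / ‖y‖ + 1 with ht
    have ht0 : 0 < t := by positivity
    have h1 : t • y - y ∈ N := by
      have e : t • y - y = ((|R| + 1) / ‖y‖) • y := by
        rw [ht, add_smul, one_smul, add_sub_cancel_right]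
      rw [e]
      exact PointedCone.smul_mem _ (by positivity) (interior_subset hy)
    have h2 := hR (t • y) h1 (by
      rw [hf.hom y hy t ht0, pow_zero, one_mul])
    rw [norm_smul, Real.norm_of_nonneg ht0.le, ht, add_mul, div_mul_cancel₀ _ hy0.ne'] at h2
    have := le_abs_self R
    linarith
  have hn' : (n : ℝ) ≠ 0 := by exact_mod_cast hn
  have hroot : ∀ a : ℝ, 0 ≤ a → (a ^ (1 / (n : ℝ))) ^ n = a := by
    intro a ha
    rw [← Real.rpow_natCast, ← Real.rpow_mul ha, one_div, inv_mul_cancel₀ hn', Real.rpow_one]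
  constructor
  · rintro ⟨C, hC⟩
    set C₁ : ℝ := max C 1 with hC₁
    have hC₁0 : 0 < C₁ := lt_of_lt_of_le one_pos (le_max_right _ _)
    refine ⟨C₁ ^ n, fun x hx hx1 => ?_⟩
    obtain ⟨v, hvL, hvN, hv0, hv⟩ := hC x hx
    refine ⟨v, hvL, hvN, hv0, ?_⟩
    have hfx := hf.pos hN hx
    set r : ℝ := f x ^ (1 / (n : ℝ)) with hr
    have hr0 : 0 < r := Real.rpow_pos_of_pos hfx _
    have hr1 : C₁ ≤ r := by
      have h1 : C₁ ^ n ≤ r ^ n := by rw [hr, hroot _ hfx.le]; exact hx1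
      exact le_of_pow_le_pow_left₀ hn hr0.le h1
    have h2 : C * r⁻¹ ≤ 1 := by
      rw [← div_eq_mul_inv, div_le_one hr0]
      exact (le_max_left _ _).trans hr1
    have e : x - v = ((C * r⁻¹) • x - v) + (1 - C * r⁻¹) • x := by
      rw [sub_smul, one_smul]
      abel
    rw [e]
    exact N.add_mem hv (PointedCone.smul_mem _ (sub_nonneg.2 h2) (interior_subset hx))
  · rintro ⟨C₀, hC₀⟩
    set C₁ : ℝ := max C₀ 1 with hC₁
    have hC₁0 : 0 < C₁ := lt_of_lt_of_le one_pos (le_max_right _ _)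
    refine ⟨C₁ ^ (1 / (n : ℝ)), fun x hx => ?_⟩
    have hfx := hf.pos hN hx
    set r : ℝ := f x ^ (1 / (n : ℝ)) with hr
    have hr0 : 0 < r := Real.rpow_pos_of_pos hfx _
    have hC0 : 0 < C₁ ^ (1 / (n : ℝ)) := Real.rpow_pos_of_pos hC₁0 _
    have ht : 0 < C₁ ^ (1 / (n : ℝ)) * r⁻¹ := by positivity
    refine hC₀ _ (interior_smul_mem hx ht) ?_
    rw [hf.hom x hx _ ht, mul_pow, inv_pow, hr, hroot _ hfx.le, hroot _ hC₁0.le, mul_assoc,
      inv_mul_cancel₀ hfx.ne', mul_one]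
    exact le_max_left _ _

end Pool.Agent.Lib.Pad47bbS
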