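import Pool.Agent.Lib.Pad47bbV.Final

/-!
Splitting of lattice points and rational polyhedral fundamental domains: definitions.

`N` is a closed convex cone in `V` containing no line, with nonempty interior; it orders `V` by
`x ≤ y` iff `y - x ∈ N`.  `M` is a convex cone between the interior of `N` and `N`.  `L` is a lattice
and `Γ` a group of automorphisms of `V` preserving `L`, `N` and `M`.
-/

open Set Topology

namespace Pool.Agent.Lib.Pad47bbS

open Pool.Agent.Lib.Pad47bb Pool.Agent.Lib.Pad47bbV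

variable {V : Type*} [NormedAddCommGroup V] [NormedSpace ℝ V]

/-- The setting: `L` is preserved by the group `Γ`, which preserves the closed cone `N` and the cone
`M`, and `M` lies between the interior of `N` and `N`. -/
structure Cones (L : Submodule ℤ V) (N M : PointedCone ℝ V) (Γ : Subgroup (V ≃ₗ[ℝ] V)) : Prop where
  closed : IsClosed (N : Set V)
  salient : ∀ x ∈ N, -x ∈ N → x = 0
  interior_nonempty : (interior (N : Set V)).Nonempty
  interior_le : interior (N : Set V) ⊆ M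
  le : M ≤ N
  map_lattice : ∀ g ∈ Γ, ∀ x ∈ L, g x ∈ L
  map_closed : ∀ g ∈ Γ, ∀ x ∈ N, g x ∈ N
  map_cone : ∀ g ∈ Γ, ∀ x ∈ M, g x ∈ M

/-- `M` is generated by its lattice points -/
def LatticeGenerated (L : Submodule ℤ V) (M : PointedCone ℝ V) : Prop :=
  M = PointedCone.hull ℝ ((M : Set V) ∩ (L : Set V))

/-- `y` is a sum of `m` nonzero lattice points of `M` -/
def IsSum (L : Submodule ℤ V) (M : PointedCone ℝ V) (m : ℕ) (y : V) : Prop :=
  ∃ u : Fin m → V, (∀ i, u i ∈ L ∧ u i ∈ M ∧ u i ≠ 0) ∧ ∑ i, u i = y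

/-- all but finitely many `Γ`-orbits of lattice points in `A` consist of sums of `m` nonzero lattice
points of `M` -/
def AlmostSplits (L : Submodule ℤ V) (M : PointedCone ℝ V) (Γ : Subgroup (V ≃ₗ[ℝ] V)) (A : Set V)
    (m : ℕ) : Prop :=
  ∃ Z : Finset V, ∀ y ∈ L, y ∈ A → IsSum L M m y ∨ ∃ g ∈ Γ, g y ∈ Z

/-- `f` is a degree function on the interior of `N`: it is `Γ`-invariant, increasing for the order
of `N`, homogeneous of degree `d`, and bounds the points above any given interior point. -/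
structure IsDegree (N : PointedCone ℝ V) (Γ : Subgroup (V ≃ₗ[ℝ] V)) (d : ℕ) (f : V → ℝ) : Prop where
  inv : ∀ g ∈ Γ, ∀ x ∈ interior (N : Set V), f (g x) = f x
  mono : ∀ x ∈ interior (N : Set V), ∀ y ∈ interior (N : Set V), y - x ∈ N → f x ≤ f y
  hom : ∀ x ∈ interior (N : Set V), ∀ t : ℝ, 0 < t → f (t • x) = t ^ d * f x
  proper : ∀ y ∈ interior (N : Set V), ∀ c : ℝ, ∃ R : ℝ, ∀ x, x - y ∈ N → f x ≤ c → ‖x‖ ≤ R

/-- for every `c` the lattice points of degree at most `c` in the interior of `N` lie in finitely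
many `Γ`-orbits -/
def FinOrbits (L : Submodule ℤ V) (N : PointedCone ℝ V) (Γ : Subgroup (V ≃ₗ[ℝ] V)) (f : V → ℝ) :
    Prop :=
  ∀ c : ℝ, ∃ Z : Finset V, ∀ y ∈ L, y ∈ interior (N : Set V) → f y ≤ c → ∃ g ∈ Γ, g y ∈ Z

/-- every lattice point of large degree in `A` is a sum of `m` nonzero lattice points of `M` -/
def Splits (L : Submodule ℤ V) (M : PointedCone ℝ V) (f : V → ℝ) (A : Set V) (m : ℕ) : Prop :=
  ∃ C : ℝ, ∀ y ∈ L, y ∈ A → C ≤ f y → IsSum L M m y

/-- every point of large degree in the interior of `N` is above a nonzero lattice point of `M` -/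
def Dominates (L : Submodule ℤ V) (N M : PointedCone ℝ V) (f : V → ℝ) : Prop :=
  ∃ C : ℝ, ∀ x ∈ interior (N : Set V), C ≤ f x → ∃ v ∈ L, v ∈ M ∧ v ≠ 0 ∧ x - v ∈ N

/-- Isosystolic inequality: for some constant `C`, every `x` in the interior of `N` has a nonzero
lattice point `v` of `M` with `v ≤ C f(x)^(-1/n) x` -/
def Isosystolic (L : Submodule ℤ V) (N M : PointedCone ℝ V) (n : ℕ) (f : V → ℝ) : Prop :=
  ∃ C : ℝ, ∀ x ∈ interior (N : Set V), ∃ v ∈ L, v ∈ M ∧ v ≠ 0 ∧
    (C * (f x ^ (1 / (n : ℝ)))⁻¹) • x - v ∈ N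

/-- the degree function `x ↦ F(x, ..., x)` -/
def deg {n : ℕ} (F : MultilinearMap ℝ (fun _ : Fin n => V) ℝ) (x : V) : ℝ := F fun _ => x

/-- `F` has the positivity properties of the intersection form of nef classes on an
`n`-dimensional variety: it is nonnegative on `N`, its degree function is `Γ`-invariant and positive
on the interior of `N`, and `F(z, ..., z, w) > 0` (`w` in some place) if `F(z, ..., z) > 0`
and `w ≠ 0` -/
structure IsIntersection (N : PointedCone ℝ V) (Γ : Subgroup (V ≃ₗ[ℝ] V)) {n : ℕ}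
    (F : MultilinearMap ℝ (fun _ : Fin n => V) ℝ) : Prop where
  nonneg : ∀ x : Fin n → V, (∀ i, x i ∈ N) → 0 ≤ F x
  inv : ∀ g ∈ Γ, ∀ x ∈ N, deg F (g x) = deg F x
  ample : ∀ x ∈ interior (N : Set V), 0 < deg F x
  big : ∀ z ∈ N, 0 < deg F z → ∀ w ∈ N, w ≠ 0 → ∃ i, 0 < F (Function.update (fun _ => z) i w)

/-- no nonzero lattice point of `M` is at most `ε y` -/
def Tight (L : Submodule ℤ V) (N M : PointedCone ℝ V) (ε : ℝ) (y : V) : Prop :=
  ∀ v ∈ L, v ∈ M → v ≠ 0 → ε • y - v ∉ N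

/-- some lattice point `y` in the interior of `N` is at most `T x`, but no nonzero lattice point of
`M` is at most `ε T x` -/
def ThickM (L : Submodule ℤ V) (N M : PointedCone ℝ V) (ε : ℝ) (x : V) : Prop :=
  ∃ y ∈ L, y ∈ interior (N : Set V) ∧ ∃ T : ℝ, 0 < T ∧ T • x - y ∈ N ∧
    ∀ v ∈ L, v ∈ M → v ≠ 0 → (ε * T) • x - v ∉ N

/-- `Γ` acts cocompactly, modulo scaling, on the thick points -/
def CocompactM (L : Submodule ℤ V) (N M : PointedCone ℝ V) (Γ : Subgroup (V ≃ₗ[ℝ] V)) : Prop :=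
  ∀ ε : ℝ, 0 < ε → ∃ Q : Set V, IsCompact Q ∧ Q ⊆ interior (N : Set V) ∧
    ∀ x ∈ interior (N : Set V), ThickM L N M ε x → ∃ g ∈ Γ, ∃ s : ℝ, 0 < s ∧ s • g x ∈ Q

/-- `c y` is below a translate of a point of `Z` -/
def Low (N : PointedCone ℝ V) (Γ : Subgroup (V ≃ₗ[ℝ] V)) (Z : Finset V) (c : ℝ) (y : V) : Prop :=
  ∃ g ∈ Γ, ∃ z ∈ Z, z - c • g y ∈ N

variable {L : Submodule ℤ V} {N M : PointedCone ℝ V} {Γ : Subgroup (V ≃ₗ[ℝ] V)}

theorem Cones.good (h : Cones L N M Γ) : Good N := ⟨h.closed, h.salient, h.interior_nonempty⟩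

theorem Cones.acts (h : Cones L N M Γ) : Acts L N Γ := ⟨h.map_lattice, h.map_closed⟩

end Pool.Agent.Lib.Pad47bbS
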