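import Pool.Agent.Lib.Pad47bbS.Defs

/-!
Every interior point `y` of `N` has a companion functional `ξ`: `ξ ≥ 0` on `N`, `ξ z • y - z ∈ N` for
`z ∈ N`, and `ξ y` is the dimension.  Hence a decomposition of an `ε`-tight lattice point has a
bounded number of summands.
-/

open Set Topology

namespace Pool.Agent.Lib.Pad47bbS

open Pool.Agent.Lib.Pad47bb Pool.Agent.Lib.Pad47bbV Pool.Agent.Lib.Pad47bbQ

variable {V : Type*} [NormedAddCommGroup V] [NormedSpace ℝ V] [FiniteDimensional ℝ V]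

theorem exists_companion {N : PointedCone ℝ V} (hN : Good N) {y : V}
    (hy : y ∈ interior (N : Set V)) :
    ∃ ξ : V →L[ℝ] ℝ, ξ y = Module.finrank ℝ (V →L[ℝ] ℝ) ∧
      ∀ z ∈ N, 0 ≤ ξ z ∧ ξ z • y - z ∈ N := by
  classical
  have hcl : closure (N : Set V) = N := hN.closed.closure_eq
  obtain ⟨r, hr, hball⟩ := Metric.nhds_basis_closedBall.mem_iff.1 (mem_interior_iff_mem_nhds.1 hy)
  -- functionals nonnegative on `N` are bounded by their value at `y`
  have hbd : ∀ φ : V →L[ℝ] ℝ, (∀ z ∈ N, 0 ≤ φ z) → ∀ v, |φ v| ≤ φ y / r * ‖v‖ := by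
    intro φ hφ v
    have hφy := hφ y (interior_subset hy)
    by_cases hv : v = 0
    · simp [hv]
    · have hvn : 0 < ‖v‖ := norm_pos_iff.2 hv
      set w : V := (r / ‖v‖) • v with hw
      have hwn : ‖w‖ ≤ r := by
        rw [hw, norm_smul, Real.norm_of_nonneg (by positivity)]
        apply le_of_eq
        field_simp
      have h1 : y + w ∈ N := hball (by
        rw [Metric.mem_closedBall, dist_eq_norm]
        simpa using hwn)
      have h2 : y - w ∈ N := hball (by
        rw [Metric.mem_closedBall, dist_eq_norm]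
        simpa using hwn)
      have h3 := hφ _ h1
      have h4 := hφ _ h2
      rw [map_add] at h3
      rw [map_sub] at h4
      have h5 : |φ w| ≤ φ y := by
        rw [abs_le]
        constructor <;> linarith
      rw [hw, map_smul, smul_eq_mul, abs_mul, abs_of_pos (by positivity : 0 < r / ‖v‖)] at h5
      rw [div_mul_eq_mul_div, le_div_iff₀ hr]
      rw [div_mul_eq_mul_div, div_le_iff₀ hvn] at h5
      linarith
  set S : Set (V →L[ℝ] ℝ) := {φ | (∀ z ∈ N, 0 ≤ φ z) ∧ φ y = 1} with hS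
  have : ProperSpace (V →L[ℝ] ℝ) := FiniteDimensional.proper ℝ _
  have hScomp : IsCompact S := by
    apply Metric.isCompact_of_isClosed_isBounded
    · have h1 : S = (⋂ z ∈ (N : Set V), {φ : V →L[ℝ] ℝ | 0 ≤ φ z}) ∩ {φ | φ y = 1} := by
        ext φ
        simp only [hS, mem_ofPred_eq, mem_inter_iff, mem_iInter, SetLike.mem_coe]
      rw [h1]
      refine (isClosed_biInter fun z _ => ?_).inter ?_
      · exact isClosed_le continuous_const (ContinuousLinearMap.apply ℝ ℝ z).continuous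
      · exact isClosed_eq (ContinuousLinearMap.apply ℝ ℝ y).continuous continuous_const
    · rw [Metric.isBounded_iff_subset_closedBall 0]
      refine ⟨1 / r, ?_⟩
      rintro φ ⟨hφ, hφy⟩
      rw [mem_closedBall_zero_iff]
      refine ContinuousLinearMap.opNorm_le_bound _ (by positivity) fun v => ?_
      have := hbd φ hφ v
      rwa [hφy] at this
  have hscale : ∀ φ : V →L[ℝ] ℝ, (∀ z ∈ N, 0 ≤ φ z) → 0 < φ y → (φ y)⁻¹ • φ ∈ S := by
    intro φ hφ hφy
    refine ⟨fun z hz => ?_, ?_⟩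
    · rw [_root_.smul_apply, smul_eq_mul]
      exact mul_nonneg (inv_nonneg.2 hφy.le) (hφ z hz)
    · rw [_root_.smul_apply, smul_eq_mul, inv_mul_cancel₀ hφy.ne']
  have hmemspan : ∀ φ : V →L[ℝ] ℝ, (∀ z ∈ N, 0 ≤ φ z) → φ ∈ Submodule.span ℝ S := by
    intro φ hφ
    have hφy := hφ y (interior_subset hy)
    rcases hφy.eq_or_lt with h | h
    · have h1 : φ = 0 := by
        ext v
        have := hbd φ hφ v
        rw [← h, zero_div, zero_mul] at this
        simpa using abs_nonpos_iff.1 this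
      rw [h1]
      exact Submodule.zero_mem _
    · have h1 : φ = φ y • ((φ y)⁻¹ • φ) := by
        rw [smul_smul, mul_inv_cancel₀ h.ne', one_smul]
      rw [h1]
      exact Submodule.smul_mem _ _ (Submodule.subset_span (hscale φ hφ h))
  have hspan : Submodule.span ℝ S = ⊤ := by
    obtain ⟨φ₀, hφ₀⟩ := exists_pos N (by
      rw [hcl]
      exact fun x hx hx' => hN.salient x hx hx')
    obtain ⟨c, hc, hcb⟩ := exists_bound N φ₀ hφ₀
    rw [hcl] at hφ₀ hcb
    have hφ₀' : ∀ z ∈ N, 0 ≤ φ₀ z := fun z hz => le_trans (by positivity) (hcb z hz)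
    rw [eq_top_iff]
    rintro ψ -
    have ht : 0 < c / (‖ψ‖ + 1) := by positivity
    have h1 : ∀ z ∈ N, 0 ≤ (φ₀ + (c / (‖ψ‖ + 1)) • ψ) z := by
      intro z hz
      rw [_root_.add_apply, _root_.smul_apply, smul_eq_mul]
      have h2 : |ψ z| ≤ ‖ψ‖ * ‖z‖ := by
        rw [← Real.norm_eq_abs]
        exact ψ.le_opNorm z
      have h3 := hcb z hz
      have h4 : c / (‖ψ‖ + 1) * |ψ z| ≤ c * ‖z‖ := by
        rw [div_mul_eq_mul_div, div_le_iff₀ (by positivity)]
        have : |ψ z| ≤ ‖z‖ * (‖ψ‖ + 1) := by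
          have := norm_nonneg z
          nlinarith
        nlinarith
      have h5 := neg_abs_le (ψ z)
      nlinarith
    have h2 := Submodule.sub_mem _ (hmemspan _ h1) (hmemspan _ hφ₀')
    rw [add_sub_cancel_left] at h2
    have h3 := Submodule.smul_mem _ (c / (‖ψ‖ + 1))⁻¹ h2
    rwa [smul_smul, inv_mul_cancel₀ ht.ne', one_smul] at h3
  obtain ⟨b, hbS, hb⟩ := exists_auerbach hScomp hspan
  have hsum : ∀ z, (∑ i, b i) z = ∑ i, b i z := fun z => by
    rw [_root_.sum_apply]
  refine ⟨∑ i, b i, ?_, fun z hz => ⟨?_, ?_⟩⟩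
  · rw [hsum, Finset.sum_congr rfl fun i _ => (hbS i).2]
    simp
  · rw [hsum]
    exact Finset.sum_nonneg fun i _ => (hbS i).1 z hz
  · by_contra hnot
    let C : ProperCone ℝ V := ⟨N, hN.closed⟩
    have hnot' : (∑ i, b i) z • y - z ∉ C := hnot
    obtain ⟨φ, hφ, hφx⟩ := C.hyperplane_separation_point hnot'
    have hφ' : ∀ z ∈ N, 0 ≤ φ z := fun z hz => hφ z hz
    have hφy := hφ' y (interior_subset hy)
    rcases hφy.eq_or_lt with h | h
    · have := hbd φ hφ' ((∑ i, b i) z • y - z)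
      rw [← h, zero_div, zero_mul, abs_nonpos_iff] at this
      linarith
    · have h1 := hscale φ hφ' h
      have h2 : (φ y)⁻¹ * φ z ≤ (∑ i, b i) z := by
        have e : ((φ y)⁻¹ • φ) z = ∑ i, b.repr ((φ y)⁻¹ • φ) i * b i z := by
          conv_lhs => rw [← b.sum_repr ((φ y)⁻¹ • φ)]
          rw [_root_.sum_apply]
          rfl
        have e2 : (φ y)⁻¹ * φ z = ((φ y)⁻¹ • φ) z := rfl
        rw [e2, e, hsum]
        refine Finset.sum_le_sum fun i _ => ?_
        have h3 := (le_abs_self _).trans (hb _ h1 i)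
        have h4 := (hbS i).1 z hz
        nlinarith
      rw [map_sub, map_smul, smul_eq_mul] at hφx
      rw [inv_mul_eq_div, div_le_iff₀ h] at h2
      linarith

theorem isSum_bound {L : Submodule ℤ V} {N M : PointedCone ℝ V} (hN : Good N) (hM : M ≤ N) {y : V}
    (hy : y ∈ interior (N : Set V)) {ε : ℝ} (ht : Tight L N M ε y) {m : ℕ}
    (hm : IsSum L M m y) : (m : ℝ) * ε ≤ Module.finrank ℝ (V →L[ℝ] ℝ) := by
  obtain ⟨ξ, hξy, hξ⟩ := exists_companion hN hy
  obtain ⟨u, hu, rfl⟩ := hm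
  rw [← hξy, map_sum]
  have h1 : ∀ i, ε ≤ ξ (u i) := by
    intro i
    by_contra hcon
    push Not at hcon
    obtain ⟨h2, h3, h4⟩ := hu i
    refine ht (u i) h2 h3 h4 ?_
    have e : ε • ∑ i, u i - u i = (ε - ξ (u i)) • ∑ i, u i + (ξ (u i) • ∑ i, u i - u i) := by
      rw [sub_smul]
      abel
    rw [e]
    exact N.add_mem (PointedCone.smul_mem _ (by linarith) (interior_subset hy)) (hξ _ (hM h3)).2
  calc (m : ℝ) * ε = ∑ _i : Fin m, ε := by simp
    _ ≤ ∑ i, ξ (u i) := Finset.sum_le_sum fun i _ => h1 i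

end Pool.Agent.Lib.Pad47bbS
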