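import Pool.Agent.Lib.Pad47bbS.Defs

/-!
The polyhedral cover for a cone `M` between the interior of `N` and `N`: if `Γ` is cocompact on the
thick points (defined with the lattice points of `M`), finitely many lattice points of `M` generate
a cone whose translates cover the interior of `N`.  The proofs are those of `Pad47bbV` (Transfer,
Boundary, Duality, Cover) with forms that are at least `1` at the nonzero lattice points of `M`.
-/

open Set Topology

namespace Pool.Agent.Lib.Pad47bbS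

open Pool.Agent.Lib.Pad47bb Pool.Agent.Lib.Pad47bbV Pool.Agent.Lib.Pad47bbQ

variable {V : Type*} [NormedAddCommGroup V] [NormedSpace ℝ V] [FiniteDimensional ℝ V]
  {L : Submodule ℤ V} [DiscreteTopology L] [IsZLattice ℝ L] {N M : PointedCone ℝ V}
  {Γ : Subgroup (V ≃ₗ[ℝ] V)}

theorem nonneg_of_formM (hC : Cones L N M Γ) {ξ : V →L[ℝ] ℝ} (hξ : IsForm L M ξ) :
    ∀ x ∈ N, 0 ≤ ξ x := by
  have hN := hC.good
  have hint : ∀ q ∈ interior (N : Set V), 0 ≤ ξ q := by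
    intro q hq
    obtain ⟨s, hs1, hs2, hs3⟩ := exists_ratPoly_nhds L isOpen_interior hq
    have hle : PointedCone.hull ℝ (s : Set V) ≤ halfSpace ξ := by
      refine Submodule.span_le.2 ?_
      intro v hv
      obtain ⟨c, hc, hcv⟩ := hs2 v hv
      have hvN : v ∈ M := by
        have h1 := interior_smul_mem hcv (inv_pos.2 hc)
        rw [smul_smul, inv_mul_cancel₀ hc.ne', one_smul] at h1
        exact hC.interior_le h1
      show 0 ≤ ξ v
      by_cases hv0 : v = 0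
      · simp [hv0]
      · have := hξ v (hs1 hv) hvN hv0
        linarith
    exact hle (interior_subset hs3)
  obtain ⟨y₀, hy₀⟩ := hN.interior_nonempty
  intro x hx
  by_contra hcon
  push Not at hcon
  have hy : 0 ≤ ξ y₀ := hint y₀ hy₀
  set t : ℝ := -ξ x / (2 * (ξ y₀ + 1)) with ht
  have ht0 : 0 < t := by
    rw [ht]
    apply div_pos <;> linarith
  have h1 : x + t • y₀ ∈ interior (N : Set V) := by
    have h2 : t • y₀ ∈ interior (N : Set V) := interior_smul' hy₀ ht0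
    have h3 := interior_add h2 hx
    rwa [add_comm] at h3
  have h2 := hint _ h1
  rw [map_add, map_smul, smul_eq_mul] at h2
  have h3 : t * ξ y₀ ≤ -ξ x / 2 := by
    have h4 : t * (ξ y₀ + 1) = -ξ x / 2 := by
      rw [ht]
      have : ξ y₀ + 1 ≠ 0 := by linarith
      field_simp
    nlinarith
  linarith


open TransferAux in
theorem transferM [Nontrivial V] (hC : Cones L N M Γ) (h : CocompactM L N M Γ) {T : ℝ}
    (hT : 0 < T) :
    ∃ c : ℝ, 0 < c ∧ ∃ B₁ : ℝ, 0 < B₁ ∧ ∀ ξ : V →L[ℝ] ℝ, IsForm L M ξ → IsPos N ξ →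
      (∃ y ∈ L, y ∈ interior (N : Set V) ∧ ξ y ≤ T) →
      ∃ g ∈ Γ, (∀ y ∈ N, c * ‖y‖ ≤ ξ (g y)) ∧ ∀ y, |ξ (g y)| ≤ B₁ * ‖y‖ := by
  have hN := hC.good
  have hA := hC.acts
  have hn1 : 0 < Module.finrank ℝ V := Module.finrank_pos
  set n : ℝ := (Module.finrank ℝ V : ℝ) with hn
  have hn0 : 0 < n := by
    rw [hn]
    exact_mod_cast hn1
  set ε : ℝ := 1 / (2 * n * T) with hε
  have hε0 : 0 < ε := by positivity
  obtain ⟨Q, hQ, hQN, hcov⟩ := h ε hε0
  obtain ⟨c, hc, B₁, hM, hcomp⟩ := comp_bounds hN hQ hQN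
  obtain ⟨v₀, hv₀L, hv₀0, hv₀i⟩ := exists_lattice_interior L (C := N) hN.interior_nonempty
  obtain ⟨m, hm, hmin⟩ := Pad47bbV.exists_min_norm (L := L)
  have hnv₀ : 0 < ‖v₀‖ := norm_pos_iff.2 hv₀0
  refine ⟨c / (B₁ * ‖v₀‖), by positivity, B₁ * T / (c * m), by positivity, ?_⟩
  rintro ξ hξ hpos ⟨y₀, hy₀L, hy₀i, hy₀T⟩
  have hy₀N : y₀ ∈ N := interior_subset hy₀i
  have hy₀0 : y₀ ≠ 0 := by
    rintro rfl
    exact zero_notMem_interior hN hy₀i
  have hξy₀ : 0 < ξ y₀ := hpos y₀ hy₀N hy₀0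
  have hξ0 : ∀ y ∈ N, 0 ≤ ξ y := by
    intro y hy
    by_cases hy0 : y = 0
    · simp [hy0]
    · exact (hpos y hy hy0).le
  obtain ⟨x, hxi, hx1, hx2⟩ := exists_comp hN hpos
  have hthick : ThickM L N M ε x := by
    refine ⟨y₀, hy₀L, hy₀i, ξ y₀, hξy₀, hx2 y₀ hy₀N, ?_⟩
    intro v hvL hvN hv0 hmem
    have h1 := hξ0 _ hmem
    rw [map_sub, map_smul, smul_eq_mul, hx1] at h1
    have h2 := hξ v hvL hvN hv0
    have h3 : ε * ξ y₀ * n ≤ 1 / 2 := by
      calc ε * ξ y₀ * n ≤ ε * T * n := by gcongr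
        _ = 1 / 2 := by
          rw [hε]
          field_simp
    linarith
  obtain ⟨g, hg, s, hs, hq⟩ := hcov x hxi hthick
  have hgi : g⁻¹ ∈ Γ := Γ.inv_mem hg
  have hgg : ∀ y, g (g⁻¹ y) = y := fun y => g.apply_symm_apply y
  have hgg' : ∀ y, g⁻¹ (g y) = y := fun y => g.symm_apply_apply y
  set lam : V →L[ℝ] ℝ :=
    s⁻¹ • ξ.comp (LinearMap.toContinuousLinearMap ((g⁻¹ : V ≃ₗ[ℝ] V) : V →ₗ[ℝ] V)) with hlam
  have hlamv : ∀ y, lam y = s⁻¹ * ξ (g⁻¹ y) := by
    intro y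
    rw [hlam]
    simp
  have hsl : ∀ y, ξ (g⁻¹ y) = s * lam y := by
    intro y
    rw [hlamv, ← mul_assoc, mul_inv_cancel₀ hs.ne', one_mul]
  have hCo : Comp N lam (s • g x) := by
    constructor
    · rw [hlamv, map_smul, hgg', map_smul, smul_eq_mul, ← mul_assoc, inv_mul_cancel₀ hs.ne',
        one_mul]
      exact hx1
    · intro y hy
      have h1 : lam y • (s • g x) - y = g (ξ (g⁻¹ y) • x - g⁻¹ y) := by
        rw [map_sub, map_smul, hgg, smul_smul, hlamv]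
        congr 2
        field_simp
      rw [h1]
      exact hA.map_cone g hg _ (hx2 _ (hA.map_cone _ hgi y hy))
  obtain ⟨hlow, hup⟩ := hcomp lam (s • g x) hq hCo
  -- lower bound of `s`
  have hs1 : 1 ≤ s * (B₁ * ‖v₀‖) := by
    have h1 : (1 : ℝ) ≤ ξ (g⁻¹ v₀) := by
      apply hξ
      · exact hA.map_lattice _ hgi _ hv₀L
      · exact hC.map_cone _ hgi _ (hC.interior_le hv₀i)
      · intro h0
        apply hv₀0
        rw [← hgg v₀, h0, map_zero]
    rw [hsl] at h1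
    refine h1.trans ?_
    apply mul_le_mul_of_nonneg_left _ hs.le
    exact (le_abs_self _).trans (hup v₀)
  -- upper bound of `s`
  have hs2 : s * (c * m) ≤ T := by
    have h1 : ξ y₀ = s * lam (g y₀) := by
      rw [← hsl, hgg']
    have h2 : c * ‖g y₀‖ ≤ lam (g y₀) := hlow _ (hA.map_cone g hg _ hy₀N)
    have h3 : m ≤ ‖g y₀‖ := by
      apply hmin _ (hA.map_lattice g hg _ hy₀L)
      intro h0
      apply hy₀0
      rw [← hgg' y₀, h0, map_zero]
    calc s * (c * m) ≤ s * lam (g y₀) := by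
          apply mul_le_mul_of_nonneg_left _ hs.le
          exact (mul_le_mul_of_nonneg_left h3 hc.le).trans h2
      _ = ξ y₀ := h1.symm
      _ ≤ T := hy₀T
  refine ⟨g⁻¹, hgi, ?_, ?_⟩
  · intro y hy
    rw [hsl]
    have h1 := hlow y hy
    have h2 : c / (B₁ * ‖v₀‖) ≤ s * c := by
      rw [div_le_iff₀ (by positivity)]
      nlinarith
    calc c / (B₁ * ‖v₀‖) * ‖y‖ ≤ s * c * ‖y‖ := mul_le_mul_of_nonneg_right h2 (norm_nonneg y)
      _ = s * (c * ‖y‖) := by ring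
      _ ≤ s * lam y := mul_le_mul_of_nonneg_left h1 hs.le
  · intro y
    rw [hsl, abs_mul, abs_of_pos hs]
    have h1 := hup y
    have h2 : s * B₁ ≤ B₁ * T / (c * m) := by
      rw [le_div_iff₀ (by positivity)]
      nlinarith
    calc s * |lam y| ≤ s * (B₁ * ‖y‖) := mul_le_mul_of_nonneg_left h1 hs.le
      _ = s * B₁ * ‖y‖ := by ring
      _ ≤ B₁ * T / (c * m) * ‖y‖ := mul_le_mul_of_nonneg_right h2 (norm_nonneg y)


theorem isPos_of_isFormM [Nontrivial V] (hC : Cones L N M Γ) (h : CocompactM L N M Γ)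
    (ξ : V →L[ℝ] ℝ) (hξ : IsForm L M ξ) : IsPos N ξ := by
  classical
  have hN := hC.good
  have hA := hC.acts
  have hξ0 := nonneg_of_formM hC hξ
  obtain ⟨f, hf, hfpos⟩ := exists_form (L := L) hN
  have hf0 : ∀ x ∈ N, 0 ≤ f x := by
    intro x hx
    by_cases hx0 : x = 0
    · rw [hx0, map_zero]
    · exact (hfpos x hx hx0).le
  obtain ⟨y₀, hy₀L, hy₀0, hy₀i⟩ := exists_lattice_interior L (C := N) hN.interior_nonempty
  have hy₀N : y₀ ∈ N := interior_subset hy₀i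
  set T : ℝ := ξ y₀ + f y₀ + 1 with hT
  have hT0 : 0 < T := by
    have h1 := hξ0 y₀ hy₀N
    have h2 := hf0 y₀ hy₀N
    linarith
  obtain ⟨c, hc, M, hM, htr⟩ := transferM hC h hT0
  -- the perturbed forms
  have key : ∀ k : ℕ, ∃ g ∈ Γ, ∀ y ∈ N, c * ‖y‖ ≤ ξ (g y) + (1 / ((k : ℝ) + 1)) * f (g y) := by
    intro k
    have hk0 : (0 : ℝ) < 1 / ((k : ℝ) + 1) := by positivity
    have hk1 : 1 / ((k : ℝ) + 1) ≤ 1 := by
      rw [div_le_one (by positivity)]
      have : (0 : ℝ) ≤ k := Nat.cast_nonneg k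
      linarith
    obtain ⟨g, hg, hlow, _⟩ := htr (ξ + (1 / ((k : ℝ) + 1)) • f) (by
        intro v hvL hvN hv0
        have h1 := hξ v hvL hvN hv0
        have h2 := mul_nonneg hk0.le (hf0 v (hC.le hvN))
        simp only [add_apply, smul_apply, smul_eq_mul]
        linarith) (by
        intro x hx hx0
        have h1 := hξ0 x hx
        have h2 := mul_pos hk0 (hfpos x hx hx0)
        simp only [add_apply, smul_apply, smul_eq_mul]
        linarith)
        ⟨y₀, hy₀L, hy₀i, by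
        have h2 := mul_le_mul_of_nonneg_right hk1 (hf0 y₀ hy₀N)
        simp only [add_apply, smul_apply, smul_eq_mul]
        linarith⟩
    refine ⟨g, hg, fun y hy => ?_⟩
    have := hlow y hy
    simpa only [add_apply, smul_apply, smul_eq_mul] using this
  choose g hg hlow using key
  -- finitely many of them
  have hcl : closure (N : Set V) = (N : Set V) := hN.closed.closure_eq
  have hfin := finite_le L N (Γ : Set (V ≃ₗ[ℝ] V)) hA.map_lattice hA.map_cone f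
    (by
      intro x hx hx0
      rw [hcl] at hx
      exact hfpos x hx hx0) y₀ hy₀i (‖f‖ * (T / c))
  have hmem : ∀ k : ℕ, (g k)⁻¹ ∈ {g : V ≃ₗ[ℝ] V | g ∈ (Γ : Set (V ≃ₗ[ℝ] V)) ∧
      f (g y₀) ≤ ‖f‖ * (T / c)} := by
    intro k
    have hgi : (g k)⁻¹ ∈ Γ := Γ.inv_mem (hg k)
    refine ⟨hgi, ?_⟩
    have h1 := hlow k _ (hA.map_cone _ hgi y₀ hy₀N)
    have h2 : (g k) ((g k)⁻¹ y₀) = y₀ := (g k).apply_symm_apply y₀
    rw [h2] at h1
    have hk1 : 1 / ((k : ℝ) + 1) ≤ 1 := by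
      rw [div_le_one (by positivity)]
      have : (0 : ℝ) ≤ k := Nat.cast_nonneg k
      linarith
    have h3 := mul_le_mul_of_nonneg_right hk1 (hf0 y₀ hy₀N)
    have h4 : ‖(g k)⁻¹ y₀‖ ≤ T / c := by
      rw [le_div_iff₀ hc]
      linarith
    calc f ((g k)⁻¹ y₀) ≤ ‖f ((g k)⁻¹ y₀)‖ := le_abs_self _
      _ ≤ ‖f‖ * ‖(g k)⁻¹ y₀‖ := f.le_opNorm _
      _ ≤ ‖f‖ * (T / c) := mul_le_mul_of_nonneg_left h4 (norm_nonneg _)
  have : Finite {g : V ≃ₗ[ℝ] V // g ∈ {g : V ≃ₗ[ℝ] V | g ∈ (Γ : Set (V ≃ₗ[ℝ] V)) ∧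
      f (g y₀) ≤ ‖f‖ * (T / c)}} := hfin
  obtain ⟨⟨w, hw⟩, hinf⟩ := Finite.exists_infinite_fiber
    (fun k : ℕ => (⟨(g k)⁻¹, hmem k⟩ : {g : V ≃ₗ[ℝ] V // g ∈ {g : V ≃ₗ[ℝ] V |
      g ∈ (Γ : Set (V ≃ₗ[ℝ] V)) ∧ f (g y₀) ≤ ‖f‖ * (T / c)}}))
  have hinf' : ((fun k : ℕ => (⟨(g k)⁻¹, hmem k⟩ : {g : V ≃ₗ[ℝ] V // g ∈ {g : V ≃ₗ[ℝ] V |
      g ∈ (Γ : Set (V ≃ₗ[ℝ] V)) ∧ f (g y₀) ≤ ‖f‖ * (T / c)}})) ⁻¹' {⟨w, hw⟩}).Infinite :=
    Set.infinite_coe_iff.1 hinf
  have hwΓ : w ∈ Γ := hw.1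
  intro x hx hx0
  set y : V := w x with hy
  have hyN : y ∈ N := hA.map_cone w hwΓ x hx
  have hy0 : y ≠ 0 := by
    intro h0
    apply hx0
    have : w.symm (w x) = w.symm 0 := by rw [← hy, h0]
    simpa using this
  have hyn : 0 < ‖y‖ := norm_pos_iff.2 hy0
  have hfx := hf0 x hx
  have hlim : c * ‖y‖ ≤ ξ x := by
    by_contra hcon
    push Not at hcon
    obtain ⟨k0, hk0⟩ := exists_nat_gt (f x / (c * ‖y‖ - ξ x))
    obtain ⟨k, hk, hkk⟩ := hinf'.exists_gt k0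
    have hgk : (g k)⁻¹ = w := by
      have h1 : (⟨(g k)⁻¹, hmem k⟩ : {g : V ≃ₗ[ℝ] V // g ∈ {g : V ≃ₗ[ℝ] V |
        g ∈ (Γ : Set (V ≃ₗ[ℝ] V)) ∧ f (g y₀) ≤ ‖f‖ * (T / c)}}) = ⟨w, hw⟩ := hk
      exact congrArg Subtype.val h1
    have h2 := hlow k y hyN
    have h3 : g k y = x := by
      rw [hy, ← hgk]
      exact (g k).apply_symm_apply x
    rw [h3] at h2
    have h4 : 0 < c * ‖y‖ - ξ x := by linarith
    have h5 : f x / (c * ‖y‖ - ξ x) < (k : ℝ) + 1 := by
      have : (k0 : ℝ) < k := by exact_mod_cast hkk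
      linarith
    rw [div_lt_iff₀ h4] at h5
    have h6 : (1 / ((k : ℝ) + 1)) * f x < c * ‖y‖ - ξ x := by
      rw [one_div, inv_mul_lt_iff₀ (by positivity)]
      linarith
    linarith
  have : 0 < c * ‖y‖ := by positivity
  linarith


omit [IsZLattice ℝ L] in
theorem perturbM (hC : Cones L N M Γ) {ξ : V →L[ℝ] ℝ} (hξ : IsForm L M ξ)
    (hpos : IsPos N ξ) (α : V →L[ℝ] ℝ) (hα : ∀ v ∈ L, v ∈ M → ξ v = 1 → 0 ≤ α v) :
    ∃ t₀ : ℝ, 0 < t₀ ∧ ∀ t : ℝ, 0 ≤ t → t ≤ t₀ → IsForm L M (ξ + t • α) := by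
  have hN := hC.good
  obtain ⟨c, hc, hcb⟩ := lower_bound hN hpos
  have hfin : {v : V | v ∈ L ∧ v ∈ M ∧ ξ v ≤ 2}.Finite :=
    (finite_form_le (L := L) hN hpos 2).subset fun v hv => ⟨hv.1, hC.le hv.2.1, hv.2.2⟩
  have h1 : ∀ᶠ t : ℝ in 𝓝[≥] 0, ∀ v ∈ {v : V | v ∈ L ∧ v ∈ M ∧ ξ v ≤ 2}, v ≠ 0 →
      1 ≤ ξ v + t * α v := by
    rw [Set.Finite.eventually_all hfin]
    rintro v ⟨hvL, hvN, -⟩
    by_cases hv0 : v = 0
    · filter_upwards with t ht
      exact absurd hv0 ht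
    · have hv1 := hξ v hvL hvN hv0
      rcases hv1.eq_or_lt with h | h
      · filter_upwards [self_mem_nhdsWithin] with t ht _
        have := mul_nonneg (show (0 : ℝ) ≤ t from ht) (hα v hvL hvN h.symm)
        linarith
      · have hcont : Filter.Tendsto (fun t : ℝ => ξ v + t * α v) (𝓝[≥] 0) (𝓝 (ξ v + 0 * α v)) :=
          ((continuous_const.add (continuous_id.mul continuous_const)).tendsto 0).mono_left
            nhdsWithin_le_nhds
        rw [zero_mul, add_zero] at hcont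
        filter_upwards [hcont.eventually (lt_mem_nhds h)] with t ht _
        exact ht.le
  have h2 : ∀ᶠ t : ℝ in 𝓝[≥] 0, t ≤ c / (2 * (‖α‖ + 1)) := by
    have : (0 : ℝ) < c / (2 * (‖α‖ + 1)) := by positivity
    exact nhdsWithin_le_nhds (ge_mem_nhds this)
  obtain ⟨u, hu, hsub⟩ := mem_nhdsGE_iff_exists_Ico_subset.1 (h1.and h2)
  have hu0 : (0 : ℝ) < u := hu
  refine ⟨u / 2, by positivity, fun t ht ht' v hvL hvN hv0 => ?_⟩
  obtain ⟨h3, h4⟩ := hsub (show t ∈ Ico 0 u from ⟨ht, by linarith⟩)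
  change 1 ≤ ξ v + t * α v
  by_cases hv2 : ξ v ≤ 2
  · exact h3 v ⟨hvL, hvN, hv2⟩ hv0
  · push Not at hv2
    have h5 : |α v| ≤ ‖α‖ * ‖v‖ := by
      have := α.le_opNorm v
      rwa [Real.norm_eq_abs] at this
    have h6 := hcb v (hC.le hvN)
    have h7 : t * |α v| ≤ ξ v / 2 := by
      calc t * |α v| ≤ (c / (2 * (‖α‖ + 1))) * (‖α‖ * ‖v‖) := by gcongr
        _ ≤ (c / (2 * (‖α‖ + 1))) * ((‖α‖ + 1) * ‖v‖) := by gcongr; linarith
        _ = (c * ‖v‖) / 2 := by field_simp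
        _ ≤ ξ v / 2 := by linarith
    have h8 : -(t * |α v|) ≤ t * α v := by
      have := neg_abs_le (α v)
      nlinarith
    linarith


omit [IsZLattice ℝ L] in
theorem exists_perfectM (hC : Cones L N M Γ)
    (H : ∀ ξ : V →L[ℝ] ℝ, IsForm L M ξ → IsPos N ξ) {x : V} (hx : x ∈ interior (N : Set V)) :
    ∃ ξ : V →L[ℝ] ℝ, IsForm L M ξ ∧ ∃ A : Finset V,
      (∀ a ∈ A, a ∈ L ∧ a ∈ M ∧ ξ a = 1) ∧ Submodule.span ℝ (A : Set V) = ⊤ ∧
      x ∈ PointedCone.hull ℝ (A : Set V) := by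
  have hN := hC.good
  obtain ⟨f₀, hf₀', hf₀pos⟩ := exists_form (L := L) hN
  have hf₀ : IsForm L M f₀ := fun v hv hvM hv0 => hf₀' v hv (hC.le hvM) hv0
  have hnn : ∀ ξ : V →L[ℝ] ℝ, IsForm L M ξ → ∀ y ∈ N, 0 ≤ ξ y := by
    intro ξ hξ y hy
    by_cases hy0 : y = 0
    · rw [hy0, map_zero]
    · exact (H ξ hξ y hy hy0).le
  set K : Set (V →L[ℝ] ℝ) := {ξ | IsForm L M ξ ∧ ξ x ≤ f₀ x} with hK
  obtain ⟨r, hr, hball⟩ := Metric.nhds_basis_closedBall.mem_iff.1 (mem_interior_iff_mem_nhds.1 hx)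
  have hclosed : IsClosed K := by
    have h1 : K = (⋂ v ∈ {v : V | v ∈ L ∧ v ∈ M ∧ v ≠ 0}, {ξ : V →L[ℝ] ℝ | 1 ≤ ξ v}) ∩
        {ξ | ξ x ≤ f₀ x} := by
      ext ξ
      simp only [hK, mem_ofPred_eq, mem_inter_iff, mem_iInter]
      constructor
      · rintro ⟨h1, h2⟩
        exact ⟨fun v hv => h1 v hv.1 hv.2.1 hv.2.2, h2⟩
      · rintro ⟨h1, h2⟩
        exact ⟨fun v h3 h4 h5 => h1 v ⟨h3, h4, h5⟩, h2⟩
    rw [h1]
    refine (isClosed_biInter fun v _ => ?_).inter ?_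
    · exact isClosed_le continuous_const (ContinuousLinearMap.apply ℝ ℝ v).continuous
    · exact isClosed_le (ContinuousLinearMap.apply ℝ ℝ x).continuous continuous_const
  have hfx : 0 ≤ f₀ x := hnn f₀ hf₀ x (interior_subset hx)
  have hbdd : K ⊆ Metric.closedBall 0 (f₀ x / r) := by
    rintro ξ ⟨hξ, hξx⟩
    rw [Metric.mem_closedBall, dist_zero_right]
    refine ContinuousLinearMap.opNorm_le_bound _ (by positivity) fun y => ?_
    by_cases hy : y = 0
    · simp [hy]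
    · have hyn : 0 < ‖y‖ := norm_pos_iff.2 hy
      set w : V := (r / ‖y‖) • y with hw
      have hwn : ‖w‖ ≤ r := by
        rw [hw, norm_smul, Real.norm_of_nonneg (by positivity)]
        apply le_of_eq
        field_simp
      have h1 : x + w ∈ N := hball (by
        rw [Metric.mem_closedBall, dist_eq_norm]
        simpa using hwn)
      have h2 : x - w ∈ N := hball (by
        rw [Metric.mem_closedBall, dist_eq_norm]
        simpa using hwn)
      have h3 := hnn ξ hξ _ h1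
      have h4 := hnn ξ hξ _ h2
      rw [map_add] at h3
      rw [map_sub] at h4
      have h5 : |ξ w| ≤ f₀ x := by
        rw [abs_le]
        constructor <;> linarith
      have h6 : y = (‖y‖ / r) • w := by
        rw [hw, smul_smul]
        have : ‖y‖ / r * (r / ‖y‖) = 1 := by field_simp
        rw [this, one_smul]
      rw [Real.norm_eq_abs]
      calc |ξ y| = ‖y‖ / r * |ξ w| := by
            conv_lhs => rw [h6]
            rw [map_smul, smul_eq_mul, abs_mul, abs_of_pos (by positivity)]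
        _ ≤ ‖y‖ / r * f₀ x := by gcongr
        _ = f₀ x / r * ‖y‖ := by ring
  have : ProperSpace (V →L[ℝ] ℝ) := FiniteDimensional.proper ℝ _
  have hcomp : IsCompact K :=
    Metric.isCompact_of_isClosed_isBounded hclosed (Metric.isBounded_closedBall.subset hbdd)
  have hKne : K.Nonempty := ⟨f₀, hf₀, le_rfl⟩
  obtain ⟨ξ₁, hξ₁, hmin⟩ := hcomp.exists_isMinOn hKne
    (ContinuousLinearMap.apply ℝ ℝ x).continuous.continuousOn
  set m : ℝ := ξ₁ x with hm
  have hmin' : ∀ ξ : V →L[ℝ] ℝ, IsForm L M ξ → m ≤ ξ x := by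
    intro ξ hξ
    by_cases h : ξ x ≤ f₀ x
    · exact hmin (show ξ ∈ K from ⟨hξ, h⟩)
    · push Not at h
      exact hξ₁.2.trans h.le
  set M₀ : Set (V →L[ℝ] ℝ) := K ∩ {ξ | ξ x ≤ m} with hM₀
  have hM₀comp : IsCompact M₀ :=
    hcomp.inter_right (isClosed_le (ContinuousLinearMap.apply ℝ ℝ x).continuous continuous_const)
  obtain ⟨ξ, hξext⟩ := hM₀comp.extremePoints_nonempty ⟨ξ₁, hξ₁, by simp [hm]⟩
  rw [mem_extremePoints] at hξext
  obtain ⟨⟨hξK, hξm⟩, hext⟩ := hξext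
  have hform := hξK.1
  have hpos := H ξ hform
  have hξm' : ξ x = m := le_antisymm hξm (hmin' ξ hform)
  have hmem : ∀ η : V →L[ℝ] ℝ, IsForm L M η → η x = m → η ∈ M₀ := fun η h1 h2 =>
    ⟨⟨h1, by rw [h2]; exact hξ₁.2⟩, h2.le⟩
  have hAfin : {v : V | v ∈ L ∧ v ∈ M ∧ ξ v = 1}.Finite :=
    (finite_form_le (L := L) hN hpos 1).subset fun v hv => ⟨hv.1, hC.le hv.2.1, hv.2.2.le⟩
  refine ⟨ξ, hform, hAfin.toFinset, fun a ha => ?_, ?_, ?_⟩
  · simpa using ha
  · by_contra hspan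
    obtain ⟨α, hα0, hαker⟩ := Submodule.exists_le_ker_of_lt_top _ (lt_top_iff_ne_top.2 hspan)
    set β : V →L[ℝ] ℝ := LinearMap.toContinuousLinearMap α with hβ
    have hβv : ∀ v, β v = α v := fun v => rfl
    have hzero : ∀ v ∈ L, v ∈ M → ξ v = 1 → β v = 0 := by
      intro v h1 h2 h3
      have : v ∈ Submodule.span ℝ ((hAfin.toFinset : Set V)) :=
        Submodule.subset_span (by simp [h1, h2, h3])
      exact hαker this
    obtain ⟨t₁, ht₁, h1⟩ := perturbM hC hform hpos β (fun v a b c => (hzero v a b c).ge)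
    obtain ⟨t₂, ht₂, h2⟩ := perturbM hC hform hpos (-β) (fun v a b c => by
      rw [_root_.neg_apply, hzero v a b c, neg_zero])
    set t : ℝ := min t₁ t₂ with ht
    have htpos : 0 < t := lt_min ht₁ ht₂
    have h3 := h1 t htpos.le (min_le_left _ _)
    have h4 := h2 t htpos.le (min_le_right _ _)
    have h5 := hmin' _ h3
    have h6 := hmin' _ h4
    have e5 : (ξ + t • β) x = m + t * β x := by
      change ξ x + t * β x = _
      rw [hξm']
    have e6 : (ξ + t • -β) x = m - t * β x := by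
      change ξ x + t * (-(β x)) = _
      rw [hξm']
      ring
    rw [e5] at h5
    rw [e6] at h6
    have h7 : t * β x = 0 := by linarith
    have h8 := hext (ξ + t • β) (hmem _ h3 (by rw [e5, h7, add_zero])) (ξ + t • -β)
      (hmem _ h4 (by rw [e6, h7, sub_zero])) (by
        refine ⟨1 / 2, 1 / 2, by norm_num, by norm_num, by norm_num, ?_⟩
        ext v
        change (1 / 2 : ℝ) * (ξ v + t * β v) + 1 / 2 * (ξ v + t * (-(β v))) = ξ v
        ring)
    have h9 : ξ + t • β = ξ := h8.1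
    have h10 : t • β = 0 := by simpa using h9
    have h11 : β = 0 := (smul_eq_zero.1 h10).resolve_left htpos.ne'
    apply hα0
    ext v
    rw [← hβv, h11]
    rfl
  · by_contra hnot
    have hcl : IsClosed (PointedCone.hull ℝ ((hAfin.toFinset : Finset V) : Set V) : Set V) := by
      refine isClosed_hull (K := N) ξ (fun y hy => hpos y (by
        rwa [hN.closed.closure_eq] at hy)) _ ?_
      intro a ha
      have : a ∈ L ∧ a ∈ M ∧ ξ a = 1 := by simpa using ha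
      exact hC.le this.2.1
    let C : ProperCone ℝ V := ⟨PointedCone.hull ℝ ((hAfin.toFinset : Finset V) : Set V), hcl⟩
    have hnot' : x ∉ C := hnot
    obtain ⟨β, hβ, hβx⟩ := C.hyperplane_separation_point hnot'
    obtain ⟨t₁, ht₁, h1⟩ := perturbM (L := L) hC hform hpos β (fun v a b c => hβ v (by
      have : v ∈ PointedCone.hull ℝ ((hAfin.toFinset : Finset V) : Set V) :=
        Submodule.subset_span (by simp [a, b, c])
      exact this))
    have h2 := hmin' _ (h1 t₁ ht₁.le le_rfl)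
    have e2 : (ξ + t₁ • β) x = m + t₁ * β x := by
      change ξ x + t₁ * β x = _
      rw [hξm']
    rw [e2] at h2
    nlinarith


/-- finitely many lattice points of `M` generate a cone whose translates cover the interior of
`N` -/
theorem exists_coverM [Nontrivial V] (hC : Cones L N M Γ) (h : CocompactM L N M Γ) :
    ∃ F : Finset V, (∀ a ∈ F, a ∈ L ∧ a ∈ M) ∧ ∀ x ∈ interior (N : Set V),
      ∃ g ∈ Γ, g x ∈ PointedCone.hull ℝ (F : Set V) := by
  classical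
  have hN := hC.good
  have hA := hC.acts
  have hn : (0 : ℝ) < Module.finrank ℝ V := by exact_mod_cast Module.finrank_pos
  obtain ⟨c, hc, K, hK, hT⟩ := transferM hC h hn
  have hfin : {v : V | (v ∈ L ∧ ‖v‖ ≤ 1 / c) ∧ v ∈ M}.Finite :=
    (finite_of_bounded L (1 / c)).subset fun v hv => hv.1
  refine ⟨hfin.toFinset, fun a ha => ?_, fun x hx => ?_⟩
  · rw [Set.Finite.mem_toFinset] at ha
    exact ⟨ha.1.1, ha.2⟩
  · obtain ⟨ξ, hform, A, hA1, hspan, hxA⟩ := exists_perfectM hC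
      (fun ξ hξ => isPos_of_isFormM hC h ξ hξ) hx
    obtain ⟨y, hyL, hyint, hyn⟩ := coverAux_basis (N := N) ξ A
      (fun a ha => ⟨(hA1 a ha).1, hC.le (hA1 a ha).2.1, (hA1 a ha).2.2⟩) hspan
    obtain ⟨g, hg, hlow, -⟩ := hT ξ hform (isPos_of_isFormM hC h ξ hform) ⟨y, hyL, hyint, hyn⟩
    have hgi : g⁻¹ ∈ Γ := inv_mem hg
    have hgg : ∀ v : V, g (g⁻¹ v) = v := fun v => g.apply_symm_apply v
    refine ⟨g⁻¹, hgi, ?_⟩
    obtain ⟨d, hd, hxd⟩ := mem_hull_finset.1 hxA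
    rw [hxd, map_sum]
    refine Submodule.sum_mem _ fun a ha => ?_
    rw [map_smul]
    refine PointedCone.smul_mem _ (hd a ha) (Submodule.subset_span ?_)
    obtain ⟨h1, h2, h3⟩ := hA1 a ha
    rw [Set.Finite.coe_toFinset]
    refine ⟨⟨hA.map_lattice _ hgi _ h1, ?_⟩, hC.map_cone _ hgi _ h2⟩
    have h4 := hlow (g⁻¹ a) (hA.map_cone _ hgi _ (hC.le h2))
    rw [hgg, h3] at h4
    rw [le_div_iff₀ hc, mul_comm]
    exact h4

/-- a finite cover gives a rational polyhedral fundamental domain on `M`, if `M` is generated by its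
lattice points -/
theorem hasRPFD_of_cover [Nontrivial V] (hC : Cones L N M Γ) (hM : LatticeGenerated L M)
    (F : Finset V) (hF : ∀ a ∈ F, a ∈ L ∧ a ∈ M) (hcov : ∀ x ∈ interior (N : Set V),
      ∃ g ∈ Γ, g x ∈ PointedCone.hull ℝ (F : Set V)) : HasRPFD L Γ M := by
  classical
  have hFM : (F : Set V) ⊆ M := fun a ha => (hF a ha).2
  have hhull : PointedCone.hull ℝ (F : Set V) ≤ M := Submodule.span_le.2 hFM
  have hint2 : interior (N : Set V) ⊆ interior (M : Set V) :=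
    interior_maximal hC.interior_le isOpen_interior
  have hint3 : interior (M : Set V) ⊆ interior (N : Set V) := interior_mono hC.le
  have hcl : closure (M : Set V) ⊆ N := closure_minimal hC.le hC.closed
  have S : Setting L M Γ :=
    { salient := fun x hx hx' => hC.salient x (hcl hx) (hcl hx')
      interior_nonempty := hC.interior_nonempty.mono hint2
      map_lattice := hC.map_lattice
      map_cone := hC.map_cone }
  have hFL : (F : Set V) ⊆ L := fun a ha => (hF a ha).1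
  have hall := closing S F hFL hFM (fun x hx => by
    have hx' : x ∈ PointedCone.hull ℝ ((M : Set V) ∩ (L : Set V)) := by
      rw [← hM]
      exact hx
    obtain ⟨T, hT, hxT⟩ := Submodule.mem_span_finite_of_mem_span hx'
    exact ⟨T, fun a ha => (hT ha).2, fun a ha => (hT ha).1, hxT⟩)
    (fun x hx => by
      obtain ⟨g, hg, hgx⟩ := hcov x (hint3 hx)
      exact ⟨g⁻¹, inv_mem hg, g x, hgx, g.symm_apply_apply x⟩)
  refine exists_fundDomain S (P₁ := PointedCone.hull ℝ (F : Set V)) ⟨F, hFL, rfl⟩ ?_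
  ext x
  constructor
  · intro hx
    obtain ⟨g, hg, y, hy, hyx⟩ := hall x hx
    exact mem_biUnion hg ⟨y, hy, hyx⟩
  · intro hx
    rw [mem_iUnion₂] at hx
    obtain ⟨g, hg, y, hy, rfl⟩ := hx
    exact hC.map_cone g hg y (hhull hy)

end Pool.Agent.Lib.Pad47bbS
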