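import Pool.Agent.Lib.Pad47bbS.Bound

/-!
Intersection forms: monotonicity, properness, and the bound for tight lattice points when the big
lattice points of `N` are sums of `n + 1` nonzero lattice points of `N`.
-/

open Set Topology

namespace Pool.Agent.Lib.Pad47bbS

open Pool.Agent.Lib.Pad47bb Pool.Agent.Lib.Pad47bbV Pool.Agent.Lib.Pad47bbQ

variable {V : Type*} [NormedAddCommGroup V] [NormedSpace ℝ V]
  {L : Submodule ℤ V} {N : PointedCone ℝ V} {Γ : Subgroup (V ≃ₗ[ℝ] V)} {n : ℕ}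
  {F : MultilinearMap ℝ (fun _ : Fin n => V) ℝ}

theorem IsIntersection.mono' (hF : IsIntersection N Γ F) {x y : Fin n → V} (hx : ∀ i, x i ∈ N)
    (hxy : ∀ i, y i - x i ∈ N) : F x ≤ F y := by
  classical
  have e : y = x + (y - x) := by rw [add_sub_cancel]
  rw [e, MultilinearMap.map_add_univ]
  have h1 : ∀ s : Finset (Fin n), 0 ≤ F (s.piecewise x (y - x)) := by
    intro s
    refine hF.nonneg _ fun i => ?_
    by_cases hi : i ∈ s
    · rw [Finset.piecewise_eq_of_mem _ _ _ hi]
      exact hx i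
    · rw [Finset.piecewise_eq_of_notMem _ _ _ hi]
      exact hxy i
  have h2 := Finset.single_le_sum (f := fun s : Finset (Fin n) => F (s.piecewise x (y - x)))
    (fun s _ => h1 s) (Finset.mem_univ Finset.univ)
  simpa using h2

theorem IsIntersection.mono (hF : IsIntersection N Γ F) {x y : V} (hx : x ∈ N)
    (hxy : y - x ∈ N) : deg F x ≤ deg F y :=
  hF.mono' (fun _ => hx) (fun _ => hxy)

theorem deg_smul (F : MultilinearMap ℝ (fun _ : Fin n => V) ℝ) (t : ℝ) (x : V) :
    deg F (t • x) = t ^ n * deg F x := by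
  unfold deg
  have h := F.map_smul_univ (fun _ => t) (fun _ => x)
  simpa using h

/-- the degree grows at least linearly above a big point -/
theorem IsIntersection.lower [FiniteDimensional ℝ V] (hN : Good N) (hF : IsIntersection N Γ F)
    {z : V} (hz : z ∈ N) (hz0 : 0 < deg F z) :
    ∃ c : ℝ, 0 < c ∧ ∀ w ∈ N, c * ‖w‖ ≤ deg F (z + w) := by
  classical
  let ψ : V →ₗ[ℝ] ℝ := ∑ i, F.toLinearMap (fun _ => z) i
  have hψ : ∀ w, ψ w = ∑ i, F (Function.update (fun _ => z) i w) := by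
    intro w
    simp only [ψ, LinearMap.sum_apply, MultilinearMap.toLinearMap_apply]
  have hterm : ∀ w ∈ N, ∀ i, 0 ≤ F (Function.update (fun _ => z) i w) := by
    intro w hw i
    refine hF.nonneg _ fun j => ?_
    by_cases hj : j = i
    · rw [hj, Function.update_self]
      exact hw
    · rw [Function.update_of_ne hj]
      exact hz
  have hpos : IsPos N (LinearMap.toContinuousLinearMap ψ) := by
    intro w hw hw0
    obtain ⟨i, hi⟩ := hF.big z hz hz0 w hw hw0
    show 0 < ψ w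
    rw [hψ]
    exact lt_of_lt_of_le hi (Finset.single_le_sum
      (f := fun i => F (Function.update (fun _ => z) i w)) (fun j _ => hterm w hw j)
      (Finset.mem_univ i))
  obtain ⟨c, hc, hcb⟩ := lower_bound hN hpos
  refine ⟨c, hc, fun w hw => (hcb w hw).trans ?_⟩
  show ψ w ≤ _
  rw [hψ]
  have e : deg F (z + w) = ∑ s : Finset (Fin n), F (s.piecewise (fun _ => w) (fun _ => z)) := by
    unfold deg
    have h := F.map_add_univ (fun _ => w) (fun _ => z)
    rw [← h]
    congr 1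
    funext i
    simp [add_comm]
  rw [e]
  have hs : ∀ s : Finset (Fin n), 0 ≤ F (s.piecewise (fun _ => w) (fun _ => z)) := by
    intro s
    refine hF.nonneg _ fun j => ?_
    by_cases hj : j ∈ s
    · rw [Finset.piecewise_eq_of_mem _ _ _ hj]
      exact hw
    · rw [Finset.piecewise_eq_of_notMem _ _ _ hj]
      exact hz
  calc ∑ i, F (Function.update (fun _ => z) i w)
      = ∑ i, F (({i} : Finset (Fin n)).piecewise (fun _ => w) (fun _ => z)) := by
        refine Finset.sum_congr rfl fun i _ => ?_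
        rw [Finset.piecewise_singleton]
    _ = ∑ s ∈ Finset.univ.image (fun i : Fin n => ({i} : Finset (Fin n))),
          F (s.piecewise (fun _ => w) (fun _ => z)) := by
        rw [Finset.sum_image fun i _ j _ h => Finset.singleton_injective h]
    _ ≤ _ := Finset.sum_le_sum_of_subset_of_nonneg (Finset.subset_univ _) fun s _ _ => hs s

theorem IsIntersection.proper [FiniteDimensional ℝ V] (hN : Good N) (hF : IsIntersection N Γ F)
    {z : V} (hz : z ∈ N) (hz0 : 0 < deg F z) (c : ℝ) :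
    ∃ R : ℝ, ∀ x, x - z ∈ N → deg F x ≤ c → ‖x‖ ≤ R := by
  obtain ⟨a, ha, hab⟩ := hF.lower hN hz hz0
  refine ⟨‖z‖ + c / a, fun x hxz hxc => ?_⟩
  have h1 := hab _ hxz
  rw [add_sub_cancel] at h1
  have h2 : ‖x - z‖ ≤ c / a := by
    rw [le_div_iff₀ ha]
    linarith
  have h3 : ‖x‖ ≤ ‖z‖ + ‖x - z‖ := by
    have := norm_add_le z (x - z)
    rwa [add_sub_cancel] at this
  linarith

theorem IsIntersection.isDegree [FiniteDimensional ℝ V] (hN : Good N)
    (hF : IsIntersection N Γ F) : IsDegree N Γ n (deg F) where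
  inv g hg x hx := hF.inv g hg x (interior_subset hx)
  mono _ hx _ _ hxy := hF.mono (interior_subset hx) hxy
  hom x _ t _ := deg_smul F t x
  proper y hy c := hF.proper hN (interior_subset hy) (hF.ample y hy) c

/-- In a sum of `m` points of `N` at most `n` of them have a sum of almost the same degree. -/
theorem IsIntersection.exists_subsum (hF : IsIntersection N Γ F) {m : ℕ} (u : Fin m → V)
    (hu : ∀ i, u i ∈ N) (hpos : 0 < deg F (∑ i, u i)) :
    ∃ J : Finset (Fin m), J.card ≤ n ∧ deg F (∑ i, u i) ≤ (m : ℝ) ^ n * deg F (∑ j ∈ J, u j) := by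
  classical
  have e : deg F (∑ i, u i) = ∑ r : Fin n → Fin m, F (fun i => u (r i)) := by
    unfold deg
    exact F.map_sum (fun _ j => u j)
  obtain ⟨r, hr⟩ : ∃ r : Fin n → Fin m, deg F (∑ i, u i) ≤ (m : ℝ) ^ n * F (fun i => u (r i)) := by
    by_contra hcon
    push Not at hcon
    have hcard : (Finset.univ : Finset (Fin n → Fin m)).card = m ^ n := by
      rw [Finset.card_univ, Fintype.card_fun, Fintype.card_fin, Fintype.card_fin]
    have hne : (Finset.univ : Finset (Fin n → Fin m)).Nonempty := by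
      rw [Finset.nonempty_iff_ne_empty]
      intro h
      rw [e, h, Finset.sum_empty] at hpos
      exact lt_irrefl _ hpos
    have h1 : ∑ r : Fin n → Fin m, (m : ℝ) ^ n * F (fun i => u (r i)) <
        ∑ _r : Fin n → Fin m, deg F (∑ i, u i) :=
      Finset.sum_lt_sum_of_nonempty hne fun r _ => hcon r
    rw [← Finset.mul_sum, ← e, Finset.sum_const, hcard, nsmul_eq_mul] at h1
    push_cast at h1
    exact lt_irrefl _ h1
  refine ⟨Finset.univ.image r, ?_, hr.trans (mul_le_mul_of_nonneg_left ?_ (by positivity))⟩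
  · have := Finset.card_image_le (s := (Finset.univ : Finset (Fin n))) (f := r)
    rwa [Finset.card_univ, Fintype.card_fin] at this
  · refine hF.mono' (fun i => hu (r i)) fun i => ?_
    have hi : r i ∈ Finset.univ.image r := Finset.mem_image_of_mem _ (Finset.mem_univ i)
    rw [← Finset.add_sum_erase _ _ hi, add_sub_cancel_left]
    exact Submodule.sum_mem _ fun j _ => hu j

variable [FiniteDimensional ℝ V]

/-- The common step: a tight lattice point has a big summand of almost the same degree with at most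
`n` parts, which is not a sum of `n + 1` nonzero lattice points. -/
theorem exists_big_summand [Nontrivial V] {M : PointedCone ℝ V} (hC : Cones L N M Γ)
    (hF : IsIntersection N Γ F) {ε : ℝ} (hε : 0 < ε) {y : V} (hyL : y ∈ L)
    (hyN : y ∈ interior (N : Set V)) (hty : Tight L N M ε y) :
    ∃ s ∈ L, s ∈ M ∧ y - s ∈ N ∧ 0 < deg F s ∧
      deg F y ≤ (Module.finrank ℝ (V →L[ℝ] ℝ) / ε) ^ n * deg F s ∧ ¬ IsSum L M (n + 1) s := by
  classical
  have hN := hC.good
  set D : ℕ := Module.finrank ℝ (V →L[ℝ] ℝ) with hD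
  have hy0 : y ≠ 0 := ne_zero_of_interior hN hyN
  have hbound : ∀ m, IsSum L M m y → (m : ℝ) * ε ≤ D := fun m hm => isSum_bound hN hC.le hyN hty hm
  obtain ⟨m, ⟨u, hu, huy⟩, hmax⟩ := exists_max_sum (B := ⌊(D : ℝ) / ε⌋₊) (fun m hm => by
    apply Nat.le_floor
    rw [le_div_iff₀ hε]
    exact hbound m hm) hyL (hC.interior_le hyN) hy0
  have hmb := hbound m ⟨u, hu, huy⟩
  have hyF := hF.ample y hyN
  obtain ⟨J, hJn, hJ⟩ := hF.exists_subsum u (fun i => hC.le (hu i).2.1) (by rw [huy]; exact hyF)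
  rw [huy] at hJ
  have hsN : ∑ j ∈ J, u j ∈ M := Submodule.sum_mem _ fun j _ => (hu j).2.1
  have hs0 : 0 < deg F (∑ j ∈ J, u j) := by
    by_contra hcon
    push Not at hcon
    have : (m : ℝ) ^ n * deg F (∑ j ∈ J, u j) ≤ 0 :=
      mul_nonpos_of_nonneg_of_nonpos (by positivity) hcon
    linarith
  refine ⟨∑ j ∈ J, u j, Submodule.sum_mem _ fun j _ => (hu j).1, hsN, ?_, hs0, ?_, ?_⟩
  · have e : y - ∑ j ∈ J, u j = ∑ j ∈ Jᶜ, u j := by
      rw [← huy, ← Finset.sum_add_sum_compl J, add_sub_cancel_left]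
    rw [e]
    exact Submodule.sum_mem _ fun j _ => hC.le (hu j).2.1
  · refine hJ.trans (mul_le_mul_of_nonneg_right (pow_le_pow_left₀ (by positivity) ?_ n) hs0.le)
    rw [le_div_iff₀ hε]
    exact hmb
  · intro h
    have h1 := hmax _ (huy ▸ isSum_exchange u hu J h)
    have h2 : J.card ≤ m := by simpa using Finset.card_le_univ J
    omega

theorem tight_bounded_big [DiscreteTopology L] [Nontrivial V] {M : PointedCone ℝ V}
    (hC : Cones L N M Γ) (hF : IsIntersection N Γ F)
    (hsp : AlmostSplits L M Γ {x | x ∈ M ∧ 0 < deg F x} (n + 1)) {ε : ℝ} (hε : 0 < ε) :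
    ∃ E : Finset V, ∀ y ∈ L, y ∈ interior (N : Set V) → Tight L N M ε y → ∃ g ∈ Γ, g y ∈ E := by
  classical
  have hN := hC.good
  have hA := hC.acts
  obtain ⟨Z, hZ⟩ := hsp
  set K : ℝ := (Module.finrank ℝ (V →L[ℝ] ℝ) / ε) ^ n with hK
  have hR : ∀ z : V, ∃ R : ℝ, z ∈ N → 0 < deg F z →
      ∀ x, x - z ∈ N → deg F x ≤ K * deg F z → ‖x‖ ≤ R := by
    intro z
    by_cases hz : z ∈ N ∧ 0 < deg F z
    · obtain ⟨R, hR⟩ := hF.proper hN hz.1 hz.2 (K * deg F z)
      exact ⟨R, fun _ _ => hR⟩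
    · exact ⟨0, fun h1 h2 => absurd ⟨h1, h2⟩ hz⟩
  choose R hR using hR
  have hfin : ∀ z ∈ (Z : Set V), {w : V | w ∈ L ∧ ‖w‖ ≤ R z}.Finite :=
    fun z _ => finite_of_bounded L (R z)
  refine ⟨(Z.finite_toSet.biUnion hfin).toFinset, fun y hyL hyN hty => ?_⟩
  obtain ⟨s, hsL, hsM, hys, hs0, hdeg, hns⟩ := exists_big_summand hC hF hε hyL hyN hty
  have hsN := hC.le hsM
  obtain ⟨g, hg, hgs⟩ := (hZ s hsL ⟨hsM, hs0⟩).resolve_left hns
  refine ⟨g, hg, ?_⟩
  rw [Set.Finite.mem_toFinset]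
  simp only [mem_iUnion]
  refine ⟨g s, hgs, hA.map_lattice g hg y hyL, ?_⟩
  refine hR (g s) (hA.map_cone g hg s hsN) (by rw [hF.inv g hg s hsN]; exact hs0) (g y) ?_ ?_
  · rw [← map_sub]
    exact hA.map_cone g hg _ hys
  · rw [hF.inv g hg s hsN, hF.inv g hg y (interior_subset hyN)]
    exact hdeg

theorem tight_bounded_deg [Nontrivial V] {M : PointedCone ℝ V} (hC : Cones L N M Γ)
    (hF : IsIntersection N Γ F) (hfin : FinOrbits L N Γ (deg F))
    (hsp : Splits L M (deg F) M (n + 1)) {ε : ℝ} (hε : 0 < ε) :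
    ∃ E : Finset V, ∀ y ∈ L, y ∈ interior (N : Set V) → Tight L N M ε y → ∃ g ∈ Γ, g y ∈ E := by
  obtain ⟨C, hC'⟩ := hsp
  obtain ⟨E, hE⟩ := hfin ((Module.finrank ℝ (V →L[ℝ] ℝ) / ε) ^ n * C)
  refine ⟨E, fun y hyL hyN hty => hE y hyL hyN ?_⟩
  obtain ⟨s, hsL, hsM, hys, hs0, hdeg, hns⟩ := exists_big_summand hC hF hε hyL hyN hty
  have hsC : deg F s ≤ C := by
    by_contra hcon
    push Not at hcon
    exact hns (hC' s hsL hsM hcon.le)
  exact hdeg.trans (mul_le_mul_of_nonneg_left hsC (by positivity))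

end Pool.Agent.Lib.Pad47bbS
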