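import Pool.Agent.Lib.Pad47bbS.Dual
import Pool.Agent.Lib.Pad47bbS.Cover

/-!
The key basis.  A tight lattice point `y` of large degree, written as a sum of the largest possible
number of nonzero lattice points of `N`, contains among the summands a basis whose sum `s` satisfies
`κ y ≤ s ≤ y`, and removing one element of the basis from `s` leaves a point which is small.
-/

open Set Topology

namespace Pool.Agent.Lib.Pad47bbS

open Pool.Agent.Lib.Pad47bb Pool.Agent.Lib.Pad47bbV Pool.Agent.Lib.Pad47bbQ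

section sums

variable {V : Type*} [NormedAddCommGroup V] [NormedSpace ℝ V]
  {L : Submodule ℤ V} {N : PointedCone ℝ V}

theorem IsSum.add {a b : ℕ} {x y : V} (hx : IsSum L N a x) (hy : IsSum L N b y) :
    IsSum L N (a + b) (x + y) := by
  obtain ⟨u, hu, rfl⟩ := hx
  obtain ⟨w, hw, rfl⟩ := hy
  refine ⟨Fin.append u w, fun i => ?_, ?_⟩
  · refine Fin.addCases (fun j => ?_) (fun j => ?_) i
    · rw [Fin.append_left]
      exact hu j
    · rw [Fin.append_right]
      exact hw j
  · rw [Fin.sum_univ_add]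
    simp only [Fin.append_left, Fin.append_right]

theorem isSum_finset {ι : Type*} (u : ι → V) (hu : ∀ i, u i ∈ L ∧ u i ∈ N ∧ u i ≠ 0)
    (J : Finset ι) : IsSum L N J.card (∑ j ∈ J, u j) := by
  refine ⟨fun k => u (J.equivFin.symm k), fun k => hu _, ?_⟩
  rw [J.equivFin.symm.sum_comp (fun j : J => u j), Finset.sum_coe_sort J u]

/-- removing the summands indexed by `J` and splitting their sum again -/
theorem isSum_exchange {m r : ℕ} (u : Fin m → V) (hu : ∀ i, u i ∈ L ∧ u i ∈ N ∧ u i ≠ 0)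
    (J : Finset (Fin m)) (hJ : IsSum L N r (∑ j ∈ J, u j)) :
    IsSum L N (m - J.card + r) (∑ i, u i) := by
  have h1 := (isSum_finset u hu Jᶜ).add hJ
  rw [Finset.card_compl, Fintype.card_fin, add_comm (∑ j ∈ Jᶜ, u j),
    Finset.sum_add_sum_compl] at h1
  exact h1

theorem exists_max_sum {y : V} {B : ℕ} (hB : ∀ m, IsSum L N m y → m ≤ B) (hy : y ∈ L) (hyN : y ∈ N)
    (hy0 : y ≠ 0) : ∃ m, IsSum L N m y ∧ ∀ k, IsSum L N k y → k ≤ m := by
  have hne : {m | IsSum L N m y}.Nonempty :=
    ⟨1, fun _ => y, fun _ => ⟨hy, hyN, hy0⟩, by simp⟩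
  have hbd : BddAbove {m | IsSum L N m y} := ⟨B, fun m hm => hB m hm⟩
  exact ⟨sSup {m | IsSum L N m y}, Nat.sSup_mem hne hbd, fun k hk => le_csSup hbd hk⟩

end sums

section lp

variable {V : Type*} [AddCommGroup V] [Module ℝ V]

/-- Caratheodory reduction which does not increase the sum of the coefficients. -/
theorem lp_aux {ι : Type*} [Fintype ι] (u : ι → V) (n : ℕ) :
    ∀ (J : Finset ι), J.card = n → ∀ t : ι → ℝ, (∀ i, 0 ≤ t i) → (∀ i, i ∉ J → t i = 0) →
    ∃ J' : Finset ι, LinearIndependent ℝ (fun i : J' => u i) ∧ ∃ t' : ι → ℝ, (∀ i, 0 ≤ t' i) ∧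
      (∀ i, i ∉ J' → t' i = 0) ∧ ∑ i, t' i ≤ ∑ i, t i ∧ ∑ i, t' i • u i = ∑ i, t i • u i := by
  classical
  induction n with
  | zero =>
    intro J hJ t ht htJ
    rw [Finset.card_eq_zero] at hJ
    subst hJ
    refine ⟨∅, ?_, t, ht, htJ, le_rfl, rfl⟩
    have : IsEmpty (∅ : Finset ι) := ⟨fun a => Finset.notMem_empty _ a.2⟩
    exact linearIndependent_empty_type
  | succ n ih =>
    intro J hJ t ht htJ
    by_cases hli : LinearIndependent ℝ (fun i : J => u i)
    · exact ⟨J, hli, t, ht, htJ, le_rfl, rfl⟩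
    · rw [Fintype.not_linearIndependent_iff] at hli
      obtain ⟨g₀, hg₀, i₀, hi₀⟩ := hli
      let g₁ : ι → ℝ := fun a => if h : a ∈ J then g₀ ⟨a, h⟩ else 0
      have hg₁J : ∀ i, i ∉ J → g₁ i = 0 := fun i hi => by simp only [g₁, hi, dif_neg, not_false_iff]
      have hg₁s : ∑ a, g₁ a • u a = 0 := by
        rw [← hg₀, ← Finset.sum_subset (Finset.subset_univ J)
          (fun i _ hi => by rw [hg₁J i hi, zero_smul]), ← Finset.sum_coe_sort J (fun a => g₁ a • u a)]
        refine Finset.sum_congr rfl fun a _ => ?_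
        simp only [g₁, a.2, dif_pos]
      have hg₁' : g₁ (i₀ : ι) ≠ 0 := by
        simp only [g₁, i₀.2, dif_pos]
        exact hi₀
      obtain ⟨g, hg, hgJ, hgsum, i, hgi⟩ : ∃ g : ι → ℝ, ∑ a, g a • u a = 0 ∧
          (∀ i, i ∉ J → g i = 0) ∧ 0 ≤ ∑ i, g i ∧ ∃ i, 0 < g i := by
        have hpos : ∀ g : ι → ℝ, 0 ≤ ∑ i, g i → g i₀ ≠ 0 → ∃ i, 0 < g i := by
          intro g h1 h2
          by_contra hcon
          push Not at hcon
          have h3 : ∑ i, g i < 0 := by
            have := Finset.sum_lt_sum (f := g) (g := fun _ => 0) (fun i _ => hcon i)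
              ⟨i₀, Finset.mem_univ _, lt_of_le_of_ne (hcon i₀) h2⟩
            simpa using this
          linarith
        rcases le_total 0 (∑ i, g₁ i) with h | h
        · exact ⟨g₁, hg₁s, hg₁J, h, hpos g₁ h hg₁'⟩
        · have h1 : 0 ≤ ∑ i, -g₁ i := by
            rw [Finset.sum_neg_distrib]
            linarith
          refine ⟨fun i => -g₁ i, ?_, fun i hi => by simp [hg₁J i hi], h1,
            hpos _ h1 (neg_ne_zero.2 hg₁')⟩
          simp only [neg_smul, Finset.sum_neg_distrib, hg₁s, neg_zero]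
      have hiJ : ∀ i, 0 < g i → i ∈ J := by
        intro i hi
        by_contra h
        rw [hgJ i h] at hi
        exact lt_irrefl _ hi
      obtain ⟨b, hb, hbmin⟩ := (Finset.univ.filter fun a => 0 < g a).exists_min_image
        (fun a => t a / g a) ⟨i, Finset.mem_filter.2 ⟨Finset.mem_univ _, hgi⟩⟩
      obtain ⟨-, hgb⟩ := Finset.mem_filter.1 hb
      set lam : ℝ := t b / g b with hlamdef
      have hlam : 0 ≤ lam := div_nonneg (ht b) hgb.le
      have ht' : ∀ a, 0 ≤ t a - lam * g a := by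
        intro a
        by_cases h : 0 < g a
        · have := hbmin a (Finset.mem_filter.2 ⟨Finset.mem_univ _, h⟩)
          have h2 : lam * g a ≤ t a := by
            have h3 := mul_le_mul_of_nonneg_right this h.le
            rwa [div_mul_cancel₀ _ h.ne'] at h3
          linarith
        · have h1 := ht a
          have h2 : lam * g a ≤ 0 := mul_nonpos_of_nonneg_of_nonpos hlam (not_lt.1 h)
          linarith
      have hb0 : t b - lam * g b = 0 := by
        rw [hlamdef, div_mul_cancel₀ _ hgb.ne', sub_self]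
      obtain ⟨J', h1, t', h2, h3, h4, h5⟩ := ih (J.erase b)
        (by rw [Finset.card_erase_of_mem (hiJ b hgb), hJ]; rfl) (fun a => t a - lam * g a) ht'
        (fun i hi => by
          by_cases hib : i = b
          · rw [hib, hb0]
          · have : i ∉ J := fun h => hi (Finset.mem_erase.2 ⟨hib, h⟩)
            rw [htJ i this, hgJ i this, mul_zero, sub_zero])
      refine ⟨J', h1, t', h2, h3, ?_, ?_⟩
      · refine h4.trans ?_
        rw [Finset.sum_sub_distrib, ← Finset.mul_sum]
        have := mul_nonneg hlam hgsum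
        linarith
      · rw [h5]
        simp only [sub_smul, Finset.sum_sub_distrib, mul_smul]
        rw [← Finset.smul_sum, hg, smul_zero, sub_zero]

end lp

variable {V : Type*} [NormedAddCommGroup V] [NormedSpace ℝ V] [FiniteDimensional ℝ V]
  {L : Submodule ℤ V}

/-- The properties of the key basis. -/
structure Nice (L : Submodule ℤ V) (N M : PointedCone ℝ V) (Γ : Subgroup (V ≃ₗ[ℝ] V))
    (Z : Finset V) (η κ : ℝ) (y : V) (b : Module.Basis (Fin (Module.finrank ℝ V)) ℝ V) : Prop where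
  memL : ∀ i, b i ∈ L
  memM : ∀ i, b i ∈ M
  memN : ∀ i, b i ∈ N
  le : y - ∑ i, b i ∈ N
  ge : ∑ i, b i - κ • y ∈ N
  sub : ∀ i, (∑ k, b k - b i) - η • ∑ k, b k ∉ N
  orb : ∀ i, ∑ k, b k - b i ∈ interior (N : Set V) → ∃ g ∈ Γ, g (∑ k, b k - b i) ∈ Z

theorem exists_nice [Nontrivial V] {N M : PointedCone ℝ V} {Γ : Subgroup (V ≃ₗ[ℝ] V)}
    (hC : Cones L N M Γ) {Z : Finset V}
    (hZ : ∀ y ∈ L, y ∈ interior (N : Set V) →
      IsSum L M (Module.finrank ℝ V) y ∨ ∃ g ∈ Γ, g y ∈ Z)
    {ε η : ℝ} (hε : 0 < ε) (hη : 0 < η) (hη1 : η ≤ 1) {y : V} (hyL : y ∈ L)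
    (hyN : y ∈ interior (N : Set V)) (hty : Tight L N M ε y)
    (hlow : ¬ Low N Γ Z (η * (ε / (Module.finrank ℝ (V →L[ℝ] ℝ) + 1))) y) :
    ∃ b, Nice L N M Γ Z η (ε / (Module.finrank ℝ (V →L[ℝ] ℝ) + 1)) y b := by
  classical
  have hN := hC.good
  have hA := hC.acts
  have hMN := hC.le
  set D : ℕ := Module.finrank ℝ (V →L[ℝ] ℝ) with hD
  set κ : ℝ := ε / (D + 1) with hκ
  have hκ0 : 0 < κ := by positivity
  have hy0 : y ≠ 0 := ne_zero_of_interior hN hyN
  -- the maximal decomposition
  have hbound : ∀ m, IsSum L M m y → (m : ℝ) * ε ≤ D := fun m hm => isSum_bound hN hMN hyN hty hm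
  obtain ⟨m, ⟨u, hu, huy⟩, hmax⟩ := exists_max_sum (B := ⌊(D : ℝ) / ε⌋₊) (fun m hm => by
    apply Nat.le_floor
    rw [le_div_iff₀ hε]
    exact hbound m hm) hyL (hC.interior_le hyN) hy0
  have hmb := hbound m ⟨u, hu, huy⟩
  have hexch : ∀ (J : Finset (Fin m)) (r : ℕ), IsSum L M r (∑ j ∈ J, u j) → r ≤ J.card := by
    intro J r hr
    have h1 := hmax _ (huy ▸ isSum_exchange u hu J hr)
    have h2 : J.card ≤ m := by simpa using Finset.card_le_univ J
    omega
  have hm0 : 0 < m := by
    rcases Nat.eq_zero_or_pos m with h | h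
    · exfalso
      subst h
      apply hy0
      rw [← huy]
      simp
    · exact h
  have hm0' : (0 : ℝ) < m := by exact_mod_cast hm0
  -- Caratheodory
  obtain ⟨J, hli, t, ht0, htJ, htsum, htu⟩ := lp_aux u Finset.univ.card Finset.univ rfl
    (fun _ => 1) (fun _ => zero_le_one) (fun i hi => absurd (Finset.mem_univ i) hi)
  simp only [one_smul, Finset.sum_const, Finset.card_univ, Fintype.card_fin, nsmul_eq_mul,
    mul_one] at htsum htu
  have htm : ∀ i, t i ≤ m := fun i =>
    (Finset.single_le_sum (f := t) (fun j _ => ht0 j) (Finset.mem_univ i)).trans htsum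
  set s : V := ∑ j ∈ J, u j with hs
  have hms : (m : ℝ) • s - y ∈ N := by
    have e : (m : ℝ) • s - y = ∑ j ∈ J, ((m : ℝ) - t j) • u j := by
      rw [← huy, ← htu, ← Finset.sum_subset (Finset.subset_univ J)
        (fun i _ hi => by rw [htJ i hi, zero_smul]), hs, Finset.smul_sum,
        ← Finset.sum_sub_distrib]
      simp only [sub_smul]
    rw [e]
    exact Submodule.sum_mem _ fun j _ =>
      PointedCone.smul_mem _ (sub_nonneg.2 (htm j)) (hMN (hu j).2.1)
  have hsy : y - s ∈ N := by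
    have e : y - s = ∑ j ∈ Jᶜ, u j := by
      rw [← huy, hs, ← Finset.sum_add_sum_compl J, add_sub_cancel_left]
    rw [e]
    exact Submodule.sum_mem _ fun j _ => hMN (hu j).2.1
  have hκm : κ ≤ 1 / m := by
    rw [hκ, div_le_div_iff₀ (by positivity) hm0']
    linarith
  have hsκ : s - κ • y ∈ N := by
    have e : s - κ • y = (1 / (m : ℝ)) • ((m : ℝ) • s - y) + (1 / (m : ℝ) - κ) • y := by
      rw [smul_sub, smul_smul, one_div, inv_mul_cancel₀ hm0'.ne', one_smul, sub_smul]
      abel
    rw [e]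
    exact N.add_mem (PointedCone.smul_mem _ (by positivity) hms)
      (PointedCone.smul_mem _ (sub_nonneg.2 hκm) (interior_subset hyN))
  -- lattice points above a multiple of `y`
  have habove : ∀ (c : ℝ) (x : V), 0 < c → η * κ ≤ c → x - c • y ∈ N →
      x ∈ interior (N : Set V) ∧ ¬ ∃ g ∈ Γ, g x ∈ Z := by
    intro c x hc hcη hx
    have h1 : c • y ∈ interior (N : Set V) := interior_smul_mem hyN hc
    have h2 : x ∈ interior (N : Set V) := by
      have := interior_add_mem h1 hx
      rwa [add_sub_cancel] at this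
    refine ⟨h2, ?_⟩
    rintro ⟨g, hg, hgx⟩
    refine hlow ⟨g, hg, g x, hgx, ?_⟩
    have e : g x - (η * κ) • g y = g (x - c • y) + (c - η * κ) • g y := by
      rw [map_sub, map_smul, sub_smul]
      abel
    rw [e]
    exact N.add_mem (hA.map_cone g hg _ hx) (PointedCone.smul_mem _ (sub_nonneg.2 hcη)
      (hA.map_cone g hg _ (interior_subset hyN)))
  obtain ⟨hsN, hsZ⟩ := habove κ s hκ0 (mul_le_of_le_one_left hκ0.le hη1) hsκ
  have hsL : s ∈ L := Submodule.sum_mem _ fun j _ => (hu j).1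
  have hcard1 : Module.finrank ℝ V ≤ J.card := hexch J _ ((hZ s hsL hsN).resolve_right hsZ)
  have hcard2 : J.card ≤ Module.finrank ℝ V := by
    have := hli.fintype_card_le_finrank
    rwa [Fintype.card_coe] at this
  have hcard : J.card = Module.finrank ℝ V := le_antisymm hcard2 hcard1
  have hJne : Nonempty J := by
    have : 0 < J.card := by rw [hcard]; exact Module.finrank_pos
    obtain ⟨j, hj⟩ := Finset.card_pos.1 this
    exact ⟨⟨j, hj⟩⟩
  let b₀ : Module.Basis J ℝ V := basisOfLinearIndependentOfCardEqFinrank hli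
    (by rw [Fintype.card_coe, hcard])
  have hb₀ : ∀ j : J, b₀ j = u j := fun j => by
    simp only [b₀, coe_basisOfLinearIndependentOfCardEqFinrank]
  let e : J ≃ Fin (Module.finrank ℝ V) := Fintype.equivFinOfCardEq (by rw [Fintype.card_coe, hcard])
  let b : Module.Basis (Fin (Module.finrank ℝ V)) ℝ V := b₀.reindex e
  have hb : ∀ i, b i = u (e.symm i) := fun i => by
    simp only [b, Module.Basis.reindex_apply, hb₀]
  have hbsum : ∑ i, b i = s := by
    simp only [hb]
    rw [e.symm.sum_comp (fun j : J => u j), Finset.sum_coe_sort J u]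
  have hberase : ∀ i, s - b i = ∑ j ∈ J.erase (e.symm i : Fin m), u j := by
    intro i
    rw [hb, hs, ← Finset.add_sum_erase J u (e.symm i).2, add_sub_cancel_left]
  have horb : ∀ i, s - b i ∈ interior (N : Set V) → ∃ g ∈ Γ, g (s - b i) ∈ Z := by
    intro i hi
    have h1 : s - b i ∈ L := L.sub_mem hsL (by rw [hb]; exact (hu _).1)
    refine (hZ _ h1 hi).resolve_left fun h2 => ?_
    rw [hberase] at h2
    have h3 := hexch _ _ h2
    rw [Finset.card_erase_of_mem (e.symm i).2, hcard] at h3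
    have : 0 < Module.finrank ℝ V := Module.finrank_pos
    omega
  refine ⟨b, fun i => by rw [hb]; exact (hu _).1, fun i => by rw [hb]; exact (hu _).2.1,
    fun i => by rw [hb]; exact hMN (hu _).2.1,
    by rw [hbsum]; exact hsy, by rw [hbsum]; exact hsκ, ?_, ?_⟩
  · intro i hcon
    rw [hbsum] at hcon
    have h1 : (s - b i) - (η * κ) • y ∈ N := by
      have e1 : (s - b i) - (η * κ) • y = ((s - b i) - η • s) + η • (s - κ • y) := by
        rw [smul_sub, smul_smul]
        abel
      rw [e1]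
      exact N.add_mem hcon (PointedCone.smul_mem _ hη.le hsκ)
    obtain ⟨h2, h3⟩ := habove (η * κ) _ (by positivity) le_rfl h1
    exact h3 (horb i h2)
  · intro i hi
    rw [hbsum] at hi ⊢
    exact horb i hi

end Pool.Agent.Lib.Pad47bbS
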