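import Pool.Agent.Lib.Pad47bbS.Inter
import Pool.Agent.Lib.Pad47bbS.Forms

/-!
Splitting of lattice points and rational polyhedral fundamental domains: the equivalence.
-/

open Set Topology

namespace Pool.Agent.Lib.Pad47bbS

open Pool.Agent.Lib.Pad47bb Pool.Agent.Lib.Pad47bbV Pool.Agent.Lib.Pad47bbQ

variable {V : Type*} [NormedAddCommGroup V] [NormedSpace ℝ V] [FiniteDimensional ℝ V]
  {L : Submodule ℤ V}

omit [FiniteDimensional ℝ V] in
/-- a lattice point between `w` and `w + a z` -/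
theorem exists_between {ι : Type*} [Fintype ι] {N : PointedCone ℝ V} (e : Module.Basis ι ℝ V)
    (heL : ∀ i, e i ∈ L) {z : V} (hz : z ∈ N) {t : ℝ} (ht : 0 < t)
    (h : ∀ k, t • z - e k ∈ N ∧ t • z + e k ∈ N) (w : V) :
    ∃ l ∈ L, l - w ∈ N ∧ w + (2 * Fintype.card ι * t) • z - l ∈ N := by
  classical
  have htz : t • z ∈ N := PointedCone.smul_mem _ ht.le hz
  set a : ℝ := Fintype.card ι * t with ha
  set w' : V := w + a • z with hw'
  set r : V := ∑ k, Int.fract (e.repr w' k) • e k with hr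
  have haz : a • z = ∑ _k : ι, t • z := by
    rw [Finset.sum_const, Finset.card_univ, ← Nat.cast_smul_eq_nsmul ℝ, smul_smul]
  have h1 : a • z - r ∈ N := by
    rw [haz, hr, ← Finset.sum_sub_distrib]
    refine Submodule.sum_mem _ fun k _ => ?_
    have e1 : t • z - Int.fract (e.repr w' k) • e k = Int.fract (e.repr w' k) • (t • z - e k) +
        (1 - Int.fract (e.repr w' k)) • (t • z) := by
      rw [smul_sub, sub_smul, one_smul]
      abel
    rw [e1]
    exact N.add_mem (PointedCone.smul_mem _ (Int.fract_nonneg _) (h k).1)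
      (PointedCone.smul_mem _ (sub_nonneg.2 (Int.fract_lt_one _).le) htz)
  have h2 : a • z + r ∈ N := by
    rw [haz, hr, ← Finset.sum_add_distrib]
    refine Submodule.sum_mem _ fun k _ => ?_
    have e1 : t • z + Int.fract (e.repr w' k) • e k = Int.fract (e.repr w' k) • (t • z + e k) +
        (1 - Int.fract (e.repr w' k)) • (t • z) := by
      rw [smul_add, sub_smul, one_smul]
      abel
    rw [e1]
    exact N.add_mem (PointedCone.smul_mem _ (Int.fract_nonneg _) (h k).2)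
      (PointedCone.smul_mem _ (sub_nonneg.2 (Int.fract_lt_one _).le) htz)
  have hl : w' - r ∈ L := by
    have e1 : w' - r = ∑ k, ⌊e.repr w' k⌋ • e k := by
      have e2 : w' = ∑ k, e.repr w' k • e k := (e.sum_repr w').symm
      have e3 : ∑ k, ⌊e.repr w' k⌋ • e k + r = w' := by
        rw [hr, ← Finset.sum_add_distrib]
        conv_rhs => rw [e2]
        refine Finset.sum_congr rfl fun k _ => ?_
        rw [← Int.cast_smul_eq_zsmul ℝ, ← add_smul, Int.floor_add_fract]
      exact sub_eq_of_eq_add e3.symm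
    rw [e1]
    exact Submodule.sum_mem _ fun k _ => L.smul_mem _ (heL k)
  refine ⟨w' - r, hl, ?_, ?_⟩
  · have e1 : w' - r - w = a • z - r := by
      rw [hw']
      abel
    rw [e1]
    exact h1
  · have e1 : w + (2 * Fintype.card ι * t) • z - (w' - r) = a • z + r := by
      have : 2 * (Fintype.card ι : ℝ) * t = a + a := by
        rw [ha]
        ring
      rw [this, hw', add_smul]
      abel
    rw [e1]
    exact h2

/-- If for every `ε` the `ε`-tight lattice points in the interior of `N` lie in finitely many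
orbits, then `Γ` is cocompact on the thick points. -/
theorem cocompactM_of_tight [DiscreteTopology L] [IsZLattice ℝ L]
    {N M : PointedCone ℝ V} {Γ : Subgroup (V ≃ₗ[ℝ] V)} (hC : Cones L N M Γ)
    (H : ∀ ε : ℝ, 0 < ε → ε ≤ 1 → ∃ E : Finset V, ∀ y ∈ L, y ∈ interior (N : Set V) →
      Tight L N M ε y → ∃ g ∈ Γ, g y ∈ E) :
    CocompactM L N M Γ := by
  classical
  have hN := hC.good
  have hA := hC.acts
  obtain ⟨φ, -, hφ⟩ := exists_form (L := L) hN
  -- the main case
  intro ε₀ hε₀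
  set ε : ℝ := min ε₀ 1 with hεdef
  have hε : 0 < ε := lt_min hε₀ one_pos
  have hε1 : ε ≤ 1 := min_le_right _ _
  obtain ⟨Z, hZ⟩ := H ε hε hε1
  let e₀ := Module.Free.chooseBasis ℤ L
  let e := e₀.ofZLatticeBasis ℝ L
  have heL : ∀ i, e i ∈ L := fun i => by
    have : e i = (e₀ i : V) := e₀.ofZLatticeBasis_apply ℝ L i
    rw [this]
    exact (e₀ i).2
  obtain ⟨t, ht, htZ⟩ := exists_uniform (N := N) e Z
  set a : ℝ := 2 * Fintype.card (Module.Free.ChooseBasisIndex ℤ L) * t with ha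
  have ha0 : 0 ≤ a := by positivity
  obtain ⟨Z', hZ'⟩ := H (ε / (1 + a)) (by positivity)
    (by rw [div_le_one (by positivity)]; linarith)
  -- the compact set
  have hY : ∀ z : V, {y : V | (y ∈ L ∧ y ∈ N ∧ φ y ≤ φ z) ∧ y ∈ interior (N : Set V)}.Finite :=
    fun z => (finite_form_le hN hφ (φ z)).subset fun y hy => hy.1
  have hQc : ∀ z y : V, IsCompact {w : V | w - y ∈ N ∧ z - w ∈ N} := by
    intro z y
    apply Metric.isCompact_of_isClosed_isBounded
    · have h1 : IsClosed {w : V | w - y ∈ N} :=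
        hN.closed.preimage (continuous_id.sub continuous_const)
      have h2 : IsClosed {w : V | z - w ∈ N} :=
        hN.closed.preimage (continuous_const.sub continuous_id)
      exact h1.inter h2
    · obtain ⟨c, hc, hcb⟩ := lower_bound hN hφ
      rw [Metric.isBounded_iff_subset_closedBall y]
      refine ⟨φ (z - y) / c, ?_⟩
      rintro w ⟨h1, h2⟩
      rw [Metric.mem_closedBall, dist_eq_norm, le_div_iff₀ hc, mul_comm]
      have h3 := hcb _ h1
      have h4 : 0 ≤ φ (z - w) := le_trans (by positivity) (hcb _ h2)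
      rw [map_sub] at h3 h4 ⊢
      linarith
  refine ⟨⋃ z ∈ (Z' : Set V), ⋃ y ∈ {y : V | (y ∈ L ∧ y ∈ N ∧ φ y ≤ φ z) ∧
    y ∈ interior (N : Set V)}, {w : V | w - y ∈ N ∧ z - w ∈ N}, ?_, ?_, ?_⟩
  · exact Z'.finite_toSet.isCompact_biUnion fun z _ => (hY z).isCompact_biUnion fun y _ => hQc z y
  · intro w hw
    simp only [mem_iUnion] at hw
    obtain ⟨z, -, y, ⟨-, hy⟩, hw1, -⟩ := hw
    have h1 := interior_add_mem hy hw1
    rwa [add_sub_cancel] at h1
  rintro x hx ⟨y, hyL, hyN, T, hT, hTy, hthick⟩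
  have hTx : T • x ∈ interior (N : Set V) := interior_smul_mem hx hT
  -- no nonzero lattice point is at most `ε T x`
  have hth : ∀ v ∈ L, v ∈ M → v ≠ 0 → ε • (T • x) - v ∉ N := by
    intro v hvL hvN hv0 hv
    refine hthick v hvL hvN hv0 ?_
    have e1 : (ε₀ * T) • x - v = (ε • (T • x) - v) + (ε₀ - ε) • (T • x) := by
      rw [mul_smul, sub_smul]
      abel
    rw [e1]
    exact N.add_mem hv (PointedCone.smul_mem _ (sub_nonneg.2 (min_le_left _ _))
      (interior_subset hTx))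
  have hty : Tight L N M ε y := by
    intro v hvL hvN hv0 hv
    refine hth v hvL hvN hv0 ?_
    have e1 : ε • (T • x) - v = (ε • y - v) + ε • (T • x - y) := by
      rw [smul_sub]
      abel
    rw [e1]
    exact N.add_mem hv (PointedCone.smul_mem _ hε.le hTy)
  obtain ⟨g, hg, hgy⟩ := hZ y hyL hyN hty
  have hgyN : g y ∈ interior (N : Set V) := interior_map_mem (hA.map_cone g hg) hyN
  obtain ⟨l, hlL, hl1, hl2⟩ := exists_between e heL (interior_subset hgyN) ht
    (htZ (g y) hgy hgyN) (g (T • x))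
  have hgTx : g (T • x) ∈ interior (N : Set V) := interior_map_mem (hA.map_cone g hg) hTx
  have hlN : l ∈ interior (N : Set V) := by
    have h1 := interior_add_mem hgTx hl1
    rwa [add_sub_cancel] at h1
  have hgTy : g (T • x) - g y ∈ N := by
    rw [← map_sub]
    exact hA.map_cone g hg _ hTy
  have hle : (1 + a) • g (T • x) - l ∈ N := by
    have e1 : (1 + a) • g (T • x) - l = (g (T • x) + a • g y - l) + a • (g (T • x) - g y) := by
      rw [add_smul, one_smul, smul_sub]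
      abel
    rw [e1]
    exact N.add_mem hl2 (PointedCone.smul_mem _ ha0 hgTy)
  have hginv : ∀ u : V, g⁻¹ (g u) = u := fun u => g.symm_apply_apply u
  have htl : Tight L N M (ε / (1 + a)) l := by
    intro v hvL hvN hv0 hv
    have h1 : ε • g (T • x) - v ∈ N := by
      have e1 : ε • g (T • x) - v = ((ε / (1 + a)) • l - v) +
          (ε / (1 + a)) • ((1 + a) • g (T • x) - l) := by
        rw [smul_sub, smul_smul, div_mul_cancel₀ _ (by positivity : 1 + a ≠ 0)]
        abel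
      rw [e1]
      exact N.add_mem hv (PointedCone.smul_mem _ (by positivity) hle)
    have h2 := hA.map_cone g⁻¹ (Γ.inv_mem hg) _ h1
    rw [map_sub, map_smul, hginv] at h2
    refine hth (g⁻¹ v) (hA.map_lattice g⁻¹ (Γ.inv_mem hg) v hvL)
      (hC.map_cone g⁻¹ (Γ.inv_mem hg) v hvN) ?_ h2
    intro h4
    apply hv0
    have h5 := congrArg g h4
    rw [map_zero] at h5
    have h6 : g (g⁻¹ v) = v := g.apply_symm_apply v
    rwa [h6] at h5
  obtain ⟨g', hg', hgl⟩ := hZ' l hlL hlN htl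
  refine ⟨g' * g, Γ.mul_mem hg' hg, T, hT, ?_⟩
  have emul : ∀ u, (g' * g) u = g' (g u) := fun u => rfl
  rw [← map_smul, emul]
  have h1 : g' (g (T • x)) - g' (g y) ∈ N := by
    rw [← map_sub]
    exact hA.map_cone g' hg' _ hgTy
  have h2 : g' l - g' (g (T • x)) ∈ N := by
    rw [← map_sub]
    exact hA.map_cone g' hg' _ hl1
  have h3 : g' (g y) ∈ interior (N : Set V) := interior_map_mem (hA.map_cone g' hg') hgyN
  simp only [mem_iUnion]
  refine ⟨g' l, hgl, g' (g y), ⟨⟨hA.map_lattice g' hg' _ (hA.map_lattice g hg y hyL),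
    interior_subset h3, ?_⟩, h3⟩, h1, h2⟩
  have h4 := N.add_mem h2 h1
  have h5 : 0 ≤ φ (g' l - g' (g (T • x)) + (g' (g (T • x)) - g' (g y))) := by
    by_cases h : g' l - g' (g (T • x)) + (g' (g (T • x)) - g' (g y)) = 0
    · rw [h, map_zero]
    · exact (hφ _ h4 h).le
  rw [sub_add_sub_cancel, map_sub] at h5
  linarith

/-- the cover given by the splitting property with `finrank ℝ V` summands -/
theorem cover_of_splits [DiscreteTopology L] [IsZLattice ℝ L] [Nontrivial V]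
    {N M : PointedCone ℝ V} {Γ : Subgroup (V ≃ₗ[ℝ] V)} (hC : Cones L N M Γ)
    (hsp : AlmostSplits L M Γ (interior (N : Set V)) (Module.finrank ℝ V)) :
    ∃ F : Finset V, (∀ a ∈ F, a ∈ L ∧ a ∈ M) ∧ ∀ x ∈ interior (N : Set V),
      ∃ g ∈ Γ, g x ∈ PointedCone.hull ℝ (F : Set V) := by
  classical
  by_cases hnp : ∃ b : Module.Basis (Fin (Module.finrank ℝ V)) ℝ V, (∀ i, b i ∈ L ∧ b i ∈ M) ∧
      ∀ z ∈ N, ∀ i, 0 ≤ b.repr z i
  · obtain ⟨b, hb, hbz⟩ := hnp
    refine ⟨Finset.univ.image b, ?_, ?_⟩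
    · intro a ha
      obtain ⟨i, -, rfl⟩ := Finset.mem_image.1 ha
      exact hb i
    · intro x hx
      refine ⟨1, Γ.one_mem, ?_⟩
      have e : (1 : V ≃ₗ[ℝ] V) x = x := rfl
      rw [e, ← b.sum_repr x]
      refine Submodule.sum_mem _ fun i _ =>
        PointedCone.smul_mem _ (hbz x (interior_subset hx) i) (Submodule.subset_span ?_)
      rw [Finset.mem_coe]
      exact Finset.mem_image_of_mem _ (Finset.mem_univ i)
  · exact exists_coverM hC (cocompactM_of_tight hC fun ε hε hε1 =>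
      tight_bounded hC hsp hnp hε hε1)

omit [FiniteDimensional ℝ V] in
/-- the finite cover given by a rational polyhedral fundamental domain -/
theorem exists_cover_of_hasRPFD {N : PointedCone ℝ V} {Γ : Subgroup (V ≃ₗ[ℝ] V)}
    {M : PointedCone ℝ V} (hM2 : M ≤ N) (h : HasRPFD L Γ M) :
    ∃ F : Finset V, (∀ a ∈ F, a ∈ L ∧ a ∈ N) ∧
      ∀ x ∈ M, ∃ g ∈ Γ, g x ∈ PointedCone.hull ℝ (F : Set V) := by
  obtain ⟨P, ⟨s, hsL, rfl⟩, hcov, -⟩ := h
  have hPM : PointedCone.hull ℝ (s : Set V) ≤ M := by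
    intro x hx
    show x ∈ (M : Set V)
    rw [hcov]
    exact mem_biUnion (one_mem Γ) ⟨x, hx, rfl⟩
  refine ⟨s, fun a ha => ⟨hsL ha, hM2 (hPM (Submodule.subset_span ha))⟩, fun x hx => ?_⟩
  have hx' : x ∈ (M : Set V) := hx
  rw [hcov] at hx'
  simp only [mem_iUnion] at hx'
  obtain ⟨g, hg, y, hy, rfl⟩ := hx'
  refine ⟨g⁻¹, inv_mem hg, ?_⟩
  have e : g⁻¹ (g y) = y := g.symm_apply_apply y
  rw [e]
  exact hy

omit [FiniteDimensional ℝ V] in
theorem mem_of_ratHull {N M : PointedCone ℝ V} (h : M = ratHull L N) :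
    ∀ v ∈ L, v ∈ N → v ∈ M := fun v hv hvN => by
  rw [h]
  exact Submodule.subset_span ⟨hvN, hv⟩

omit [FiniteDimensional ℝ V] in
theorem latticeGenerated_of_ratHull {N M : PointedCone ℝ V} (hMN : M ≤ N) (h : M = ratHull L N) :
    LatticeGenerated L M := by
  have e : (M : Set V) ∩ (L : Set V) = (N : Set V) ∩ (L : Set V) := by
    ext v
    exact ⟨fun hv => ⟨hMN hv.1, hv.2⟩, fun hv => ⟨mem_of_ratHull h v hv.2 hv.1, hv.2⟩⟩
  unfold LatticeGenerated
  rw [e]
  exact h

theorem tfae_almostSplits [DiscreteTopology L] [IsZLattice ℝ L] [Nontrivial V]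
    {N M : PointedCone ℝ V} {Γ : Subgroup (V ≃ₗ[ℝ] V)} (hC : Cones L N M Γ) :
    [HasRPFD L Γ M,
      LatticeGenerated L M ∧ AlmostSplits L M Γ (interior (N : Set V)) (Module.finrank ℝ V),
      M = ratHull L N ∧ ∀ m, 0 < m → AlmostSplits L M Γ N m].TFAE := by
  have hN := hC.good
  have hA := hC.acts
  tfae_have 1 → 3 := by
    intro h
    have h1 := ((hasRPFD_iff hN hA hC.interior_le hC.le).1 h).1
    obtain ⟨F, hF, hcov⟩ := exists_cover_of_hasRPFD hC.le h
    refine ⟨h1, fun m hm => ?_⟩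
    obtain ⟨Z, hZ⟩ := almostSplits_of_cover hN hA F hF subset_rfl
      (fun x hxL hxN => hcov x (mem_of_ratHull h1 x hxL hxN)) hm
    exact ⟨Z, fun y hyL hyN => (hZ y hyL hyN).imp (fun h2 => h2.mono (mem_of_ratHull h1)) id⟩
  tfae_have 3 → 2 := by
    rintro ⟨h1, h2⟩
    obtain ⟨Z, hZ⟩ := h2 (Module.finrank ℝ V) Module.finrank_pos
    exact ⟨latticeGenerated_of_ratHull hC.le h1, Z, fun y hyL hyN => hZ y hyL (interior_subset hyN)⟩
  tfae_have 2 → 1 := by
    rintro ⟨h1, h2⟩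
    obtain ⟨F, hF, hcov⟩ := cover_of_splits hC h2
    exact hasRPFD_of_cover hC h1 F hF hcov
  tfae_finish

theorem tfae_intersection [DiscreteTopology L] [IsZLattice ℝ L] [Nontrivial V]
    {N M : PointedCone ℝ V} {Γ : Subgroup (V ≃ₗ[ℝ] V)} (hC : Cones L N M Γ) {n : ℕ}
    {F : MultilinearMap ℝ (fun _ : Fin n => V) ℝ} (hF : IsIntersection N Γ F) :
    [HasRPFD L Γ M,
      LatticeGenerated L M ∧ AlmostSplits L M Γ {x | x ∈ M ∧ 0 < deg F x} (n + 1),
      LatticeGenerated L M ∧ FinOrbits L N Γ (deg F) ∧ Splits L M (deg F) M (n + 1),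
      LatticeGenerated L M ∧ FinOrbits L N Γ (deg F) ∧
        Splits L M (deg F) (interior (N : Set V)) (Module.finrank ℝ V),
      LatticeGenerated L M ∧ FinOrbits L N Γ (deg F) ∧ Isosystolic L N M n (deg F)].TFAE := by
  have hN := hC.good
  have hA := hC.acts
  have hf := hF.isDegree hN
  tfae_have 1 → 2 := by
    intro h
    obtain ⟨h1, h2⟩ := ((tfae_almostSplits hC).out 0 2).1 h
    obtain ⟨Z, hZ⟩ := h2 (n + 1) (Nat.succ_pos n)
    exact ⟨latticeGenerated_of_ratHull hC.le h1, Z, fun y hyL hyM => hZ y hyL (hC.le hyM.1)⟩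
  tfae_have 2 → 1 := by
    rintro ⟨h1, h2⟩
    obtain ⟨F', hF', hcov⟩ := exists_coverM hC (cocompactM_of_tight hC
      fun ε hε _ => tight_bounded_big hC hF h2 hε)
    exact hasRPFD_of_cover hC h1 F' hF' hcov
  tfae_have 1 → 3 := by
    intro h
    obtain ⟨h1, h2⟩ := ((tfae_almostSplits hC).out 0 2).1 h
    obtain ⟨F', hF', hcov⟩ := exists_cover_of_hasRPFD hC.le h
    refine ⟨latticeGenerated_of_ratHull hC.le h1,
      finOrbits_of_cover hN hA hf F' hF' fun x hx => hcov x (hC.interior_le hx), ?_⟩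
    obtain ⟨Z, hZ⟩ := h2 (n + 1) (Nat.succ_pos n)
    refine ⟨∑ z ∈ Z, |deg F z| + 1, fun y hyL hyM hy =>
      (hZ y hyL (hC.le hyM)).resolve_right ?_⟩
    rintro ⟨g, hg, hgy⟩
    have h3 : |deg F (g y)| ≤ ∑ z ∈ Z, |deg F z| :=
      Finset.single_le_sum (f := fun z => |deg F z|) (fun z _ => abs_nonneg _) hgy
    rw [hF.inv g hg y (hC.le hyM)] at h3
    have := le_abs_self (deg F y)
    linarith
  tfae_have 3 → 1 := by
    rintro ⟨h1, h2, h3⟩
    obtain ⟨F', hF', hcov⟩ := exists_coverM hC (cocompactM_of_tight hC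
      fun ε hε _ => tight_bounded_deg hC hF h2 h3 hε)
    exact hasRPFD_of_cover hC h1 F' hF' hcov
  tfae_have 1 → 4 := by
    intro h
    have h1 := ((hasRPFD_iff hN hA hC.interior_le hC.le).1 h).1
    obtain ⟨F', hF', hcov⟩ := exists_cover_of_hasRPFD hC.le h
    have hcov' := fun x hx => hcov x (hC.interior_le hx)
    obtain ⟨C, hC'⟩ := splits_of_cover hN hA hf F' hF' hcov' (Module.finrank_pos (R := ℝ) (M := V))
    exact ⟨latticeGenerated_of_ratHull hC.le h1, finOrbits_of_cover hN hA hf F' hF' hcov',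
      C, fun y hyL hyN hy => (hC' y hyL hyN hy).mono (mem_of_ratHull h1)⟩
  tfae_have 4 → 1 := by
    rintro ⟨h1, h2, C, hC'⟩
    obtain ⟨Z, hZ⟩ := h2 C
    obtain ⟨F', hF', hcov⟩ := cover_of_splits hC ⟨Z, fun y hyL hyN => by
      rcases le_total C (deg F y) with h | h
      · exact Or.inl (hC' y hyL hyN h)
      · exact Or.inr (hZ y hyL hyN h)⟩
    exact hasRPFD_of_cover hC h1 F' hF' hcov
  tfae_have 1 → 5 := by
    intro h
    have h1 := ((hasRPFD_iff hN hA hC.interior_le hC.le).1 h).1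
    obtain ⟨F', hF', hcov⟩ := exists_cover_of_hasRPFD hC.le h
    have hcov' := fun x hx => hcov x (hC.interior_le hx)
    obtain ⟨C, hC'⟩ := dominates_of_cover hN hA hf F' hF' hcov'
    refine ⟨latticeGenerated_of_ratHull hC.le h1, finOrbits_of_cover hN hA hf F' hF' hcov',
      (isosystolic_iff hN hf).2 ⟨C, fun x hx hCx => ?_⟩⟩
    obtain ⟨v, hvL, hvN, hv⟩ := hC' x hx hCx
    exact ⟨v, hvL, mem_of_ratHull h1 v hvL hvN, hv⟩
  tfae_have 5 → 1 := by
    rintro ⟨h1, h2, h3⟩
    obtain ⟨F', hF', hcov⟩ := exists_coverM hC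
      (cocompactM_of_dominates hN hA hf h2 ((isosystolic_iff hN hf).1 h3))
    exact hasRPFD_of_cover hC h1 F' hF' hcov
  tfae_finish

/-- the criterion with `min ρ (n + 1)` summands for big lattice points -/
theorem tfae_min [DiscreteTopology L] [IsZLattice ℝ L] [Nontrivial V]
    {N M : PointedCone ℝ V} {Γ : Subgroup (V ≃ₗ[ℝ] V)} (hC : Cones L N M Γ) {n : ℕ}
    {F : MultilinearMap ℝ (fun _ : Fin n => V) ℝ} (hF : IsIntersection N Γ F) :
    [HasRPFD L Γ M,
      LatticeGenerated L M ∧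
        AlmostSplits L M Γ {x | x ∈ M ∧ 0 < deg F x} (min (Module.finrank ℝ V) (n + 1)),
      LatticeGenerated L M ∧ FinOrbits L N Γ (deg F) ∧
        Splits L M (deg F) M (min (Module.finrank ℝ V) (n + 1)),
      LatticeGenerated L M ∧ FinOrbits L N Γ (deg F) ∧ Isosystolic L N M n (deg F)].TFAE := by
  have h := tfae_intersection hC hF
  have hN := hC.good
  have hA := hC.acts
  have hf := hF.isDegree hN
  have hpos : 0 < min (Module.finrank ℝ V) (n + 1) :=
    lt_min Module.finrank_pos (Nat.succ_pos n)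
  have e0 : HasRPFD L Γ M ↔ LatticeGenerated L M ∧
      AlmostSplits L M Γ (interior (N : Set V)) (Module.finrank ℝ V) :=
    (tfae_almostSplits hC).out 0 1
  have e1 : HasRPFD L Γ M ↔ LatticeGenerated L M ∧
      AlmostSplits L M Γ {x | x ∈ M ∧ 0 < deg F x} (n + 1) := h.out 0 1
  have e2 : HasRPFD L Γ M ↔ LatticeGenerated L M ∧ FinOrbits L N Γ (deg F) ∧
      Splits L M (deg F) M (n + 1) := h.out 0 2
  have e3 : HasRPFD L Γ M ↔ LatticeGenerated L M ∧ FinOrbits L N Γ (deg F) ∧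
      Splits L M (deg F) (interior (N : Set V)) (Module.finrank ℝ V) := h.out 0 3
  tfae_have 1 ↔ 4 := h.out 0 4
  tfae_have 1 → 2 := by
    intro h
    obtain ⟨h1, h2⟩ := ((tfae_almostSplits hC).out 0 2).1 h
    obtain ⟨Z, hZ⟩ := h2 _ hpos
    exact ⟨latticeGenerated_of_ratHull hC.le h1, Z, fun y hyL hyM => hZ y hyL (hC.le hyM.1)⟩
  tfae_have 1 → 3 := by
    intro h
    obtain ⟨h1, h2⟩ := ((tfae_almostSplits hC).out 0 2).1 h
    obtain ⟨F', hF', hcov⟩ := exists_cover_of_hasRPFD hC.le h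
    refine ⟨latticeGenerated_of_ratHull hC.le h1,
      finOrbits_of_cover hN hA hf F' hF' fun x hx => hcov x (hC.interior_le hx), ?_⟩
    obtain ⟨Z, hZ⟩ := h2 _ hpos
    refine ⟨∑ z ∈ Z, |deg F z| + 1, fun y hyL hyM hy =>
      (hZ y hyL (hC.le hyM)).resolve_right ?_⟩
    rintro ⟨g, hg, hgy⟩
    have h3 : |deg F (g y)| ≤ ∑ z ∈ Z, |deg F z| :=
      Finset.single_le_sum (f := fun z => |deg F z|) (fun z _ => abs_nonneg _) hgy
    rw [hF.inv g hg y (hC.le hyM)] at h3
    have := le_abs_self (deg F y)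
    linarith
  tfae_have 2 → 1 := by
    rintro ⟨h1, h2⟩
    rcases le_total (Module.finrank ℝ V) (n + 1) with hle | hle
    · rw [min_eq_left hle] at h2
      obtain ⟨Z, hZ⟩ := h2
      refine e0.2 ⟨h1, Z, fun y hyL hyN => ?_⟩
      exact hZ y hyL ⟨hC.interior_le hyN, hF.ample y hyN⟩
    · rw [min_eq_right hle] at h2
      exact e1.2 ⟨h1, h2⟩
  tfae_have 3 → 1 := by
    rintro ⟨h1, h2, h3⟩
    rcases le_total (Module.finrank ℝ V) (n + 1) with hle | hle
    · rw [min_eq_left hle] at h3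
      obtain ⟨C, hC'⟩ := h3
      exact e3.2 ⟨h1, h2, C, fun y hyL hyN => hC' y hyL (hC.interior_le hyN)⟩
    · rw [min_eq_right hle] at h3
      exact e2.2 ⟨h1, h2, h3⟩
  tfae_finish

end Pool.Agent.Lib.Pad47bbS
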