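import Pool.Agent.Lib.Pad47bbS.Key

/-!
Coordinates with respect to a key basis: the cone `N` is close to the cone generated by the basis.
-/

open Set Topology

namespace Pool.Agent.Lib.Pad47bbS

open Pool.Agent.Lib.Pad47bb Pool.Agent.Lib.Pad47bbV Pool.Agent.Lib.Pad47bbQ

variable {V : Type*} [NormedAddCommGroup V] [NormedSpace ℝ V]
  {ι : Type*} [Fintype ι]

/-- a point with nonnegative coordinates is in `N` -/
theorem mem_of_coord {N : PointedCone ℝ V} {b : Module.Basis ι ℝ V} (hbN : ∀ i, b i ∈ N) {z : V}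
    (hz : ∀ i, 0 ≤ b.repr z i) : z ∈ N := by
  rw [← b.sum_repr z]
  exact Submodule.sum_mem _ fun i _ => PointedCone.smul_mem _ (hz i) (hbN i)

theorem repr_sum (b : Module.Basis ι ℝ V) (i : ι) : b.repr (∑ k, b k) i = 1 := by
  classical
  rw [map_sum, Finsupp.finsetSum_apply]
  simp only [Module.Basis.repr_self]
  rw [Finset.sum_eq_single i]
  · rw [Finsupp.single_eq_same]
  · intro j _ hj
    rw [Finsupp.single_eq_of_ne hj.symm]
  · intro h
    exact absurd (Finset.mem_univ i) h

theorem shift_identity [DecidableEq ι] (b : Module.Basis ι ℝ V) (z : V) (i : ι) (β : ℝ) :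
    β • (∑ k, b k - b i) - (-b.repr z i) • b i =
      z + ∑ j ∈ Finset.univ.erase i, (β - b.repr z j) • b j := by
  have hsi : ∑ k, b k - b i = ∑ k ∈ Finset.univ.erase i, b k := by
    rw [← Finset.add_sum_erase _ _ (Finset.mem_univ i), add_sub_cancel_left]
  obtain ⟨c, hc⟩ : ∃ c : ι → ℝ, c = b.repr z := ⟨_, rfl⟩
  have hz' : z = ∑ j, c j • b j := by rw [hc, b.sum_repr]
  rw [← hc, hz', ← Finset.add_sum_erase _ (fun j => c j • b j) (Finset.mem_univ i),
    hsi, Finset.smul_sum]
  simp only [sub_smul, Finset.sum_sub_distrib, neg_smul]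
  abel

/-- The coordinates of a point of `N` are bounded below in terms of an upper bound. -/
theorem coord_lower {N : PointedCone ℝ V} {b : Module.Basis ι ℝ V} (hbN : ∀ i, b i ∈ N) {η : ℝ}
    (hη : 0 < η) (hη2 : η ≤ 1 / 2) (hsub : ∀ i, (∑ k, b k - b i) - η • ∑ k, b k ∉ N) {z : V}
    (hz : z ∈ N) {β : ℝ} (hβ : 0 < β) (hzβ : ∀ j, b.repr z j ≤ β) (i : ι) :
    -(2 * η * β) ≤ b.repr z i := by
  classical
  by_contra hcon
  push Not at hcon
  set a : ℝ := -b.repr z i with ha
  have ha1 : 2 * η * β < a := by linarith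
  have ha0 : 0 < a := lt_trans (by positivity) ha1
  have hsi : ∑ k, b k - b i = ∑ k ∈ Finset.univ.erase i, b k := by
    rw [← Finset.add_sum_erase _ _ (Finset.mem_univ i), add_sub_cancel_left]
  have h1 : β • (∑ k, b k - b i) - a • b i ∈ N := by
    rw [shift_identity b z i β]
    exact N.add_mem hz (Submodule.sum_mem _ fun j _ =>
      PointedCone.smul_mem _ (sub_nonneg.2 (hzβ j)) (hbN j))
  have h2 : ∑ k, b k - b i ∈ N := by
    rw [hsi]
    exact Submodule.sum_mem _ fun j _ => hbN j
  apply hsub i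
  have e : (∑ k, b k - b i) - η • ∑ k, b k =
      (η / a) • (β • (∑ k, b k - b i) - a • b i) + (1 - η - η * β / a) • (∑ k, b k - b i) := by
    have e1 : (η / a) • (a • b i) = η • b i := by
      rw [smul_smul, div_mul_cancel₀ _ ha0.ne']
    have e2 : (η / a) • (β • (∑ k, b k - b i)) = (η * β / a) • (∑ k, b k - b i) := by
      rw [smul_smul]
      congr 1
      ring
    rw [smul_sub (η / a), e1, e2, sub_smul, sub_smul, one_smul, smul_sub η]
    abel
  rw [e]
  refine N.add_mem (PointedCone.smul_mem _ (by positivity) h1) (PointedCone.smul_mem _ ?_ h2)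
  have h3 : η * β / a ≤ 1 / 2 := by
    rw [div_le_iff₀ ha0]
    linarith
  linarith

/-- Coordinates of the points of an order interval. -/
theorem coord_bounds {N : PointedCone ℝ V} {b : Module.Basis ι ℝ V} (hbN : ∀ i, b i ∈ N) {η : ℝ}
    (hη : 0 < η) (hη4 : η ≤ 1 / 4) (hsub : ∀ i, (∑ k, b k - b i) - η • ∑ k, b k ∉ N) {z w : V}
    (hz : z ∈ N) (hw : w ∈ N) {lam : ℝ} (hlam : 0 < lam) (hq : ∀ j, b.repr (z + w) j ≤ lam) (i : ι) :
    -(4 * η * lam) ≤ b.repr z i ∧ b.repr z i ≤ b.repr (z + w) i + 4 * η * lam := by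
  classical
  let F : Option (ι ⊕ ι) → ℝ := fun o => match o with
    | none => lam
    | some (Sum.inl j) => b.repr z j
    | some (Sum.inr j) => b.repr w j
  obtain ⟨o, ho⟩ := Finite.exists_max F
  set M : ℝ := F o with hM
  have hM0 : 0 < M := lt_of_lt_of_le hlam (ho none)
  have hzM : ∀ j, b.repr z j ≤ M := fun j => ho (some (Sum.inl j))
  have hwM : ∀ j, b.repr w j ≤ M := fun j => ho (some (Sum.inr j))
  have hz1 := coord_lower hbN hη (by linarith) hsub hz hM0 hzM
  have hw1 := coord_lower hbN hη (by linarith) hsub hw hM0 hwM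
  have hadd : ∀ j, b.repr (z + w) j = b.repr z j + b.repr w j := fun j => by
    rw [map_add, Finsupp.add_apply]
  have hM2 : M ≤ lam + 2 * η * M := by
    have h5 : 0 < 2 * η * M := by positivity
    rcases o with _ | (j | j)
    · have : M = lam := rfl
      linarith
    · have h1 : M = b.repr z j := rfl
      have h2 := hq j
      rw [hadd] at h2
      have := hw1 j
      linarith
    · have h1 : M = b.repr w j := rfl
      have h2 := hq j
      rw [hadd] at h2
      have := hz1 j
      linarith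
  have hM3 : M ≤ 2 * lam := by
    have h1 : 2 * η * M ≤ 1 / 2 * M := mul_le_mul_of_nonneg_right (by linarith) hM0.le
    linarith
  have h4 : 2 * η * M ≤ 4 * η * lam := by nlinarith
  refine ⟨by linarith [hz1 i], ?_⟩
  have h1 := hadd i
  have h2 := hw1 i
  linarith

/-- If removing any element of the basis from the sum gives a boundary point, the cone is generated
by the basis. -/
theorem coord_nonneg {N : PointedCone ℝ V} {b : Module.Basis ι ℝ V} (hbN : ∀ i, b i ∈ N)
    (hs : ∑ k, b k ∈ interior (N : Set V))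
    (hsub : ∀ i, ∑ k, b k - b i ∉ interior (N : Set V)) {z : V} (hz : z ∈ N) (i : ι) :
    0 ≤ b.repr z i := by
  classical
  by_contra hcon
  push Not at hcon
  have hne : Nonempty ι := ⟨i⟩
  obtain ⟨j₀, hj₀⟩ := Finite.exists_max (fun j => |b.repr z j|)
  set β : ℝ := |b.repr z j₀| + 1 with hβ
  have hβ0 : 0 < β := by positivity
  have hzβ : ∀ j, b.repr z j ≤ β := fun j => by
    have := hj₀ j
    have := le_abs_self (b.repr z j)
    linarith
  set a : ℝ := -b.repr z i with ha
  have ha0 : 0 < a := by linarith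
  have hsi : ∑ k, b k - b i = ∑ k ∈ Finset.univ.erase i, b k := by
    rw [← Finset.add_sum_erase _ _ (Finset.mem_univ i), add_sub_cancel_left]
  have h1 : β • (∑ k, b k - b i) - a • b i ∈ N := by
    rw [shift_identity b z i β]
    exact N.add_mem hz (Submodule.sum_mem _ fun j _ =>
      PointedCone.smul_mem _ (sub_nonneg.2 (hzβ j)) (hbN j))
  apply hsub i
  have h2 : a • ∑ k, b k ∈ interior (N : Set V) := interior_smul_mem hs ha0
  have h3 := interior_add_mem h2 h1
  have e : a • ∑ k, b k + (β • (∑ k, b k - b i) - a • b i) = (a + β) • (∑ k, b k - b i) := by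
    rw [add_smul a β, smul_sub a]
    abel
  rw [e] at h3
  have h4 := interior_smul_mem h3 (inv_pos.2 (by linarith : 0 < a + β))
  rwa [smul_smul, inv_mul_cancel₀ (by linarith : a + β ≠ 0), one_smul] at h4

/-- The elementary estimates for two nearly nonnegative inverse matrices. -/
theorem exists_small_row {n : ℕ} (hn : 0 < n) {A B : Fin n → Fin n → ℝ} {η ω : ℝ} (hη : 0 < η)
    (hη4 : η ≤ 1 / 4) (hω : 0 < ω) (hηω : 64 * (n : ℝ) ^ 2 * (η * ω) ≤ 1 / 4)
    (hA : ∀ k j, -(8 * η) ≤ A k j ∧ A k j ≤ 4) (hB : ∀ i k, -(4 * η * ω) ≤ B i k ∧ B i k ≤ 2 * ω)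
    (i : Fin n) (h1 : ∑ k, B i k * A k i = 1) (h0 : ∀ j, j ≠ i → ∑ k, B i k * A k j = 0) :
    ∃ k, ∀ j, j ≠ i → A k j ≤ 64 * (n : ℝ) ^ 2 * (η * ω) := by
  classical
  have hn1 : (1 : ℝ) ≤ n := by exact_mod_cast hn
  have hn0 : (0 : ℝ) < n := by linarith
  have hηω0 : 0 < η * ω := mul_pos hη hω
  -- some product is at least `1 / n`
  obtain ⟨k, hk⟩ : ∃ k, 1 / (n : ℝ) ≤ B i k * A k i := by
    by_contra hcon
    push Not at hcon
    have h2 : ∑ k, B i k * A k i < ∑ _k : Fin n, 1 / (n : ℝ) :=
      Finset.sum_lt_sum_of_nonempty ⟨i, Finset.mem_univ _⟩ fun k _ => hcon k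
    rw [h1, Finset.sum_const, Finset.card_univ, Fintype.card_fin, nsmul_eq_mul,
      mul_one_div_cancel hn0.ne'] at h2
    exact lt_irrefl _ h2
  have hn2 : n ≤ (n : ℝ) ^ 2 := by nlinarith
  have hsmall : η * ω ≤ 1 / (256 * n) := by
    rw [le_div_iff₀ (by positivity)]
    nlinarith
  have hBk : 1 / (4 * (n : ℝ)) ≤ B i k := by
    by_cases hApos : 0 < A k i
    · have hB0 : 0 < B i k := by
        by_contra h
        push Not at h
        have h3 : B i k * A k i ≤ 0 := mul_nonpos_of_nonpos_of_nonneg h hApos.le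
        have h4 : 0 < 1 / (n : ℝ) := by positivity
        linarith
      have h3 : B i k * A k i ≤ B i k * 4 := mul_le_mul_of_nonneg_left (hA k i).2 hB0.le
      have h4 : 1 / (4 * (n : ℝ)) = 1 / n / 4 := by
        rw [div_div, mul_comm]
      rw [h4]
      linarith
    · exfalso
      push Not at hApos
      have h5 : B i k * A k i ≤ (4 * η * ω) * (8 * η) := by
        have h6 : -B i k ≤ 4 * η * ω := by linarith [(hB i k).1]
        have h7 : -A k i ≤ 8 * η := by linarith [(hA k i).1]
        have h8 : 0 ≤ -A k i := by linarith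
        have h9 : (-B i k) * (-A k i) ≤ (4 * η * ω) * (-A k i) :=
          mul_le_mul_of_nonneg_right h6 h8
        have h10 : (4 * η * ω) * (-A k i) ≤ (4 * η * ω) * (8 * η) :=
          mul_le_mul_of_nonneg_left h7 (by positivity)
        linarith
      have h6 : (4 * η * ω) * (8 * η) ≤ 8 * (η * ω) := by nlinarith
      have h7 : 8 * (η * ω) < 1 / n := by
        have : 8 * (1 / (256 * (n : ℝ))) < 1 / n := by
          rw [mul_one_div, div_lt_div_iff₀ (by positivity) hn0]
          linarith
        linarith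
      linarith
  have hB0 : 0 < B i k := lt_of_lt_of_le (by positivity) hBk
  refine ⟨k, fun j hj => ?_⟩
  have hprod : ∀ l, -(B i l * A l j) ≤ 16 * (η * ω) := by
    intro l
    obtain ⟨hA1, hA2⟩ := hA l j
    obtain ⟨hB1, hB2⟩ := hB i l
    by_cases hA0 : 0 ≤ A l j
    · have h3 : (-B i l) * A l j ≤ (4 * η * ω) * A l j :=
        mul_le_mul_of_nonneg_right (by linarith) hA0
      have h4 : (4 * η * ω) * A l j ≤ (4 * η * ω) * 4 :=
        mul_le_mul_of_nonneg_left hA2 (by positivity)
      linarith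
    · push Not at hA0
      have h3 : B i l * (-A l j) ≤ 2 * ω * (-A l j) :=
        mul_le_mul_of_nonneg_right hB2 (by linarith)
      have h4 : 2 * ω * (-A l j) ≤ 2 * ω * (8 * η) :=
        mul_le_mul_of_nonneg_left (by linarith) (by positivity)
      linarith
  have h2 := h0 j hj
  rw [← Finset.add_sum_erase _ _ (Finset.mem_univ k)] at h2
  have h3 : B i k * A k j ≤ n * (16 * (η * ω)) := by
    have h4 : B i k * A k j = ∑ l ∈ Finset.univ.erase k, -(B i l * A l j) := by
      rw [Finset.sum_neg_distrib]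
      linarith
    rw [h4]
    calc ∑ l ∈ Finset.univ.erase k, -(B i l * A l j)
        ≤ ∑ _l ∈ Finset.univ.erase k, 16 * (η * ω) := Finset.sum_le_sum fun l _ => hprod l
      _ = ((Finset.univ.erase k).card : ℝ) * (16 * (η * ω)) := by
          rw [Finset.sum_const, nsmul_eq_mul]
      _ ≤ n * (16 * (η * ω)) := by
          apply mul_le_mul_of_nonneg_right _ (by positivity)
          have : (Finset.univ.erase k).card ≤ n := by
            have h := Finset.card_le_univ (Finset.univ.erase k)
            rwa [Fintype.card_fin] at h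
          exact_mod_cast this
  by_contra hcon
  push Not at hcon
  have hA0 : 0 < A k j := lt_trans (by positivity) hcon
  have h5 : 1 / (4 * (n : ℝ)) * A k j ≤ n * (16 * (η * ω)) :=
    (mul_le_mul_of_nonneg_right hBk hA0.le).trans h3
  rw [one_div, inv_mul_le_iff₀ (by positivity)] at h5
  have h6 : 4 * (n : ℝ) * (n * (16 * (η * ω))) = 64 * (n : ℝ) ^ 2 * (η * ω) := by ring
  linarith

end Pool.Agent.Lib.Pad47bbS
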