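import Pool.Agent.Lib.Pad47bbS.Main

/-!
Sharpness: the number of summands cannot be lowered.
-/

open Set Topology

namespace Pool.Agent.Lib.Pad47bbS

open Pool.Agent.Lib.Pad47bb Pool.Agent.Lib.Pad47bbV Pool.Agent.Lib.Pad47bbQ

/-- the linear forms defining the example -/
noncomputable def shForm (k : ℕ) (i : Fin (k + 2)) : (Fin (k + 2) → ℝ) →L[ℝ] ℝ :=
  if i = 0 then √2 • ContinuousLinearMap.proj 0 - ContinuousLinearMap.proj 1
  else ContinuousLinearMap.proj i

/-- the cone `x₁ ≥ 0`, `x₁ ≤ √2 x₀`, `xᵢ ≥ 0` for `i ≥ 2` -/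
noncomputable def shCone (k : ℕ) : PointedCone ℝ (Fin (k + 2) → ℝ) := ⨅ i, halfSpace (shForm k i)

theorem shForm_zero (k : ℕ) (x : Fin (k + 2) → ℝ) : shForm k 0 x = √2 * x 0 - x 1 := by
  simp [shForm]

theorem shForm_ne (k : ℕ) {i : Fin (k + 2)} (hi : i ≠ 0) (x : Fin (k + 2) → ℝ) :
    shForm k i x = x i := by
  simp [shForm, hi]

theorem mem_shCone {k : ℕ} {x : Fin (k + 2) → ℝ} : x ∈ shCone k ↔ ∀ i, 0 ≤ shForm k i x := by
  simp only [shCone, Submodule.mem_iInf, mem_halfSpace]

theorem sqrt_two_pos : (0 : ℝ) < √2 := Real.sqrt_pos.2 two_pos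

theorem good_shCone (k : ℕ) : Good (shCone k) := by
  refine ⟨?_, ?_, ?_⟩
  · have h : (shCone k : Set (Fin (k + 2) → ℝ)) = ⋂ i, {x | 0 ≤ shForm k i x} := by
      ext x
      simp only [SetLike.mem_coe, mem_shCone, mem_iInter, mem_ofPred_eq]
    rw [h]
    exact isClosed_iInter fun i => isClosed_le continuous_const (shForm k i).continuous
  · intro x hx hx'
    rw [mem_shCone] at hx hx'
    have h1 : ∀ i, shForm k i x = 0 := by
      intro i
      have h2 := hx i
      have h3 := hx' i
      rw [map_neg] at h3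
      linarith
    have h4 : ∀ i, i ≠ 0 → x i = 0 := fun i hi => by
      rw [← shForm_ne k hi x]
      exact h1 i
    funext i
    by_cases hi : i = 0
    · have h5 := h1 0
      rw [shForm_zero, h4 1 (by simp), sub_zero, mul_eq_zero] at h5
      rw [hi]
      exact h5.resolve_left sqrt_two_pos.ne'
    · exact h4 i hi
  · refine ⟨fun i => if i = 0 then 2 else 1, ?_⟩
    rw [mem_interior]
    refine ⟨⋂ i, {x | 0 < shForm k i x}, ?_, ?_, ?_⟩
    · intro x hx
      rw [SetLike.mem_coe, mem_shCone]
      intro i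
      exact (mem_iInter.1 hx i).le
    · exact isOpen_iInter_of_finite fun i => isOpen_lt continuous_const (shForm k i).continuous
    · rw [mem_iInter]
      intro i
      by_cases hi : i = 0
      · subst hi
        rw [mem_ofPred_eq, shForm_zero, if_pos rfl, if_neg (by simp)]
        have : (1 : ℝ) < √2 := by
          rw [Real.lt_sqrt (by norm_num)]
          norm_num
        linarith
      · rw [mem_ofPred_eq, shForm_ne k hi, if_neg hi]
        exact one_pos

/-- the integral lattice -/
abbrev intLat (n : ℕ) : Submodule ℤ (Fin n → ℝ) :=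
  Submodule.span ℤ (Set.range (Pi.basisFun ℝ (Fin n)))

theorem mem_intLat {n : ℕ} {x : Fin n → ℝ} : x ∈ intLat n ↔ ∀ i, ∃ m : ℤ, (m : ℝ) = x i := by
  rw [Module.Basis.mem_span_iff_repr_mem]
  simp only [Pi.basisFun_repr, Set.mem_range, algebraMap_int_eq, eq_intCast]

theorem pos_of_interior {k : ℕ} {y : Fin (k + 2) → ℝ}
    (hy : y ∈ interior (shCone k : Set (Fin (k + 2) → ℝ))) {i : Fin (k + 2)} (hi : i ≠ 0) :
    0 < y i := by
  obtain ⟨t, h1, h2⟩ := ((eventually_sub_mem hy (Pi.single i 1)).and
    (Filter.eventually_gt_atTop 0)).exists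
  have h3 := mem_shCone.1 h1 i
  rw [shForm_ne k hi, Pi.sub_apply, Pi.single_eq_same, Pi.smul_apply, smul_eq_mul] at h3
  by_contra hcon
  push Not at hcon
  have := mul_nonpos_of_nonneg_of_nonpos h2.le hcon
  linarith

theorem isSum_shCone (k : ℕ) {y : Fin (k + 2) → ℝ} (hyL : y ∈ intLat (k + 2))
    (hy : y ∈ interior (shCone k : Set (Fin (k + 2) → ℝ))) :
    IsSum (intLat (k + 2)) (shCone k) (k + 1) y := by
  have hyN := mem_shCone.1 (interior_subset hy)
  rw [mem_intLat] at hyL
  have h10 : (1 : Fin (k + 2)) ≠ 0 := by simp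
  refine ⟨Fin.cons (fun i => if i = 0 ∨ i = 1 then y i else 0)
    (fun j => Pi.single j.succ.succ (y j.succ.succ)), fun i => ?_, ?_⟩
  · refine Fin.cases ?_ (fun j => ?_) i
    · rw [Fin.cons_zero]
      refine ⟨?_, ?_, ?_⟩
      · rw [mem_intLat]
        intro i
        by_cases h : i = 0 ∨ i = 1
        · rw [if_pos h]
          exact hyL i
        · rw [if_neg h]
          exact ⟨0, by simp⟩
      · rw [mem_shCone]
        intro i
        by_cases hi : i = 0
        · subst hi
          have := hyN 0
          rw [shForm_zero] at this ⊢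
          simpa using this
        · rw [shForm_ne k hi]
          by_cases h : i = 0 ∨ i = 1
          · rw [if_pos h]
            have := hyN i
            rwa [shForm_ne k hi] at this
          · rw [if_neg h]
      · intro h
        have h1 := congrFun h 1
        simp only [or_true, if_true, Pi.zero_apply] at h1
        have := pos_of_interior hy h10
        linarith
    · rw [Fin.cons_succ]
      have hj : (j.succ.succ : Fin (k + 2)) ≠ 0 := Fin.succ_ne_zero _
      have hj1 : (j.succ.succ : Fin (k + 2)) ≠ 1 := by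
        intro h
        have := congrArg Fin.val h
        simp at this
      have hpos := pos_of_interior hy hj
      refine ⟨?_, ?_, ?_⟩
      · rw [mem_intLat]
        intro i
        by_cases h : i = j.succ.succ
        · rw [h, Pi.single_eq_same]
          exact hyL _
        · rw [Pi.single_eq_of_ne h]
          exact ⟨0, by simp⟩
      · rw [mem_shCone]
        intro i
        by_cases hi : i = 0
        · subst hi
          rw [shForm_zero, Pi.single_eq_of_ne hj.symm, Pi.single_eq_of_ne hj1.symm]
          simp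
        · rw [shForm_ne k hi]
          by_cases h : i = j.succ.succ
          · rw [h, Pi.single_eq_same]
            exact hpos.le
          · rw [Pi.single_eq_of_ne h]
      · intro h
        have h1 := congrFun h j.succ.succ
        rw [Pi.single_eq_same, Pi.zero_apply] at h1
        linarith
  · rw [Fin.sum_univ_succ, Fin.cons_zero]
    simp only [Fin.cons_succ]
    funext i
    rw [Pi.add_apply, Finset.sum_apply]
    refine Fin.cases ?_ (fun i' => Fin.cases ?_ (fun j => ?_) i') i
    · rw [Finset.sum_eq_zero, if_pos (Or.inl rfl), add_zero]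
      intro j _
      exact Pi.single_eq_of_ne (Fin.succ_ne_zero _).symm _
    · rw [Finset.sum_eq_zero, if_pos (Or.inr (Fin.succ_zero_eq_one)), add_zero]
      intro j _
      refine Pi.single_eq_of_ne (fun h => ?_) _
      exact (Fin.succ_ne_zero j) (Fin.succ_injective _ h).symm
    · rw [if_neg, zero_add, Finset.sum_eq_single j]
      · rw [Pi.single_eq_same]
      · intro l _ hl
        refine Pi.single_eq_of_ne (fun h => hl ?_) _
        exact (Fin.succ_injective _ (Fin.succ_injective _ h)).symm
      · intro h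
        exact absurd (Finset.mem_univ j) h
      · rintro (h | h)
        · exact Fin.succ_ne_zero _ h
        · have := congrArg Fin.val h
          simp at this

theorem not_hasRPFD_shCone (k : ℕ) {M : PointedCone ℝ (Fin (k + 2) → ℝ)}
    (hM1 : interior (shCone k : Set (Fin (k + 2) → ℝ)) ⊆ M) (hM2 : M ≤ shCone k) :
    ¬ HasRPFD (intLat (k + 2)) ⊥ M := by
  intro hR
  obtain ⟨F, hF, hcov⟩ := exists_cover_of_hasRPFD hM2 hR
  have hN := good_shCone k
  have hin : interior (shCone k : Set (Fin (k + 2) → ℝ)) ⊆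
      (PointedCone.hull ℝ (F : Set (Fin (k + 2) → ℝ)) : Set (Fin (k + 2) → ℝ)) := by
    intro x hx
    obtain ⟨g, hg, hgx⟩ := hcov x (hM1 hx)
    rw [Subgroup.mem_bot] at hg
    rw [hg] at hgx
    exact hgx
  obtain ⟨φ, -, hφ⟩ := exists_form (L := intLat (k + 2)) hN
  have hcl : IsClosed (PointedCone.hull ℝ (F : Set (Fin (k + 2) → ℝ)) :
      Set (Fin (k + 2) → ℝ)) := by
    refine isClosed_hull (K := shCone k) φ (fun y hy => hφ y (by
      rwa [hN.closed.closure_eq] at hy)) _ fun a ha => (hF a ha).2
  obtain ⟨u, hu⟩ := hN.interior_nonempty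
  -- the irrational extremal ray
  set w : Fin (k + 2) → ℝ := fun i => if i = 0 then 1 else if i = 1 then √2 else 0 with hw
  have h10 : (1 : Fin (k + 2)) ≠ 0 := by simp
  have hw0 : w 0 = 1 := by simp [hw]
  have hw1 : w 1 = √2 := by simp [hw]
  have hwN : w ∈ shCone k := by
    rw [mem_shCone]
    intro i
    by_cases hi : i = 0
    · subst hi
      rw [shForm_zero, hw0, hw1, mul_one, sub_self]
    · rw [shForm_ne k hi]
      simp only [hw, if_neg hi]
      split_ifs
      · exact sqrt_two_pos.le
      · exact le_rfl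
  have hwmem : w ∈ PointedCone.hull ℝ (F : Set (Fin (k + 2) → ℝ)) := by
    have h1 : Filter.Tendsto (fun t : ℝ => t⁻¹ • u + w) Filter.atTop (𝓝 ((0 : ℝ) • u + w)) :=
      (tendsto_inv_atTop_zero.smul_const u).add tendsto_const_nhds
    rw [zero_smul, zero_add] at h1
    refine hcl.mem_of_tendsto h1 ?_
    filter_upwards [Filter.eventually_gt_atTop (0 : ℝ)] with t ht
    exact hin (interior_add_mem (interior_smul_mem hu (inv_pos.2 ht)) hwN)
  obtain ⟨c, hc, hcw⟩ := mem_hull_finset.1 hwmem
  have hzero : ∑ a ∈ F, c a * shForm k 0 a = 0 := by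
    have h1 : shForm k 0 w = 0 := by rw [shForm_zero, hw0, hw1, mul_one, sub_self]
    rw [hcw, map_sum] at h1
    rw [← h1]
    exact Finset.sum_congr rfl fun a _ => by rw [map_smul, smul_eq_mul]
  have hterm : ∀ a ∈ F, c a * shForm k 0 a = 0 :=
    (Finset.sum_eq_zero_iff_of_nonneg fun a ha =>
      mul_nonneg (hc a ha) (mem_shCone.1 (hF a ha).2 0)).1 hzero
  have hirr : ∀ a ∈ F, c a * a 0 = 0 := by
    intro a ha
    rcases mul_eq_zero.1 (hterm a ha) with h | h
    · rw [h, zero_mul]
    · obtain ⟨m, hm⟩ := mem_intLat.1 (hF a ha).1 0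
      obtain ⟨l, hl⟩ := mem_intLat.1 (hF a ha).1 1
      rw [shForm_zero, ← hm, ← hl] at h
      by_cases hm0 : m = 0
      · rw [← hm, hm0, Int.cast_zero, mul_zero]
      · exfalso
        have hm0' : (m : ℝ) ≠ 0 := by exact_mod_cast hm0
        have h2 : √2 = ((l / m : ℚ) : ℝ) := by
          push_cast
          rw [eq_div_iff hm0']
          linarith
        exact irrational_sqrt_two.ne_rat _ h2
  have h1 : w 0 = 0 := by
    rw [hcw, Finset.sum_apply]
    refine Finset.sum_eq_zero fun a ha => ?_
    rw [Pi.smul_apply, smul_eq_mul]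
    exact hirr a ha
  rw [hw0] at h1
  exact one_ne_zero h1

/-- the coordinate `q + 2 + l` -/
def shIdx (j q : ℕ) (l : Fin j) : Fin (j + q + 2) := ⟨q + 2 + l, by omega⟩

/-- the sum of the first `q + 2` coordinates -/
noncomputable def shSum (j q : ℕ) : (Fin (j + q + 2) → ℝ) →ₗ[ℝ] ℝ :=
  ∑ c ∈ Finset.univ.filter (fun c : Fin (j + q + 2) => c.val < q + 2), LinearMap.proj c

/-- the factors of the degree function of the example: the last `j` coordinates, and `e + 1` times
the sum of the first coordinates -/
noncomputable def shFac (j q e : ℕ) (i : Fin (j + e + 1)) : (Fin (j + q + 2) → ℝ) →ₗ[ℝ] ℝ :=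
  if h : i.val < j then LinearMap.proj (shIdx j q ⟨i.val, h⟩) else shSum j q

theorem shSum_apply (j q : ℕ) (x : Fin (j + q + 2) → ℝ) : shSum j q x =
    ∑ c ∈ Finset.univ.filter (fun c : Fin (j + q + 2) => c.val < q + 2), x c := by
  simp [shSum, LinearMap.sum_apply]

theorem shFac_of_lt {j q e : ℕ} {i : Fin (j + e + 1)} (h : i.val < j) (x : Fin (j + q + 2) → ℝ) :
    shFac j q e i x = x (shIdx j q ⟨i.val, h⟩) := by
  unfold shFac
  rw [dif_pos h]
  rfl

theorem shFac_of_not_lt {j q e : ℕ} {i : Fin (j + e + 1)} (h : ¬ i.val < j)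
    (x : Fin (j + q + 2) → ℝ) : shFac j q e i x = shSum j q x := by
  unfold shFac
  rw [dif_neg h]

/-- the symmetric multilinear form of the example -/
noncomputable def shMul (j q e : ℕ) :
    MultilinearMap ℝ (fun _ : Fin (j + e + 1) => Fin (j + q + 2) → ℝ) ℝ :=
  ∑ σ : Equiv.Perm (Fin (j + e + 1)),
    ((MultilinearMap.mkPiAlgebra ℝ (Fin (j + e + 1)) ℝ).compLinearMap
      (shFac j q e)).domDomCongr σ

theorem shMul_apply (j q e : ℕ) (x : Fin (j + e + 1) → Fin (j + q + 2) → ℝ) :
    shMul j q e x = ∑ σ : Equiv.Perm (Fin (j + e + 1)), ∏ i, shFac j q e i (x (σ i)) := by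
  simp [shMul]

theorem shMul_symm (j q e : ℕ) (τ : Equiv.Perm (Fin (j + e + 1)))
    (x : Fin (j + e + 1) → Fin (j + q + 2) → ℝ) :
    shMul j q e (fun i => x (τ i)) = shMul j q e x := by
  rw [shMul_apply, shMul_apply]
  exact Equiv.sum_comp (Equiv.mulLeft τ)
    (fun σ : Equiv.Perm (Fin (j + e + 1)) => ∏ i, shFac j q e i (x (σ i)))

theorem coord_nonneg_shCone {k : ℕ} {x : Fin (k + 2) → ℝ} (hx : x ∈ shCone k) (i : Fin (k + 2)) :
    0 ≤ x i := by
  rw [mem_shCone] at hx
  by_cases hi : i = 0
  · have h0 := hx 0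
    have h1 := hx 1
    rw [shForm_zero] at h0
    rw [shForm_ne k (by simp)] at h1
    rw [hi]
    by_contra hcon
    push Not at hcon
    have := mul_neg_of_pos_of_neg sqrt_two_pos hcon
    linarith
  · have h1 := hx i
    rwa [shForm_ne k hi] at h1

theorem shSum_nonneg {j q : ℕ} {x : Fin (j + q + 2) → ℝ} (hx : x ∈ shCone (j + q)) :
    0 ≤ shSum j q x := by
  rw [shSum_apply]
  exact Finset.sum_nonneg fun c _ => coord_nonneg_shCone hx c

theorem le_shSum {j q : ℕ} {x : Fin (j + q + 2) → ℝ} (hx : x ∈ shCone (j + q))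
    {c : Fin (j + q + 2)} (hc : c.val < q + 2) : x c ≤ shSum j q x := by
  rw [shSum_apply]
  exact Finset.single_le_sum (f := fun c => x c)
      (fun c _ => coord_nonneg_shCone hx c) (Finset.mem_filter.2 ⟨Finset.mem_univ c, hc⟩)

theorem shFac_nonneg {j q e : ℕ} {x : Fin (j + q + 2) → ℝ} (hx : x ∈ shCone (j + q))
    (i : Fin (j + e + 1)) : 0 ≤ shFac j q e i x := by
  by_cases h : i.val < j
  · rw [shFac_of_lt h]
    exact coord_nonneg_shCone hx _
  · rw [shFac_of_not_lt h]
    exact shSum_nonneg hx

theorem le_shMul {j q e : ℕ} {x : Fin (j + e + 1) → Fin (j + q + 2) → ℝ}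
    (hx : ∀ i, x i ∈ shCone (j + q)) : ∏ i, shFac j q e i (x i) ≤ shMul j q e x := by
  rw [shMul_apply]
  exact Finset.single_le_sum
    (f := fun σ : Equiv.Perm (Fin (j + e + 1)) => ∏ i, shFac j q e i (x (σ i)))
    (fun σ _ => Finset.prod_nonneg fun i _ => shFac_nonneg (hx _) i)
    (Finset.mem_univ (1 : Equiv.Perm (Fin (j + e + 1))))

theorem shFac_pos_of_deg {j q e : ℕ} {z : Fin (j + q + 2) → ℝ} (hz : z ∈ shCone (j + q))
    (h : 0 < deg (shMul j q e) z) (i : Fin (j + e + 1)) : 0 < shFac j q e i z := by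
  refine lt_of_le_of_ne (shFac_nonneg hz i) fun h0 => ?_
  have h1 : ∏ i, shFac j q e i z = 0 := Finset.prod_eq_zero (Finset.mem_univ i) h0.symm
  unfold deg at h
  rw [shMul_apply, Finset.sum_congr rfl fun σ _ => h1, Finset.sum_const_zero] at h
  exact lt_irrefl _ h

theorem exists_shFac_pos {j q : ℕ} (e : ℕ) {w : Fin (j + q + 2) → ℝ} (hw : w ∈ shCone (j + q))
    (hw0 : w ≠ 0) : ∃ i, 0 < shFac j q e i w := by
  obtain ⟨c, hc⟩ : ∃ c, w c ≠ 0 := by
    by_contra hcon
    push Not at hcon
    exact hw0 (funext hcon)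
  have hc0 : 0 < w c := lt_of_le_of_ne (coord_nonneg_shCone hw c) (Ne.symm hc)
  by_cases hcq : c.val < q + 2
  · refine ⟨⟨j, by omega⟩, ?_⟩
    rw [shFac_of_not_lt (lt_irrefl j)]
    exact lt_of_lt_of_le hc0 (le_shSum hw hcq)
  · push Not at hcq
    have hcl := c.isLt
    have hlt : c.val - (q + 2) < j := by omega
    refine ⟨⟨c.val - (q + 2), by omega⟩, ?_⟩
    rw [shFac_of_lt (i := ⟨c.val - (q + 2), by omega⟩) hlt]
    have e1 : shIdx j q ⟨c.val - (q + 2), hlt⟩ = c := by
      apply Fin.ext
      simp only [shIdx]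
      omega
    rw [e1]
    exact hc0

theorem isIntersection_shMul (j q e : ℕ) :
    IsIntersection (shCone (j + q)) ⊥ (shMul j q e) where
  nonneg x hx := (Finset.prod_nonneg fun i _ => shFac_nonneg (hx i) i).trans (le_shMul hx)
  inv g hg x _ := by
    rw [Subgroup.mem_bot] at hg
    rw [hg]
    rfl
  ample x hx := by
    have hxN := interior_subset hx
    refine lt_of_lt_of_le ?_ (le_shMul fun _ => hxN)
    refine Finset.prod_pos fun i _ => ?_
    by_cases h : i.val < j
    · rw [shFac_of_lt h]
      refine pos_of_interior hx fun h => ?_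
      have := congrArg Fin.val h
      simp [shIdx] at this
    · rw [shFac_of_not_lt h]
      have h1 : (0 : ℝ) < x 1 := pos_of_interior hx (by simp)
      refine lt_of_lt_of_le h1 (le_shSum hxN ?_)
      rw [Fin.val_one]
      omega
  big z hz hz0 w hw hw0 := by
    obtain ⟨i, hi⟩ := exists_shFac_pos e hw hw0
    refine ⟨i, ?_⟩
    have hmem : ∀ l, Function.update (fun _ : Fin (j + e + 1) => z) i w l ∈ shCone (j + q) := by
      intro l
      by_cases hl : l = i
      · rw [hl, Function.update_self]
        exact hw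
      · rw [Function.update_of_ne hl]
        exact hz
    refine lt_of_lt_of_le ?_ (le_shMul hmem)
    refine Finset.prod_pos fun l _ => ?_
    by_cases hl : l = i
    · rw [hl, Function.update_self]
      exact hi
    · rw [Function.update_of_ne hl]
      exact shFac_pos_of_deg hz hz0 l

theorem isSum_of_deg {j q e : ℕ} {y : Fin (j + q + 2) → ℝ} (hyL : y ∈ intLat (j + q + 2))
    (hyN : y ∈ shCone (j + q)) (hy : 0 < deg (shMul j q e) y) :
    IsSum (intLat (j + q + 2)) (shCone (j + q)) (j + 1) y := by
  have hpos := shFac_pos_of_deg hyN hy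
  have hN := mem_shCone.1 hyN
  rw [mem_intLat] at hyL
  have hidx : ∀ l : Fin j, 0 < y (shIdx j q l) := fun l => by
    have h1 := hpos ⟨l.val, by omega⟩
    rwa [shFac_of_lt (i := ⟨l.val, by omega⟩) l.isLt] at h1
  have hsum : 0 < shSum j q y := by
    have h1 := hpos ⟨j, by omega⟩
    rwa [shFac_of_not_lt (lt_irrefl j)] at h1
  refine ⟨Fin.cons (fun c => if c.val < q + 2 then y c else 0)
    (fun l => Pi.single (shIdx j q l) (y (shIdx j q l))), fun i => ?_, ?_⟩
  · refine Fin.cases ?_ (fun l => ?_) i
    · rw [Fin.cons_zero]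
      refine ⟨?_, ?_, ?_⟩
      · rw [mem_intLat]
        intro c
        by_cases h : c.val < q + 2
        · rw [if_pos h]
          exact hyL c
        · rw [if_neg h]
          exact ⟨0, by simp⟩
      · rw [mem_shCone]
        intro c
        by_cases hc : c = 0
        · subst hc
          have := hN 0
          rw [shForm_zero] at this ⊢
          simpa using this
        · rw [shForm_ne (j + q) hc]
          by_cases h : c.val < q + 2
          · rw [if_pos h]
            exact coord_nonneg_shCone hyN c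
          · rw [if_neg h]
      · intro h
        rw [shSum_apply, Finset.sum_eq_zero] at hsum
        · exact lt_irrefl _ hsum
        · intro c hc
          have h2 := congrFun h c
          rwa [if_pos (Finset.mem_filter.1 hc).2] at h2
    · rw [Fin.cons_succ]
      refine ⟨?_, ?_, ?_⟩
      · rw [mem_intLat]
        intro c
        by_cases h : c = shIdx j q l
        · rw [h, Pi.single_eq_same]
          exact hyL _
        · rw [Pi.single_eq_of_ne h]
          exact ⟨0, by simp⟩
      · rw [mem_shCone]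
        intro c
        have hne0 : (0 : Fin (j + q + 2)) ≠ shIdx j q l := by
          intro h
          have := congrArg Fin.val h
          simp only [shIdx, Fin.val_zero] at this
          omega
        have hne1 : (1 : Fin (j + q + 2)) ≠ shIdx j q l := by
          intro h
          have := congrArg Fin.val h
          rw [Fin.val_one] at this
          simp only [shIdx] at this
          omega
        by_cases hc : c = 0
        · subst hc
          rw [shForm_zero, Pi.single_eq_of_ne hne0, Pi.single_eq_of_ne hne1]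
          simp
        · rw [shForm_ne (j + q) hc]
          by_cases h : c = shIdx j q l
          · rw [h, Pi.single_eq_same]
            exact (hidx l).le
          · rw [Pi.single_eq_of_ne h]
      · intro h
        have h1 := congrFun h (shIdx j q l)
        rw [Pi.single_eq_same, Pi.zero_apply] at h1
        have := hidx l
        linarith
  · rw [Fin.sum_univ_succ, Fin.cons_zero]
    simp only [Fin.cons_succ]
    funext c
    rw [Pi.add_apply, Finset.sum_apply]
    by_cases h : c.val < q + 2
    · rw [if_pos h, Finset.sum_eq_zero, add_zero]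
      intro l _
      refine Pi.single_eq_of_ne (fun h2 => ?_) _
      have := congrArg Fin.val h2
      simp only [shIdx] at this
      omega
    · have hcl := c.isLt
      have e1 : shIdx j q ⟨c.val - (q + 2), by omega⟩ = c := by
        apply Fin.ext
        simp only [shIdx]
        omega
      rw [if_neg h, zero_add, Finset.sum_eq_single ⟨c.val - (q + 2), by omega⟩]
      · rw [e1, Pi.single_eq_same]
      · intro l _ hl
        refine Pi.single_eq_of_ne (fun h2 => hl ?_) _
        apply Fin.ext
        have := congrArg Fin.val h2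
        simp only [shIdx] at this
        simp only
        omega
      · intro h2
        exact absurd (Finset.mem_univ _) h2

theorem cones_shCone (k : ℕ) : Cones (intLat (k + 2)) (shCone k)
    (ratHull (intLat (k + 2)) (shCone k)) ⊥ where
  closed := (good_shCone k).closed
  salient := (good_shCone k).salient
  interior_nonempty := (good_shCone k).interior_nonempty
  interior_le := by
    intro q hq
    obtain ⟨s, hs1, hs2, hs3⟩ := exists_ratPoly_nhds (intLat (k + 2)) isOpen_interior hq
    have hle : PointedCone.hull ℝ (s : Set (Fin (k + 2) → ℝ)) ≤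
        ratHull (intLat (k + 2)) (shCone k) := by
      refine Submodule.span_le.2 ?_
      intro v hv
      obtain ⟨c, hc, hcv⟩ := hs2 v hv
      have h1 := interior_smul_mem hcv (inv_pos.2 hc)
      rw [smul_smul, inv_mul_cancel₀ hc.ne', one_smul] at h1
      exact Submodule.subset_span ⟨interior_subset h1, hs1 hv⟩
    exact hle (interior_subset hs3)
  le := ratHull_le
  map_lattice g hg x hx := by
    rw [Subgroup.mem_bot] at hg
    rw [hg]
    exact hx
  map_closed g hg x hx := by
    rw [Subgroup.mem_bot] at hg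
    rw [hg]
    exact hx
  map_cone g hg x hx := by
    rw [Subgroup.mem_bot] at hg
    rw [hg]
    exact hx

/-- Sharpness: for `n ≥ 1` and `r ≥ 2` there are cones in `ℝ ^ r` and a symmetric form of degree
`n` as above (for the trivial group) for which all big lattice points are sums of
`min r (n + 1) - 1`, and all interior lattice points are sums of `r - 1` nonzero lattice points, but
without rational polyhedral fundamental domain. -/
theorem sharp (n r : ℕ) (hn : 1 ≤ n) (hr : 2 ≤ r) :
    ∃ (N M : PointedCone ℝ (Fin r → ℝ)) (F : MultilinearMap ℝ (fun _ : Fin n => Fin r → ℝ) ℝ),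
      Cones (intLat r) N M ⊥ ∧ LatticeGenerated (intLat r) M ∧ IsIntersection N ⊥ F ∧
      (∀ (τ : Equiv.Perm (Fin n)) (x : Fin n → Fin r → ℝ), F (fun i => x (τ i)) = F x) ∧
      (∀ y ∈ intLat r, y ∈ M → 0 < deg F y → IsSum (intLat r) M (min r (n + 1) - 1) y) ∧
      (∀ y ∈ intLat r, y ∈ interior (N : Set (Fin r → ℝ)) → IsSum (intLat r) M (r - 1) y) ∧
      ¬ HasRPFD (intLat r) ⊥ M := by
  obtain ⟨j, hj⟩ : ∃ j, j = min (r - 1) n - 1 := ⟨_, rfl⟩
  obtain ⟨q, rfl⟩ : ∃ q, r = j + q + 2 := ⟨r - j - 2, by omega⟩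
  obtain ⟨e, rfl⟩ : ∃ e, n = j + e + 1 := ⟨n - j - 1, by omega⟩
  have hmin : min (j + q + 2) (j + e + 1 + 1) - 1 = j + 1 := by omega
  rw [hmin]
  have hC := cones_shCone (j + q)
  have hmem : ∀ v ∈ intLat (j + q + 2), v ∈ shCone (j + q) →
      v ∈ ratHull (intLat (j + q + 2)) (shCone (j + q)) := mem_of_ratHull rfl
  exact ⟨shCone (j + q), ratHull (intLat (j + q + 2)) (shCone (j + q)), shMul j q e, hC,
    latticeGenerated_of_ratHull hC.le rfl, isIntersection_shMul j q e, shMul_symm j q e,
    fun y h1 h2 h3 => (isSum_of_deg h1 (hC.le h2) h3).mono hmem,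
    fun y h1 h2 => (isSum_shCone (j + q) h1 h2).mono hmem,
    not_hasRPFD_shCone (j + q) hC.interior_le hC.le⟩

end Pool.Agent.Lib.Pad47bbS
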